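import Pool.Agent.Lib.MP_40d15f_co.Count

/-!
# MP_40d15f_co : closure
-/

set_option autoImplicit false

open Finset

namespace Pool.MP40

variable {V : Type} [Fintype V] {G : SimpleGraph V} {k : ℕ} {x y : V}

/-- edge-maximal graphs without an `x`–`y` path of `i` vertices -/
def MaxNo (G : SimpleGraph V) (i : ℕ) (x y : V) : Prop :=
  ¬ HasXY G i x y ∧ ∀ u v, u ≠ v → ¬ G.Adj u v → HasXY (G ⊔ SimpleGraph.edge u v) i x y

theorem exists_maxNo {i : ℕ} (h : ¬ HasXY G i x y) : ∃ G', G ≤ G' ∧ MaxNo G' i x y := by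
  classical
  have hfin : (Set.univ : Set (SimpleGraph V)).Finite := Set.toFinite _
  obtain ⟨G', hle, hmax⟩ := (Set.toFinite {G' : SimpleGraph V | ¬ HasXY G' i x y}).exists_le_maximal h
  refine ⟨G', hle, hmax.prop, fun u v huv hadj => ?_⟩
  by_contra hcon
  have h1 : G' ⊔ SimpleGraph.edge u v ≤ G' := hmax.le_of_ge hcon le_sup_left
  apply hadj
  have h2 : (G' ⊔ SimpleGraph.edge u v).Adj u v := by
    rw [SimpleGraph.sup_adj, SimpleGraph.edge_adj]
    exact Or.inr ⟨Or.inl ⟨rfl, rfl⟩, huv⟩
  exact h1 h2

private theorem close_card_compl_Bi [DecidableEq V] (h : te G < 2 * ((k + 1) * Fintype.card V)) :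
    (univ \ Bi G).card ≤ 16 * (k + 1) := by
  have h1 : (univ \ Bi G).card * (Fintype.card V) ≤ 8 * te G := by
    unfold te
    rw [Finset.mul_sum, ← smul_eq_mul]
    refine (Finset.card_nsmul_le_sum (univ \ Bi G) (fun v => 8 * db G v) _ ?_).trans
      (Finset.sum_le_sum_of_subset (Finset.subset_univ _))
    intro v hv
    simp only [Bi, mem_sdiff, mem_univ, true_and, mem_filter, not_le] at hv
    exact hv.le
  by_contra hcon
  push Not at hcon
  have h2 : 16 * (k + 1) * Fintype.card V ≤ (univ \ Bi G).card * (Fintype.card V) :=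
    Nat.mul_le_mul_right _ hcon.le
  nlinarith

private theorem close_countP_le {A : V → Prop} [DecidablePred A] (l : List V) (hl : l.Nodup)
    (S : Finset V) (h : ∀ v ∈ l, A v → v ∈ S) : l.countP (fun v => A v) ≤ S.card := by
  classical
  rw [List.countP_eq_length_filter, ← List.toFinset_card_of_nodup (hl.filter _)]
  refine Finset.card_le_card fun v hv => ?_
  rw [List.mem_toFinset, List.mem_filter] at hv
  exact h v hv.1 (by simpa using hv.2)

private theorem close_triple (A B : V → Prop) [DecidablePred A] [DecidablePred B] : ∀ l : List V,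
    (∀ α r s t γ, l = α ++ r :: s :: t :: γ → ¬ (A r ∧ B t)) →
    l.length ≤ l.countP (fun v => ¬ A v) + l.tail.tail.countP (fun v => ¬ B v) + 2
  | [], _ => by simp
  | [a], _ => by simp
  | [a, b], _ => by simp
  | a :: b :: c :: l, h => by
    have ih := close_triple A B (b :: c :: l)
      (fun α r s t γ he => h (a :: α) r s t γ (by rw [he]; rfl))
    have h0 := h [] a b c l rfl
    simp only [List.tail_cons, List.length_cons] at ih ⊢
    rw [List.countP_cons (a := a), List.countP_cons (a := c) (l := l) (p := fun v => decide (¬ B v))]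
    by_cases ha : A a
    · have hc : ¬ B c := fun hc => h0 ⟨ha, hc⟩
      simp only [hc, not_false_eq_true, decide_true, if_true]
      omega
    · simp only [ha, not_false_eq_true, decide_true, if_true]
      omega

/-- a long path can be shortened by one vertex -/
theorem shorten (hn : 100 * (k + 2) ^ 3 ≤ Fintype.card V)
    (he : te G < 2 * ((k + 1) * Fintype.card V)) {j : ℕ} (hj : Fintype.card V ≤ j + (k + 2))
    (h : HasXY G (j + 1) x y) : HasXY G j x y := by
  classical
  obtain ⟨P, hP, hlen⟩ := h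
  set n := Fintype.card V with hnd
  have hB := close_card_compl_Bi (k := k) he
  have hk3 : (k + 2) ^ 3 = (k + 2) * (k + 2) * (k + 2) := by ring
  have hk4 : 4 * (k + 2) ≤ (k + 2) ^ 3 := by
    rw [hk3]
    exact Nat.mul_le_mul_right _ (Nat.mul_le_mul (by omega : 2 ≤ k + 2) (by omega : 2 ≤ k + 2))
  -- consecutive pair in a prefix
  set m := 32 * (k + 1) + 2 with hm
  have hmlen : (P.take m).length = m := by
    rw [List.length_take, hlen]; omega
  have hcnt : (P.take m).countP (fun v => ¬ v ∈ Bi G) ≤ 16 * (k + 1) :=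
    (close_countP_le (A := fun v => ¬ v ∈ Bi G) _ (hP.nd.sublist (List.take_sublist _ _))
      (univ \ Bi G) (fun v _ hv => by simpa using hv)).trans hB
  obtain ⟨α, p, q, β₀, hdec, hp, hq⟩ := exists_consec (fun v => v ∈ Bi G) (P.take m) (by
    rw [hmlen]; omega)
  set β := β₀ ++ P.drop m with hβ
  have hPd : P = α ++ p :: q :: β := by
    rw [← List.take_append_drop m P, hdec, hβ]; simp
  have hlen2 : α.length + β.length + 2 = j + 1 := by
    rw [← hlen, hPd]; simp only [List.length_append, List.length_cons]; omega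
  have hlen3 : α.length + 2 ≤ m := by
    rw [← hmlen, hdec]; simp only [List.length_append, List.length_cons]; omega
  have hnd := hP.nd
  have hch := hP.ch
  rw [hPd] at hnd hch
  by_cases hex : ∃ α' r s t γ, q :: β = α' ++ r :: s :: t :: γ ∧ G.Adj p r ∧ G.Adj q t
  · obtain ⟨α', r, s, t, γ, hdec', hpr, hqt⟩ := hex
    have hPd' : P = (α ++ [p]) ++ (α' ++ [r]) ++ s :: t :: γ := by
      rw [hPd, hdec']; simp
    have hnd' := hP.nd
    have hch' := hP.ch
    have hhd := hP.hd
    have hlt := hP.lt
    rw [hPd'] at hnd' hch' hhd hlt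
    have hhead : (α' ++ [r]).head? = some q := by
      have := congrArg List.head? hdec'
      cases α' with
      | nil => simpa using this.symm
      | cons a α'' => simpa using this.symm
    refine ⟨(α ++ [p]) ++ (α' ++ [r]).reverse ++ t :: γ, ⟨?_, ?_, ?_, ?_⟩, ?_⟩
    · have h1 : ((α ++ [p]) ++ (α' ++ [r]) ++ t :: γ).Nodup := by
        refine hnd'.sublist ?_
        exact List.Sublist.append_left (List.sublist_cons_self _ _) _
      have hp' : ((α ++ [p]) ++ (α' ++ [r]).reverse ++ t :: γ).Perm
          ((α ++ [p]) ++ (α' ++ [r]) ++ t :: γ) :=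
        ((List.reverse_perm _).append_left _).append_right _
      exact hp'.nodup_iff.2 h1
    · rw [List.isChain_append, List.isChain_append] at hch' ⊢
      refine ⟨⟨hch'.1.1, ?_, ?_⟩, ?_, ?_⟩
      · rw [List.isChain_reverse]
        exact hch'.1.2.1.imp fun a b hab => hab.symm
      · intro a ha b hb
        rw [List.head?_reverse] at hb
        simp at ha hb
        subst ha; subst hb
        exact hpr
      · have := hch'.2.1
        rw [List.isChain_cons_cons] at this
        exact this.2
      · intro a ha b hb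
        rw [List.getLast?_append, List.getLast?_reverse, hhead] at ha
        simp at ha hb
        subst ha; subst hb
        exact hqt
    · cases α <;> simpa using hhd
    · rw [List.getLast?_append] at hlt ⊢
      rw [List.getLast?_cons_cons] at hlt
      obtain ⟨b, hb⟩ : ∃ b, (t :: γ).getLast? = some b :=
        ⟨_, List.getLast?_eq_some_getLast (List.cons_ne_nil _ _)⟩
      rw [hb] at hlt ⊢
      simpa using hlt
    · have := congrArg List.length hPd'
      rw [hlen] at this
      simp only [List.length_append, List.length_cons, List.length_reverse, List.length_nil] at this ⊢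
      omega
  · exfalso
    push Not at hex
    have h1 := close_triple (fun v => G.Adj p v) (fun v => G.Adj q v) (q :: β)
      (fun α' r s t γ he' hh => hex α' r s t γ he' hh.1 hh.2)
    have hndq : (q :: β).Nodup := (List.nodup_append.1 hnd).2.1.of_cons
    have hpq : p ∉ q :: β := by
      have := (List.nodup_append.1 hnd).2.1
      exact (List.nodup_cons.1 this).1
    have h2 : (q :: β).countP (fun v => ¬ G.Adj p v) ≤ db G p :=
      close_countP_le (A := fun v => ¬ G.Adj p v) _ hndq (nonb G p) fun v hv hv' =>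
        mem_nonb.2 ⟨fun he' => hpq (he' ▸ hv), hv'⟩
    have hndb : β.tail.Nodup := (List.nodup_cons.1 hndq).2.sublist (List.tail_sublist _)
    have h3 : β.tail.countP (fun v => ¬ G.Adj q v) ≤ db G q :=
      close_countP_le (A := fun v => ¬ G.Adj q v) _ hndb (nonb G q) fun v hv hv' =>
        mem_nonb.2 ⟨fun he' => (List.nodup_cons.1 hndq).1 (he' ▸ List.mem_of_mem_tail hv), hv'⟩
    simp only [List.tail_cons, List.length_cons] at h1
    have h4 : 8 * db G p ≤ n := by simpa [Bi] using hp
    have h5 : 8 * db G q ≤ n := by simpa [Bi] using hq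
    omega

private theorem close_chain_or {R S : V → V → Prop} : ∀ l : List V, l.IsChain R →
    l.IsChain S ∨ ∃ l1 a b l2, l = l1 ++ a :: b :: l2 ∧ R a b ∧ ¬ S a b
  | [], _ => Or.inl (by simp)
  | [a], _ => Or.inl (by simp)
  | a :: b :: l, h => by
    rw [List.isChain_cons_cons] at h
    by_cases hab : S a b
    · rcases close_chain_or (b :: l) h.2 with h1 | ⟨l1, c, d, l2, he, h1, h2⟩
      · exact Or.inl (by rw [List.isChain_cons_cons]; exact ⟨hab, h1⟩)
      · exact Or.inr ⟨a :: l1, c, d, l2, by rw [he]; rfl, h1, h2⟩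
    · exact Or.inr ⟨[], a, b, l, rfl, h.1, hab⟩

private theorem close_deg_aux {i : ℕ} {u v : V} {l1 l2 : List V} (hnadj : ¬ G.Adj u v)
    (hno : ¬ HasXY G i x y) (hsh : HasXY G (i + 1) x y → HasXY G i x y)
    (hP : PathL (G ⊔ SimpleGraph.edge u v) x y (l1 ++ u :: v :: l2))
    (hlen : (l1 ++ u :: v :: l2).length = i) :
    (nb G u).card + (nb G v).card ≤ Fintype.card V := by
  classical
  obtain ⟨nd, ch, hd, lt⟩ := hP
  have nd1 : (l1 ++ [u] ++ v :: l2).Nodup := by simpa using nd
  have ch1 : (l1 ++ [u] ++ v :: l2).IsChain (G ⊔ SimpleGraph.edge u v).Adj := by simpa using ch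
  have nd2 := List.nodup_append.1 nd1
  rw [List.isChain_append] at ch1
  have hdis : ∀ w ∈ l1 ++ [u], w ∉ v :: l2 := fun w hw hw' => nd2.2.2 w hw w hw' rfl
  have hv1 : v ∉ l1 ++ [u] := fun h => hdis v h (by simp)
  have hu2 : u ∉ v :: l2 := hdis u (by simp)
  have hS : ∀ a b : V, (G ⊔ SimpleGraph.edge u v).Adj a b →
      ¬ (a = u ∧ b = v ∨ a = v ∧ b = u) → G.Adj a b := by
    intro a b hab hne
    rw [SimpleGraph.sup_adj, SimpleGraph.edge_adj] at hab
    rcases hab with h | h
    · exact h
    · exact absurd h.1 hne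
  have H1 : PathL G x u (l1 ++ [u]) := by
    refine ⟨nd2.1, ?_, ?_, by simp⟩
    · refine ch1.1.imp_of_mem_imp fun a b ha hb hab => hS a b hab ?_
      rintro (h | h)
      · exact hv1 (h.2 ▸ hb)
      · exact hv1 (h.1 ▸ ha)
    · cases l1 <;> simpa using hd
  have H2 : PathL G v y (v :: l2) := by
    refine ⟨nd2.2.1, ?_, by simp, ?_⟩
    · refine ch1.2.1.imp_of_mem_imp fun a b ha hb hab => hS a b hab ?_
      rintro (h | h)
      · exact hu2 (h.1 ▸ ha)
      · exact hu2 (h.2 ▸ hb)
    · rw [List.getLast?_append, List.getLast?_cons_cons] at lt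
      obtain ⟨b, hb⟩ : ∃ b, (v :: l2).getLast? = some b :=
        ⟨_, List.getLast?_eq_some_getLast (List.cons_ne_nil _ _)⟩
      rw [hb] at lt ⊢
      simpa using lt
  -- pieces of a path
  have hpre : ∀ {a b c : V} {s t : List V}, PathL G a b (s ++ c :: t) → PathL G a c (s ++ [c]) := by
    intro a b c s t h
    have nd' := h.nd
    have ch' := h.ch
    have hd' := h.hd
    have e : s ++ c :: t = (s ++ [c]) ++ t := by simp
    rw [e] at nd' ch'
    exact ⟨(List.nodup_append.1 nd').1, (List.isChain_append.1 ch').1,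
      by cases s <;> simpa using hd', by simp⟩
  have hsuf : ∀ {a b c : V} {s t : List V}, PathL G a b (s ++ c :: t) → PathL G c b (c :: t) := by
    intro a b c s t h
    have nd' := h.nd
    have ch' := h.ch
    have lt' := h.lt
    refine ⟨(List.nodup_append.1 nd').2.1, (List.isChain_append.1 ch').2.1, by simp, ?_⟩
    rw [List.getLast?_append] at lt'
    obtain ⟨d, hd'⟩ : ∃ d, (c :: t).getLast? = some d :=
      ⟨_, List.getLast?_eq_some_getLast (List.cons_ne_nil _ _)⟩
    rw [hd'] at lt' ⊢
    simpa using lt'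
  have hc1 : l1.countP (fun w => G.Adj u w) + l1.countP (fun w => G.Adj v w) ≤ l1.length + 1 := by
    refine countP_pair _ _ l1 fun a p q b he hpq => hno ?_
    have e1 : l1 ++ [u] = a ++ p :: (q :: b ++ [u]) := by rw [he]; simp
    have e2 : l1 ++ [u] = (a ++ [p]) ++ q :: (b ++ [u]) := by rw [he]; simp
    have P1 : PathL G x p (a ++ [p]) := hpre (e1 ▸ H1)
    have P2 : PathL G q u (q :: (b ++ [u])) := hsuf (e2 ▸ H1)
    have hd1 : ∀ w ∈ a ++ [p], w ∉ q :: (b ++ [u]) := by
      have h0 := H1.nd
      rw [e2] at h0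
      exact fun w hw hw' => (List.nodup_append.1 h0).2.2 w hw w hw' rfl
    have P3 := P1.append P2.reverse hpq.1.symm (fun w hw hw' => hd1 w hw (by
      rw [List.mem_reverse] at hw'; exact hw'))
    have P4 := P3.append H2 hpq.2.symm (fun w hw hw' => hdis w (by
      rw [e2]
      rw [List.mem_append, List.mem_reverse] at hw
      rw [List.mem_append]; exact hw) hw')
    refine ⟨_, P4, ?_⟩
    rw [← hlen, he]
    simp only [List.length_append, List.length_reverse, List.length_cons, List.length_nil]
    omega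
  have hc2 : l2.countP (fun w => G.Adj u w) + l2.countP (fun w => G.Adj v w) ≤ l2.length + 1 := by
    refine countP_pair _ _ l2 fun a p q b he hpq => hno ?_
    have e1 : v :: l2 = (v :: a) ++ p :: (q :: b) := by rw [he]; simp
    have e2 : v :: l2 = ((v :: a) ++ [p]) ++ q :: b := by rw [he]; simp
    have P1 : PathL G v p ((v :: a) ++ [p]) := hpre (e1 ▸ H2)
    have P2 : PathL G q y (q :: b) := hsuf (e2 ▸ H2)
    have hd1 : ∀ w ∈ (v :: a) ++ [p], w ∉ q :: b := by
      have h0 := H2.nd
      rw [e2] at h0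
      exact fun w hw hw' => (List.nodup_append.1 h0).2.2 w hw w hw' rfl
    have P3 := P1.reverse.append P2 hpq.2 (fun w hw hw' => hd1 w (by
      rw [List.mem_reverse] at hw; exact hw) hw')
    have P4 := H1.append P3 hpq.1 (fun w hw hw' => hdis w hw (by
      rw [e2]
      rw [List.mem_append, List.mem_reverse] at hw'
      rw [List.mem_append]; exact hw'))
    refine ⟨_, P4, ?_⟩
    rw [← hlen, he]
    simp only [List.length_append, List.length_reverse, List.length_cons, List.length_nil]
    omega
  -- vertices outside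
  set P := (l1 ++ u :: v :: l2).toFinset with hPdef
  have hPcard : P.card = i := by rw [hPdef, List.toFinset_card_of_nodup nd, hlen]
  have hout : Disjoint (nb G u \ P) (nb G v \ P) := by
    rw [Finset.disjoint_left]
    intro w hw hw'
    rw [mem_sdiff, mem_nb] at hw hw'
    have hwP : w ∉ l1 ++ u :: v :: l2 := fun h => hw.2 (by rw [hPdef, List.mem_toFinset]; exact h)
    refine hno (hsh ?_)
    have Q1 := H1.append (PathL.single (G := G) w) hw.1 (fun z hz hz' => by
      rw [List.mem_singleton] at hz'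
      subst hz'
      exact hwP (by simp only [List.mem_append, List.mem_cons, List.mem_singleton,
        List.not_mem_nil, or_false] at hz ⊢; tauto))
    have Q2 := Q1.append H2 hw'.1.symm (fun z hz hz' => by
      rw [List.mem_append] at hz
      rcases hz with hz | hz
      · exact hdis z hz hz'
      · rw [List.mem_singleton] at hz
        subst hz
        exact hwP (by simp only [List.mem_append, List.mem_cons] at hz' ⊢; tauto))
    refine ⟨_, Q2, ?_⟩
    rw [← hlen]
    simp only [List.length_append, List.length_cons, List.length_nil]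
    omega
  have hout2 : (nb G u \ P).card + (nb G v \ P).card + i ≤ Fintype.card V := by
    rw [← Finset.card_union_of_disjoint hout, ← hPcard, ← Finset.card_union_of_disjoint]
    · exact Finset.card_le_univ _
    · rw [Finset.disjoint_left]; intro w hw hw'
      rw [mem_union, mem_sdiff, mem_sdiff] at hw
      tauto
  have hin : ∀ z : V, (nb G z ∩ P).card ≤ (l1 ++ u :: v :: l2).countP (fun w => G.Adj z w) := by
    intro z
    rw [List.countP_eq_length_filter]
    refine (Finset.card_le_card ?_).trans (List.toFinset_card_le _)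
    intro w hw
    rw [mem_inter, mem_nb, hPdef, List.mem_toFinset] at hw
    rw [List.mem_toFinset, List.mem_filter]
    exact ⟨hw.2, by simpa using hw.1⟩
  have h5 := hin u
  have h6 := hin v
  have hnadj' : ¬ G.Adj v u := fun h => hnadj h.symm
  rw [List.countP_append, List.countP_cons, List.countP_cons] at h5 h6
  simp only [SimpleGraph.irrefl, hnadj, hnadj', decide_false, if_false, Bool.false_eq_true] at h5 h6
  have h7 := Finset.card_sdiff_add_card_inter (nb G u) P
  have h8 := Finset.card_sdiff_add_card_inter (nb G v) P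
  have h9 : l1.length + l2.length + 2 = i := by
    rw [← hlen]; simp only [List.length_append, List.length_cons]; omega
  omega

theorem deg_sum_le (hn : 100 * (k + 2) ^ 3 ≤ Fintype.card V)
    (he : te G < 2 * ((k + 1) * Fintype.card V)) {i : ℕ} (hi : Fintype.card V ≤ i + (k + 2))
    (hin : i ≤ Fintype.card V) (hm : MaxNo G i x y) {u v : V} (huv : u ≠ v) (h : ¬ G.Adj u v) :
    (nb G u).card + (nb G v).card ≤ Fintype.card V := by
  obtain ⟨l, hl, hlen⟩ := hm.2 u v huv h
  rcases close_chain_or (S := G.Adj) l hl.ch with h1 | ⟨l1, a, b, l2, hdec, h1, h2⟩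
  · exact absurd ⟨l, ⟨hl.nd, h1, hl.hd, hl.lt⟩, hlen⟩ hm.1
  · rw [SimpleGraph.sup_adj, SimpleGraph.edge_adj] at h1
    rcases h1 with h1 | h1
    · exact absurd h1 h2
    · rcases h1.1 with ⟨rfl, rfl⟩ | ⟨rfl, rfl⟩
      · rw [hdec] at hl hlen
        exact close_deg_aux h hm.1 (fun h' => shorten hn he hi h') hl hlen
      · rw [hdec] at hl hlen
        rw [SimpleGraph.edge_comm] at hl
        rw [add_comm]
        exact close_deg_aux (fun h' => h h'.symm) hm.1 (fun h' => shorten hn he hi h') hl hlen

private theorem close_complete [DecidableEq V] {i : ℕ} (h : ∀ u v : V, u ≠ v → G.Adj u v)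
    (hxy : x ≠ y) (h2 : 2 ≤ i) (hin : i ≤ Fintype.card V) : HasXY G i x y := by
  have hc : ((univ.erase x).erase y).card = Fintype.card V - 1 - 1 := by
    rw [Finset.card_erase_of_mem (by simp [hxy.symm]), Finset.card_erase_of_mem (mem_univ _),
      Finset.card_univ]
  obtain ⟨S, hS, hSc⟩ := Finset.exists_subset_card_eq (s := (univ.erase x).erase y) (n := i - 2)
    (by omega)
  have hxS : x ∉ S := fun hx => by simpa using hS hx
  have hyS : y ∉ S := fun hy => by simpa using hS hy
  have hnd : (x :: (S.toList ++ [y])).Nodup := by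
    rw [List.nodup_cons, List.nodup_append]
    refine ⟨?_, S.nodup_toList, by simp, ?_⟩
    · simp only [List.mem_append, Finset.mem_toList, List.mem_singleton, not_or]
      exact ⟨hxS, hxy⟩
    · intro a ha b hb hab
      rw [List.mem_singleton] at hb
      subst hb; subst hab
      exact hyS (Finset.mem_toList.1 ha)
  refine ⟨x :: (S.toList ++ [y]), ⟨hnd, ?_, by simp, ?_⟩, ?_⟩
  · exact (List.Pairwise.isChain hnd).imp fun a b hab => h a b hab
  · rw [List.getLast?_cons, List.getLast?_append]; simp
  · simp only [List.length_cons, List.length_append, Finset.length_toList, List.length_nil]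
    omega

/-- Chvátal type count -/
theorem maxNo_count (hk : 3 ≤ k) (hn : 100 * (k + 2) ^ 3 ≤ Fintype.card V)
    (hδ : ∀ v, k ≤ (nb G v).card) (hxy : x ≠ y)
    (he : te G < 2 * ((k + 1) * Fintype.card V)) {i : ℕ} (hi : Fintype.card V ≤ i + (k + 2))
    (hin : i ≤ Fintype.card V) (hm : MaxNo G i x y) :
    ∃ d u v, u ≠ v ∧ ¬ G.Adj u v ∧ k ≤ d ∧ 2 * d ≤ Fintype.card V ∧ (nb G u).card = d ∧
      (nb G v).card ≤ Fintype.card V - d ∧ (∀ w, w ≠ v → ¬ G.Adj v w → (nb G w).card ≤ d) ∧
      (d - 1) * (2 * Fintype.card V - 3 * d) ≤ te G := by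
  classical
  have hk3 : (k + 2) ^ 3 = (k + 2) * (k + 2) * (k + 2) := by ring
  have hk4 : 4 * (k + 2) ≤ (k + 2) ^ 3 := by
    rw [hk3]
    exact Nat.mul_le_mul_right _ (Nat.mul_le_mul (by omega : 2 ≤ k + 2) (by omega : 2 ≤ k + 2))
  set Q : Finset (V × V) := univ.filter fun p => p.1 ≠ p.2 ∧ ¬ G.Adj p.1 p.2 with hQ
  have hQne : Q.Nonempty := by
    by_contra hcon
    rw [Finset.not_nonempty_iff_eq_empty] at hcon
    refine hm.1 (close_complete (fun u v huv => ?_) hxy (by omega) hin)
    by_contra hadj
    have : (u, v) ∈ Q := by simp [hQ, huv, hadj]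
    rw [hcon] at this
    simp at this
  obtain ⟨⟨u₀, v₀⟩, hmem, hmax⟩ := Finset.exists_max_image Q
    (fun p => (nb G p.1).card + (nb G p.2).card) hQne
  have hmem' : u₀ ≠ v₀ ∧ ¬ G.Adj u₀ v₀ := by simpa [hQ] using hmem
  obtain ⟨u, v, huv, hadj, hle, hmx⟩ : ∃ u v, u ≠ v ∧ ¬ G.Adj u v ∧
      (nb G u).card ≤ (nb G v).card ∧ ∀ a b, a ≠ b → ¬ G.Adj a b →
        (nb G a).card + (nb G b).card ≤ (nb G u).card + (nb G v).card := by
    rcases le_total (nb G u₀).card (nb G v₀).card with h | h
    · exact ⟨u₀, v₀, hmem'.1, hmem'.2, h, fun a b hab hab' => hmax (a, b) (by simp [hQ, hab, hab'])⟩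
    · refine ⟨v₀, u₀, hmem'.1.symm, fun h' => hmem'.2 h'.symm, h, fun a b hab hab' => ?_⟩
      have := hmax (a, b) (by simp [hQ, hab, hab'])
      simp only at this
      omega
  have hsum := deg_sum_le hn he hi hin hm huv hadj
  refine ⟨(nb G u).card, u, v, huv, hadj, hδ u, by omega, rfl, by omega, ?_, ?_⟩
  · intro w hw hvw
    have := hmx v w hw.symm hvw
    omega
  · set d := (nb G u).card with hd
    set n := Fintype.card V with hn'
    have hkd : k ≤ d := hδ u
    have hdbv := nb_add_db (G := G) v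
    have hdbu := nb_add_db (G := G) u
    have hA : ∀ w ∈ nonb G v, n - 1 - d ≤ db G w := by
      intro w hw
      rw [mem_nonb] at hw
      have h1 := hmx v w hw.1.symm hw.2
      have h2 := nb_add_db (G := G) w
      omega
    have hB : ∀ w ∈ insert u (nonb G u), d - 1 ≤ db G w := by
      intro w hw
      rw [mem_insert, mem_nonb] at hw
      have h2 := nb_add_db (G := G) w
      rcases hw with rfl | hw
      · omega
      · have h1 := hmx u w hw.1.symm hw.2
        omega
    have hBc : (insert u (nonb G u)).card = db G u + 1 := by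
      rw [Finset.card_insert_of_notMem (by simp [mem_nonb])]
      rfl
    obtain ⟨A, hAs, hAc⟩ := Finset.exists_subset_card_eq (s := nonb G v) (n := d - 1) (by
      change d - 1 ≤ db G v
      omega)
    have h1 : A.card * (n - 1 - d) ≤ ∑ w ∈ A, db G w := by
      rw [← smul_eq_mul]
      exact Finset.card_nsmul_le_sum _ _ _ fun w hw => hA w (hAs hw)
    have h2 : (insert u (nonb G u) \ A).card * (d - 1) ≤ ∑ w ∈ insert u (nonb G u) \ A, db G w := by
      rw [← smul_eq_mul]
      exact Finset.card_nsmul_le_sum _ _ _ fun w hw => hB w (mem_sdiff.1 hw).1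
    have h3 : db G u + 1 - (d - 1) ≤ (insert u (nonb G u) \ A).card := by
      have := Finset.le_card_sdiff A (insert u (nonb G u))
      rw [hBc, hAc] at this
      exact this
    have h4 : ∑ w ∈ A, db G w + ∑ w ∈ insert u (nonb G u) \ A, db G w ≤ te G := by
      rw [← Finset.sum_union Finset.disjoint_sdiff]
      exact Finset.sum_le_sum_of_subset (Finset.subset_univ _)
    have h5 : (db G u + 1 - (d - 1)) * (d - 1) ≤ (insert u (nonb G u) \ A).card * (d - 1) :=
      Nat.mul_le_mul_right _ h3
    have h6 : (d - 1) * (2 * n - 3 * d) = (d - 1) * (n - 1 - d) + (db G u + 1 - (d - 1)) * (d - 1) := by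
      have e1 : 2 * n - 3 * d = (n - 1 - d) + (db G u + 1 - (d - 1)) := by omega
      rw [e1]; ring
    rw [hAc] at h1
    omega

theorem up_n (hk : 3 ≤ k) (hn : 100 * (k + 2) ^ 3 ≤ Fintype.card V)
    (hδ : ∀ v, k ≤ (nb G v).card) (hxy : x ≠ y)
    (he : te G < (k - 1) * (2 * Fintype.card V - 3 * k)) : HasXY G (Fintype.card V) x y := by
  classical
  by_contra hcon
  obtain ⟨G', hle, hm⟩ := exists_maxNo hcon
  have hk3 : (k + 2) ^ 3 = (k + 2) * (k + 2) * (k + 2) := by ring
  have hk4 : 4 * (k + 2) ≤ (k + 2) ^ 3 := by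
    rw [hk3]
    exact Nat.mul_le_mul_right _ (Nat.mul_le_mul (by omega : 2 ≤ k + 2) (by omega : 2 ≤ k + 2))
  have hnb : ∀ v, nb G v ⊆ nb G' v := fun v w hw => mem_nb.2 (hle (mem_nb.1 hw))
  have hδ' : ∀ v, k ≤ (nb G' v).card := fun v => (hδ v).trans (Finset.card_le_card (hnb v))
  have hte : te G' ≤ te G := by
    unfold te
    refine Finset.sum_le_sum fun v _ => ?_
    have h1 := nb_add_db (G := G) v
    have h2 := nb_add_db (G := G') v
    have h3 := Finset.card_le_card (hnb v)
    omega
  have hsmall : te G' < 2 * ((k + 1) * Fintype.card V) := by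
    refine (hte.trans_lt he).trans_le ?_
    calc (k - 1) * (2 * Fintype.card V - 3 * k) ≤ (k + 1) * (2 * Fintype.card V) :=
          Nat.mul_le_mul (by omega) (by omega)
      _ = 2 * ((k + 1) * Fintype.card V) := by ring
  obtain ⟨d, u, v, -, -, hkd, hdn, -, -, -, hcount⟩ := maxNo_count hk hn hδ' hxy hsmall
    (by omega) le_rfl hm
  have h1 : (d - 1) * (2 * Fintype.card V - 3 * d) < (k - 1) * (2 * Fintype.card V - 3 * k) :=
    (hcount.trans hte).trans_lt he
  obtain ⟨e, rfl⟩ := Nat.exists_eq_add_of_le hkd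
  obtain ⟨m, hm'⟩ := Nat.exists_eq_add_of_le hdn
  rw [hm'] at h1 hn
  have e1 : 2 * (2 * (k + e) + m) - 3 * (k + e) = k + e + 2 * m := by omega
  have e2 : 2 * (2 * (k + e) + m) - 3 * k = k + 4 * e + 2 * m := by omega
  rw [e1, e2] at h1
  obtain ⟨k', rfl⟩ := Nat.exists_eq_add_of_le hk
  have e3 : 3 + k' + e - 1 = 2 + k' + e := by omega
  have e4 : 3 + k' - 1 = 2 + k' := by omega
  rw [e3, e4] at h1
  have h7 : 100 * (3 + k' + 2) ^ 3 ≤ 2 * (3 + k' + e) + m := hn
  have h8 : 10 * (k' + 5) ≤ (3 + k' + 2) ^ 3 := by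
    have : (3 + k' + 2) ^ 3 = (k' + 5) * (k' + 5) * (k' + 5) := by ring
    rw [this]
    exact Nat.mul_le_mul_right _ ((by norm_num : (10:ℕ) ≤ 5 * 5).trans
      (Nat.mul_le_mul (by omega) (by omega)))
  nlinarith [Nat.mul_le_mul_left e (by omega : 3 * (k' + 2) + 0 ≤ 2 * e + m)]

end Pool.MP40
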