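import Pool.Agent.Lib.MP_40d15f_co.Lists

/-!
# MP_40d15f_co : counting non-edges
-/

set_option autoImplicit false
set_option linter.unusedSectionVars false

open Finset

namespace Pool.MP40

variable {V : Type} [Fintype V] {G : SimpleGraph V}

theorem mem_nb {v w : V} : w ∈ nb G v ↔ G.Adj v w := by simp [nb]

theorem mem_nonb {v w : V} : w ∈ nonb G v ↔ w ≠ v ∧ ¬ G.Adj v w := by simp [nonb]

theorem nb_add_db (v : V) : (nb G v).card + db G v + 1 = Fintype.card V := by
  classical
  have h1 : (univ : Finset V) = insert v (nb G v ∪ nonb G v) := by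
    ext w
    simp only [mem_univ, mem_insert, mem_union, mem_nb, mem_nonb, true_iff]
    tauto
  have h2 : v ∉ nb G v ∪ nonb G v := by simp [mem_nb, mem_nonb]
  have h3 : Disjoint (nb G v) (nonb G v) := by
    rw [Finset.disjoint_left]; intro w hw hw'
    exact (mem_nonb.1 hw').2 (mem_nb.1 hw)
  rw [← Finset.card_univ, h1, Finset.card_insert_of_notMem h2, Finset.card_union_of_disjoint h3]
  rfl

theorem nb_card_eq (v : V) : (nb G v).card = Fintype.card V - 1 - db G v := by
  have := nb_add_db (G := G) v; omega

section np

variable (G) (S S' T T' : Finset V)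

theorem np_eq_card : np G S T = by
    classical exact ((S ×ˢ T).filter fun p => p.2 ≠ p.1 ∧ ¬ G.Adj p.1 p.2).card := by
  classical
  unfold np
  rw [Finset.card_filter, Finset.sum_product]
  refine Finset.sum_congr rfl fun s _ => ?_
  rw [Finset.card_filter]

theorem np_symm : np G S T = np G T S := by
  classical
  rw [np_eq_card, np_eq_card]
  refine Finset.card_bij' (fun p _ => (p.2, p.1)) (fun p _ => (p.2, p.1)) ?_ ?_ ?_ ?_
  · rintro ⟨a, b⟩ h
    simp only [mem_filter, mem_product] at h ⊢
    exact ⟨⟨h.1.2, h.1.1⟩, h.2.1.symm, fun h' => h.2.2 h'.symm⟩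
  · rintro ⟨a, b⟩ h
    simp only [mem_filter, mem_product] at h ⊢
    exact ⟨⟨h.1.2, h.1.1⟩, h.2.1.symm, fun h' => h.2.2 h'.symm⟩
  · intro p _; rfl
  · intro p _; rfl

variable {S S' T T'}

theorem np_union_left [DecidableEq V] (h : Disjoint S S') :
    np G (S ∪ S') T = np G S T + np G S' T := by
  unfold np
  exact Finset.sum_union h

theorem np_union_right [DecidableEq V] (h : Disjoint T T') :
    np G S (T ∪ T') = np G S T + np G S T' := by
  rw [np_symm, np_union_left G h, np_symm G T S, np_symm G T' S]

theorem np_mono_left (h : S ⊆ S') : np G S T ≤ np G S' T := by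
  unfold np
  exact Finset.sum_le_sum_of_subset h

theorem np_mono_right (h : T ⊆ T') : np G S T ≤ np G S T' := by
  rw [np_symm G S T, np_symm G S T']; exact np_mono_left G h

theorem np_mono (h : S ⊆ S') (h' : T ⊆ T') : np G S T ≤ np G S' T' :=
  (np_mono_left G h).trans (np_mono_right G h')

theorem np_le_mul : np G S T ≤ S.card * T.card := by
  classical
  unfold np
  refine (Finset.sum_le_card_nsmul S _ T.card fun s _ => Finset.card_filter_le _ _).trans ?_
  simp

theorem np_add_ep (h : Disjoint S T) : np G S T + ep G S T = S.card * T.card := by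
  classical
  unfold np ep
  rw [← Finset.sum_add_distrib]
  have : ∀ s ∈ S, (T.filter fun t => t ≠ s ∧ ¬ G.Adj s t).card +
      (T.filter fun t => G.Adj s t).card = T.card := by
    intro s hs
    rw [← Finset.card_union_of_disjoint]
    · congr 1
      ext t
      simp only [mem_union, mem_filter]
      constructor
      · rintro (h1 | h1) <;> exact h1.1
      · intro ht
        have hne : t ≠ s := fun he => (Finset.disjoint_left.1 h hs) (he ▸ ht)
        tauto
    · rw [Finset.disjoint_left]; intro t ht ht'
      exact (mem_filter.1 ht).2.2 (mem_filter.1 ht').2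
  rw [Finset.sum_congr rfl this]; simp

theorem np_add_ep_self : np G S S + ep G S S = S.card * (S.card - 1) := by
  classical
  unfold np ep
  rw [← Finset.sum_add_distrib]
  have : ∀ s ∈ S, (S.filter fun t => t ≠ s ∧ ¬ G.Adj s t).card +
      (S.filter fun t => G.Adj s t).card = S.card - 1 := by
    intro s hs
    rw [← Finset.card_union_of_disjoint, ← Finset.card_erase_of_mem hs]
    · congr 1
      ext t
      simp only [mem_union, mem_filter, mem_erase]
      constructor
      · rintro (h1 | h1)
        · exact ⟨h1.2.1, h1.1⟩
        · exact ⟨fun he => G.loopless.irrefl s (by simpa [he] using h1.2), h1.1⟩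
      · rintro ⟨h1, h2⟩
        tauto
    · rw [Finset.disjoint_left]; intro t ht ht'
      exact (mem_filter.1 ht).2.2 (mem_filter.1 ht').2
  rw [Finset.sum_congr rfl this]; simp

theorem np_self_le : np G S S ≤ S.card * (S.card - 1) := by
  have := np_add_ep_self G (S := S); omega

theorem sum_db (S : Finset V) : ∑ v ∈ S, db G v = np G S univ := by
  classical
  unfold np db nonb
  rfl

theorem te_eq : te G = np G univ univ := by
  unfold te; exact sum_db G univ

theorem np_univ [DecidableEq V] (S : Finset V) : np G S univ = np G S S + np G S Sᶜ := by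
  rw [← np_union_right G (disjoint_compl_right), Finset.union_compl]

theorem te_split [DecidableEq V] (S : Finset V) :
    te G = np G S S + 2 * np G S Sᶜ + np G Sᶜ Sᶜ := by
  rw [te_eq, ← Finset.union_compl S, np_union_left G disjoint_compl_right,
    np_union_right G disjoint_compl_right, np_union_right G disjoint_compl_right,
    np_symm G Sᶜ S]
  ring

theorem te_add [DecidableEq V] (S : Finset V) :
    te G + np G S S = 2 * ∑ v ∈ S, db G v + np G Sᶜ Sᶜ := by
  rw [sum_db, np_univ, te_split G S]; ring

theorem te_ge (S : Finset V) : 2 * ∑ v ∈ S, db G v ≤ te G + S.card * (S.card - 1) := by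
  classical
  have h1 := te_add G S
  have h2 := np_self_le G (S := S)
  omega

theorem te_ge' [DecidableEq V] (S : Finset V) :
    2 * ∑ v ∈ S, db G v + np G Sᶜ Sᶜ ≤ te G + S.card * (S.card - 1) := by
  have h1 := te_add G S
  have h2 := np_self_le G (S := S)
  omega

end np

/-! ### relation with the number of edges -/

open Classical in
theorem nb_eq_neighborFinset (v : V) : (nb G v).card = G.degree v := by
  rw [SimpleGraph.degree]
  congr 1
  ext w; simp [mem_nb]

open Classical in
theorem te_add_edges : te G + 2 * G.edgeFinset.card = Fintype.card V * (Fintype.card V - 1) := by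
  rw [← SimpleGraph.sum_degrees_eq_twice_card_edges]
  unfold te
  rw [← Finset.sum_add_distrib]
  have : ∀ v ∈ (univ : Finset V), db G v + G.degree v = Fintype.card V - 1 := by
    intro v _
    have h1 := nb_add_db (G := G) v
    rw [← nb_eq_neighborFinset]
    omega
  rw [Finset.sum_congr rfl this]; simp

end Pool.MP40
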