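import Mathlib

/-!
# MP_40d15f_co : definitions
-/

set_option autoImplicit false

open Finset

namespace Pool.MP40

/-- Property `P_i`: every two distinct vertices are the endpoints of a path with exactly `i`
vertices. -/
def HasP {V : Type} (G : SimpleGraph V) (i : ℕ) : Prop :=
  ∀ x y : V, x ≠ y → ∃ p : G.Walk x y, p.IsPath ∧ p.support.length = i

open Classical in
/-- the set of all `m` such that every graph of order `n` with minimum degree at least `k` and at
least `m` edges satisfies `P_i`; its least element is `f_{nk}(i)` -/
def Adm (n k i : ℕ) : Set ℕ :=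
  {m | ∀ G : SimpleGraph (Fin n), (∀ v, k ≤ G.degree v) → m ≤ G.edgeFinset.card → HasP G i}

/-- `n_j = (n-j)(n-j-1)/2` -/
def nj (n j : ℕ) : ℕ := (n - j) * (n - j - 1) / 2

/-- the value of `f_{nk}(i)` for `k ≥ 3` and `n` large -/
def table (n k i : ℕ) : ℕ :=
  if i = 2 then nj n 0
  else if i = 3 then nj n 1 + 2
  else if i = 4 then nj n 2 + (3 * k - 1) - k * (k - 1) / 2
  else if i = 5 then nj n k + 2 * k + (k - 1) / 2
  else if i = n then nj n (k - 1) + k * (k - 1) + 1
  else if n - k + 2 ≤ i then nj n (k - 1) + (k - 1) * (k + 2) / 2 + 1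
  else if i = n - k + 1 then nj n k + k * (k + 3) / 2 + 1
  else if k + 2 ≤ i then nj n k + k * (k + 1) / 2 + 1
  else if i = 6 then nj n (k + 1) + k * (k + 3) / 2
  else nj n (k + 1) + k * (k + 1) / 2 + 2

section internal

/-- list form of an `x`–`y` path -/
structure PathL {V : Type} (G : SimpleGraph V) (x y : V) (l : List V) : Prop where
  nd : l.Nodup
  ch : l.IsChain G.Adj
  hd : l.head? = some x
  lt : l.getLast? = some y

/-- there is an `x`–`y` path with `i` vertices -/
def HasXY {V : Type} (G : SimpleGraph V) (i : ℕ) (x y : V) : Prop :=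
  ∃ l, PathL G x y l ∧ l.length = i

variable {V : Type} [Fintype V]

open Classical in
/-- neighbours -/
noncomputable def nb (G : SimpleGraph V) (v : V) : Finset V := univ.filter fun w => G.Adj v w

open Classical in
/-- non-neighbours -/
noncomputable def nonb (G : SimpleGraph V) (v : V) : Finset V :=
  univ.filter fun w => w ≠ v ∧ ¬ G.Adj v w

/-- number of non-neighbours -/
noncomputable def db (G : SimpleGraph V) (v : V) : ℕ := (nonb G v).card

/-- twice the number of non-edges -/
noncomputable def te (G : SimpleGraph V) : ℕ := ∑ v, db G v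

open Classical in
/-- number of ordered non-adjacent pairs of distinct vertices in `S × T` -/
noncomputable def np (G : SimpleGraph V) (S T : Finset V) : ℕ :=
  ∑ s ∈ S, (T.filter fun t => t ≠ s ∧ ¬ G.Adj s t).card

open Classical in
/-- number of ordered adjacent pairs in `S × T` -/
noncomputable def ep (G : SimpleGraph V) (S T : Finset V) : ℕ :=
  ∑ s ∈ S, (T.filter fun t => G.Adj s t).card

/-- threshold degree -/
def Dn (V : Type) [Fintype V] (k : ℕ) : ℕ := Fintype.card V / (2 * (k + 2))

open Classical in
/-- low vertices -/
noncomputable def Lo (G : SimpleGraph V) (k : ℕ) : Finset V :=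
  univ.filter fun v => (nb G v).card ≤ Dn V k

open Classical in
/-- the other vertices -/
noncomputable def Wi (G : SimpleGraph V) (k : ℕ) : Finset V :=
  univ.filter fun v => Dn V k < (nb G v).card

open Classical in
/-- vertices with few non-neighbours -/
noncomputable def Bi (G : SimpleGraph V) : Finset V :=
  univ.filter fun v => 8 * db G v ≤ Fintype.card V

end internal

end Pool.MP40
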