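import Pool.Agent.Lib.MP_40d15f_co.Grow

/-!
# MP_40d15f_co : exits from the low set
-/

set_option autoImplicit false
set_option linter.unusedSectionVars false

open Finset

namespace Pool.MP40

variable {V : Type} [Fintype V] {G : SimpleGraph V} {k : ℕ} {x y : V}

theorem pathL2 {a b : V} (h : G.Adj a b) : PathL G a b [a, b] :=
  (PathL.single b).cons h (by simpa using h.ne)

theorem pathL3 {a b c : V} (h : G.Adj a b) (h' : G.Adj b c) (hac : a ≠ c) :
    PathL G a c [a, b, c] :=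
  (pathL2 h').cons h (by simp [h.ne, hac])

theorem pathL4 {a b c d : V} (h : G.Adj a b) (h' : G.Adj b c) (h'' : G.Adj c d) (hac : a ≠ c)
    (had : a ≠ d) (hbd : b ≠ d) : PathL G a d [a, b, c, d] :=
  (pathL3 h' h'' hbd).cons h (by simp [h.ne, hac, had])

theorem ExitP.symm {A C : List V} (h : ExitP G k x y A C) : ExitP G k y x C A := by
  obtain ⟨a, ha, c, hc, hA, hC, hd⟩ := h
  exact ⟨c, hc, a, ha, hC, hA, fun v hv hv' => hd v hv' hv⟩

theorem not_Lo {v : V} : v ∉ Lo G k ↔ v ∈ Wi G k := by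
  simp [mem_Lo, mem_Wi]

theorem Lo_ne_Wi {u v : V} (hu : u ∈ Lo G k) (hv : v ∈ Wi G k) : u ≠ v := by
  rintro rfl
  rw [mem_Lo] at hu; rw [mem_Wi] at hv; omega

theorem exit2 (hx : x ∈ Wi G k) (hy : y ∈ Wi G k) (hxy : x ≠ y) : ExitP G k x y [x] [y] :=
  ⟨x, hx, y, hy, PathL.single x, PathL.single y, by simpa using hxy⟩

theorem exit3 {a : V} (hxy : x ≠ y) (hy : y ∈ Wi G k) (ha : a ∈ Wi G k) (hay : a ≠ y)
    (h : G.Adj x a) : ExitP G k x y [x, a] [y] :=
  ⟨a, ha, y, hy, pathL2 h, PathL.single y, by simp [hxy, hay]⟩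

theorem exit4 {a c : V} (hxy : x ≠ y) (hx : x ∈ Lo G k) (hy : y ∈ Lo G k) (ha : a ∈ Wi G k)
    (hc : c ∈ Wi G k) (hac : a ≠ c) (h : G.Adj x a) (h' : G.Adj y c) :
    ExitP G k x y [x, a] [y, c] :=
  ⟨a, ha, c, hc, pathL2 h, pathL2 h', by
    simp [hxy, hac, Lo_ne_Wi hx hc, (Lo_ne_Wi hy ha).symm]⟩

theorem exit4' {l a : V} (hxy : x ≠ y) (hx : x ∈ Lo G k) (hy : y ∈ Wi G k) (hl : l ∈ Lo G k)
    (ha : a ∈ Wi G k) (hay : a ≠ y) (h : G.Adj x l) (h' : G.Adj l a) :
    ExitP G k x y [x, l, a] [y] :=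
  ⟨a, ha, y, hy, pathL3 h h' (Lo_ne_Wi hx ha), PathL.single y, by
    simp [hxy, hay, Lo_ne_Wi hl hy]⟩

theorem exit5 {l a c : V} (hxy : x ≠ y) (hx : x ∈ Lo G k) (hy : y ∈ Lo G k) (hl : l ∈ Lo G k)
    (hlx : l ≠ x) (ha : a ∈ Wi G k) (hc : c ∈ Wi G k) (hac : a ≠ c) (h : G.Adj x a)
    (h1 : G.Adj y l) (h2 : G.Adj l c) :
    ExitP G k x y [x, a] [y, l, c] :=
  ⟨a, ha, c, hc, pathL2 h, pathL3 h1 h2 (Lo_ne_Wi hy hc), by
    simp [hxy, hac, hlx.symm, Lo_ne_Wi hx hc, (Lo_ne_Wi hy ha).symm, (Lo_ne_Wi hl ha).symm]⟩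

/-- if all neighbours of the `k` low vertices are low or equal to `z`, then `Lo ∪ {z}` is a
clique -/
theorem complete_of [DecidableEq V] (hδ : ∀ v, k ≤ (nb G v).card) (hL : (Lo G k).card = k)
    {z : V} (hz : z ∈ Wi G k) {l : V} (hl : l ∈ Lo G k)
    (h : ∀ w, G.Adj l w → w ∈ Lo G k ∨ w = z) :
    nb G l = insert z ((Lo G k).erase l) := by
  have h1 : nb G l ⊆ insert z ((Lo G k).erase l) := by
    intro w hw
    rw [mem_nb] at hw
    rw [mem_insert, mem_erase]
    rcases h w hw with h2 | h2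
    · exact Or.inr ⟨hw.ne', h2⟩
    · exact Or.inl h2
  refine Finset.eq_of_subset_of_card_le h1 ?_
  rw [Finset.card_insert_of_notMem, Finset.card_erase_of_mem hl]
  · have := hδ l
    have : 0 < (Lo G k).card := Finset.card_pos.2 ⟨l, hl⟩
    omega
  · rw [mem_erase]; rintro ⟨_, h2⟩
    exact Lo_ne_Wi h2 hz rfl

theorem complete_adj [DecidableEq V] (hδ : ∀ v, k ≤ (nb G v).card) (hL : (Lo G k).card = k)
    {z : V} (hz : z ∈ Wi G k) (h : ∀ l ∈ Lo G k, ∀ w, G.Adj l w → w ∈ Lo G k ∨ w = z)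
    {u v : V} (hu : u ∈ insert z (Lo G k)) (hv : v ∈ insert z (Lo G k)) (huv : u ≠ v) :
    G.Adj u v := by
  have key : ∀ l ∈ Lo G k, ∀ w ∈ insert z (Lo G k), w ≠ l → G.Adj l w := by
    intro l hl w hw hwl
    rw [← mem_nb, complete_of hδ hL hz hl (h l hl), mem_insert, mem_erase]
    rw [mem_insert] at hw
    tauto
  rw [mem_insert] at hu
  rcases hu with rfl | hu
  · rw [mem_insert] at hv
    rcases hv with rfl | hv
    · exact absurd rfl huv
    · exact (key v hv u (mem_insert_self _ _) huv).symm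
  · exact key u hu v hv huv.symm

/-- number of non-edges if `Lo ∪ {z}` is an end clique -/
theorem complete_te [DecidableEq V] (hδ : ∀ v, k ≤ (nb G v).card) (hL : (Lo G k).card = k)
    {z : V} (hz : z ∈ Wi G k) (h : ∀ l ∈ Lo G k, ∀ w, G.Adj l w → w ∈ Lo G k ∨ w = z) :
    2 * (k * (Fintype.card V - k - 1)) + np G (Wi G k) (Wi G k) = te G := by
  have h1 := te_add G (Lo G k)
  have h2 : np G (Lo G k) (Lo G k) = 0 := by
    rw [np_eq_card]
    refine Finset.card_eq_zero.2 ?_
    ext ⟨s, t⟩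
    simp only [mem_filter, mem_product, notMem_empty, iff_false, not_and, not_not]
    intro hst h3
    exact complete_adj hδ hL hz h (mem_insert_of_mem hst.1) (mem_insert_of_mem hst.2) h3.symm
  have h3 : ∑ v ∈ Lo G k, db G v = k * (Fintype.card V - k - 1) := by
    rw [Finset.sum_const_nat (m := Fintype.card V - k - 1), hL]
    intro l hl
    have h4 := nb_add_db (G := G) l
    have h5 : (nb G l).card = k := by
      rw [complete_of hδ hL hz hl (h l hl), Finset.card_insert_of_notMem,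
        Finset.card_erase_of_mem hl]
      · have : 0 < (Lo G k).card := Finset.card_pos.2 ⟨l, hl⟩
        omega
      · rw [mem_erase]; rintro ⟨_, h2⟩
        exact Lo_ne_Wi h2 hz rfl
    omega
  rw [h2, h3, ← Wi_eq_compl] at h1
  linarith

/-- outcome of the analysis when there are at most `k` low vertices -/
def Out (G : SimpleGraph V) (k : ℕ) (x y : V) : Prop :=
  (∃ A C, ExitP G k x y A C ∧ A.length + C.length ≤ 3) ∨
  (∃ A C, ExitP G k x y A C ∧ A.length + C.length = 4 ∧
    ((x ∈ Lo G k ∧ y ∈ Lo G k) ∨ (Lo G k).card = k)) ∨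
  ((Lo G k).card = k ∧ ∃ z ∈ Wi G k, (∀ l ∈ Lo G k, ∀ w, G.Adj l w → w ∈ Lo G k ∨ w = z) ∧
    (x ∈ Lo G k ∨ x = z) ∧ (y ∈ Lo G k ∨ y = z)) ∨
  ((Lo G k).card = k ∧ x ∈ Lo G k ∧ y ∈ Lo G k ∧
    ∃ a ∈ Wi G k, (∀ v, G.Adj x v ↔ v = a ∨ (v ∈ Lo G k ∧ v ≠ x)) ∧
      (∀ v, G.Adj y v ↔ v = a ∨ (v ∈ Lo G k ∧ v ≠ y)) ∧
      ∃ A C, ExitP G k x y A C ∧ A.length + C.length = 5)

theorem Out.symm (h : Out G k x y) : Out G k y x := by
  rcases h with ⟨A, C, h, hl⟩ | ⟨A, C, h, hl, h'⟩ | ⟨h1, z, hz, h2, h3, h4⟩ |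
    ⟨h1, h2, h3, a, ha, h4, h5, A, C, h, hl⟩
  · exact Or.inl ⟨C, A, h.symm, by omega⟩
  · exact Or.inr (Or.inl ⟨C, A, h.symm, by omega, by tauto⟩)
  · exact Or.inr (Or.inr (Or.inl ⟨h1, z, hz, h2, h4, h3⟩))
  · exact Or.inr (Or.inr (Or.inr ⟨h1, h3, h2, a, ha, h5, h4, C, A, h.symm, by omega⟩))

theorem out_LW [DecidableEq V] (hδ : ∀ v, k ≤ (nb G v).card) (hL : (Lo G k).card ≤ k)
    (hxy : x ≠ y) (hx : x ∈ Lo G k) (hy : y ∈ Wi G k) : Out G k x y := by
  by_cases h1 : ∃ a ∈ Wi G k, a ≠ y ∧ G.Adj x a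
  · obtain ⟨a, ha, hay, hxa⟩ := h1
    exact Or.inl ⟨_, _, exit3 hxy hy ha hay hxa, by simp⟩
  · push Not at h1
    have h2 : ∀ w, G.Adj x w → w ∈ Lo G k ∨ w = y := by
      intro w hw
      by_cases hwL : w ∈ Lo G k
      · exact Or.inl hwL
      · right
        by_contra hne
        exact h1 w (not_Lo.1 hwL) hne hw
    have h3 : nb G x ⊆ insert y ((Lo G k).erase x) := by
      intro w hw
      rw [mem_nb] at hw
      rw [mem_insert, mem_erase]
      rcases h2 w hw with h2 | h2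
      · exact Or.inr ⟨hw.ne', h2⟩
      · exact Or.inl h2
    have h4 : (Lo G k).card = k := by
      have h5 := Finset.card_le_card h3
      have h6 := Finset.card_insert_le y ((Lo G k).erase x)
      rw [Finset.card_erase_of_mem hx] at h6
      have h7 := hδ x
      have : 0 < (Lo G k).card := Finset.card_pos.2 ⟨x, hx⟩
      omega
    have h5 := complete_of hδ h4 hy hx h2
    by_cases h6 : ∃ l ∈ Lo G k, ∃ a ∈ Wi G k, a ≠ y ∧ G.Adj l a
    · obtain ⟨l, hl, a, ha, hay, hla⟩ := h6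
      have hlx : l ≠ x := by
        rintro rfl
        exact h1 a ha hay hla
      have hxl : G.Adj x l := by
        rw [← mem_nb, h5, mem_insert, mem_erase]; exact Or.inr ⟨hlx, hl⟩
      exact Or.inr (Or.inl ⟨_, _, exit4' hxy hx hy hl ha hay hxl hla, by simp, Or.inr h4⟩)
    · push Not at h6
      refine Or.inr (Or.inr (Or.inl ⟨h4, y, hy, ?_, Or.inl hx, Or.inr rfl⟩))
      intro l hl w hw
      by_cases hwL : w ∈ Lo G k
      · exact Or.inl hwL
      · right
        by_contra hne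
        exact h6 l hl w (not_Lo.1 hwL) hne hw

theorem out_LL [DecidableEq V] (hk : 1 ≤ k) (hδ : ∀ v, k ≤ (nb G v).card)
    (hL : (Lo G k).card ≤ k)
    (hxy : x ≠ y) (hx : x ∈ Lo G k) (hy : y ∈ Lo G k) : Out G k x y := by
  have hex : ∀ v ∈ Lo G k, ∃ a ∈ Wi G k, G.Adj v a := by
    intro v hv
    by_contra hcon
    push Not at hcon
    have h3 : nb G v ⊆ (Lo G k).erase v := by
      intro w hw
      rw [mem_nb] at hw
      rw [mem_erase]
      refine ⟨hw.ne', ?_⟩
      by_contra hwL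
      exact hcon w (not_Lo.1 hwL) hw
    have h5 := Finset.card_le_card h3
    rw [Finset.card_erase_of_mem hv] at h5
    have h7 := hδ v
    omega
  obtain ⟨a, ha, hxa⟩ := hex x hx
  obtain ⟨c, hc, hyc⟩ := hex y hy
  by_cases h1 : ∃ a ∈ Wi G k, ∃ c ∈ Wi G k, a ≠ c ∧ G.Adj x a ∧ G.Adj y c
  · obtain ⟨a, ha, c, hc, hac, hxa, hyc⟩ := h1
    exact Or.inr (Or.inl ⟨_, _, exit4 hxy hx hy ha hc hac hxa hyc, by simp, Or.inl ⟨hx, hy⟩⟩)
  · push Not at h1
    have hac : a = c := by
      by_contra hne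
      exact h1 a ha c hc hne hxa hyc
    subst hac
    have hxW : ∀ w, G.Adj x w → w ∈ Lo G k ∨ w = a := by
      intro w hw
      by_cases hwL : w ∈ Lo G k
      · exact Or.inl hwL
      · right
        by_contra hne
        exact h1 w (not_Lo.1 hwL) a ha hne hw hyc
    have hyW : ∀ w, G.Adj y w → w ∈ Lo G k ∨ w = a := by
      intro w hw
      by_cases hwL : w ∈ Lo G k
      · exact Or.inl hwL
      · right
        by_contra hne
        exact h1 a ha w (not_Lo.1 hwL) (Ne.symm hne) hxa hw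
    have h3 : nb G x ⊆ insert a ((Lo G k).erase x) := by
      intro w hw
      rw [mem_nb] at hw
      rw [mem_insert, mem_erase]
      rcases hxW w hw with h2 | h2
      · exact Or.inr ⟨hw.ne', h2⟩
      · exact Or.inl h2
    have h4 : (Lo G k).card = k := by
      have h5 := Finset.card_le_card h3
      have h6 := Finset.card_insert_le a ((Lo G k).erase x)
      rw [Finset.card_erase_of_mem hx] at h6
      have h7 := hδ x
      have : 0 < (Lo G k).card := Finset.card_pos.2 ⟨x, hx⟩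
      omega
    have h5 := complete_of hδ h4 ha hx hxW
    have h6 := complete_of hδ h4 ha hy hyW
    by_cases h7 : ∃ l ∈ Lo G k, ∃ c ∈ Wi G k, c ≠ a ∧ G.Adj l c
    · obtain ⟨l, hl, c, hc, hca, hlc⟩ := h7
      have hlx : l ≠ x := by
        rintro rfl
        rcases hxW c hlc with h | h
        · exact Lo_ne_Wi h hc rfl
        · exact hca h
      have hly : l ≠ y := by
        rintro rfl
        rcases hyW c hlc with h | h
        · exact Lo_ne_Wi h hc rfl
        · exact hca h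
      have hyl : G.Adj y l := by
        rw [← mem_nb, h6, mem_insert, mem_erase]; exact Or.inr ⟨hly, hl⟩
      refine Or.inr (Or.inr (Or.inr ⟨h4, hx, hy, a, ha, ?_, ?_, _, _,
        exit5 hxy hx hy hl hlx ha hc (Ne.symm hca) hxa hyl hlc, by simp⟩))
      · intro v; rw [← mem_nb, h5, mem_insert, mem_erase]; tauto
      · intro v; rw [← mem_nb, h6, mem_insert, mem_erase]; tauto
    · push Not at h7
      refine Or.inr (Or.inr (Or.inl ⟨h4, a, ha, ?_, Or.inl hx, Or.inl hy⟩))
      intro l hl w hw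
      by_cases hwL : w ∈ Lo G k
      · exact Or.inl hwL
      · right
        by_contra hne
        exact h7 l hl w (not_Lo.1 hwL) hne hw

theorem out_of_le (hk : 1 ≤ k) (hδ : ∀ v, k ≤ (nb G v).card) (hL : (Lo G k).card ≤ k)
    (hxy : x ≠ y) : Out G k x y := by
  classical
  by_cases hx : x ∈ Lo G k
  · by_cases hy : y ∈ Lo G k
    · exact out_LL hk hδ hL hxy hx hy
    · exact out_LW hδ hL hxy hx (not_Lo.1 hy)
  · by_cases hy : y ∈ Lo G k
    · exact (out_LW hδ hL hxy.symm hy (not_Lo.1 hx)).symm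
    · exact Or.inl ⟨_, _, exit2 (not_Lo.1 hx) (not_Lo.1 hy) hxy, by simp⟩

/-- bound for the non-edges inside `Wi` -/
theorem np_Wi_le {t : ℕ} (hL : (Lo G k).card = t) :
    np G (Wi G k) (Wi G k) + 2 * (t * (Fintype.card V - 1 - Dn V k)) ≤ te G + t * (t - 1) := by
  classical
  have h1 := te_ge' G (Lo G k)
  rw [← Wi_eq_compl, hL] at h1
  have h2 : t * (Fintype.card V - 1 - Dn V k) ≤ ∑ v ∈ Lo G k, db G v := by
    rw [← hL, ← smul_eq_mul]
    refine Finset.card_nsmul_le_sum _ _ _ fun v hv => ?_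
    have h3 := nb_add_db (G := G) v
    have h4 := mem_Lo.1 hv
    omega
  omega

/-! ### R2 and R3 -/

theorem np_Wi_small (hn : 100 * (k + 2) ^ 3 ≤ Fintype.card V) {t c : ℕ} (ht : t ≤ k + 1)
    (hL : (Lo G k).card = t) (hc : c ≤ 12)
    (he : te G < 2 * (t * (Fintype.card V - k - 1)) + 4 * (k + 2) * (k + 2)) :
    np G (Wi G k) (Wi G k) + c < 2 * (Wi G k).card := by
  have h1 := np_Wi_le (G := G) (k := k) hL
  have h2 := card_Wi (G := G) (k := k)
  obtain ⟨d1, d2, d3⟩ := Dn_facts (V := V) (k := k) hn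
  obtain ⟨f1, f2, f3, f4⟩ := num_facts (V := V) hn
  generalize Fintype.card V = n at *
  generalize Dn V k = D at *
  have hDn : 4 * D ≤ n := le_trans (Nat.mul_le_mul_right _ (by omega)) d1
  have h3 : t * (n - 1 - D) + t * D = t * (n - 1) := by
    rw [← mul_add]; congr 1; omega
  have h4 : t * (n - k - 1) + t * k = t * (n - 1) := by
    rw [← mul_add]; congr 1; omega
  have h5 : t * (t - 1) ≤ (k + 2) * (k + 2) := Nat.mul_le_mul (by omega) (by omega)
  have h6 : 2 * (t * D) ≤ 2 * ((k + 1) * D) := by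
    have := Nat.mul_le_mul_right D ht; omega
  have h7 : 2 * ((k + 1) * D) + 2 * D ≤ n := by nlinarith
  have h8 : 50 * ((k + 2) * (k + 2)) ≤ D := by rw [← sq]; exact d3
  have h9 : 4 * (k + 2) * (k + 2) = 4 * ((k + 2) * (k + 2)) := by ring
  have h10 : k + 2 ≤ (k + 2) * (k + 2) := Nat.le_mul_of_pos_left _ (by omega)
  rw [hL] at h2
  omega

theorem up_R2 (hk : 3 ≤ k) (hn : 100 * (k + 2) ^ 3 ≤ Fintype.card V)
    (hδ : ∀ v, k ≤ (nb G v).card) (hxy : x ≠ y) {i : ℕ} (h6 : 6 ≤ i) (hi : k + 2 ≤ i)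
    (hin : i + k ≤ Fintype.card V)
    (he : te G < 2 * (k * (Fintype.card V - k - 1))) : HasXY G i x y := by
  classical
  have he1 : te G < 2 * (k * Fintype.card V) := by
    have : k * (Fintype.card V - k - 1) ≤ k * Fintype.card V := Nat.mul_le_mul_left _ (by omega)
    omega
  have he2 : te G < 2 * ((k + 1) * Fintype.card V) := by nlinarith
  have hL := card_Lo_le (G := G) hn (show k ≤ k + 1 by omega) he1
  have hW := card_Wi (G := G) (k := k)
  have hsub : ∀ A C : List V, (Wi G k).card ≤ (Wi G k ∪ (A ++ C).toFinset).card := fun A C =>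
    Finset.card_le_card subset_union_left
  rcases out_of_le (by omega) hδ hL hxy with ⟨A, C, h, hl⟩ | ⟨A, C, h, hl, -⟩ |
    ⟨h1, z, hz, h2, -, -⟩ | ⟨h1, h2, h3, a, ha, h4, h5, A, C, h, hl⟩
  · exact exit_hasXY hn he2 h (by omega) (by omega) (by have := hsub A C; omega)
  · exact exit_hasXY hn he2 h (by omega) (by omega) (by have := hsub A C; omega)
  · have := complete_te hδ h1 hz h2
    omega
  · by_cases h7 : i = 6
    · have h8 := exit_hasXY' h (by
        have := np_Wi_small (c := 10) hn (show k ≤ k + 1 by omega) h1 (by omega) (by omega)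
        omega)
      rw [hl] at h8
      rw [h7]; exact h8
    · exact exit_hasXY hn he2 h (by omega) (by omega) (by have := hsub A C; omega)

theorem up_R3 (hk : 3 ≤ k) (hn : 100 * (k + 2) ^ 3 ≤ Fintype.card V)
    (hδ : ∀ v, k ≤ (nb G v).card) (hxy : x ≠ y)
    (he : te G < 2 * (k * (Fintype.card V - k - 2))) :
    HasXY G (Fintype.card V - k + 1) x y := by
  classical
  obtain ⟨d1, d2, d3⟩ := Dn_facts (V := V) (k := k) hn
  obtain ⟨f1, f2, f3, f4⟩ := num_facts (V := V) hn
  have he0 : te G < 2 * (k * (Fintype.card V - k - 1)) := by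
    have : k * (Fintype.card V - k - 2) ≤ k * (Fintype.card V - k - 1) := Nat.mul_le_mul_left _ (by omega)
    omega
  have he1 : te G < 2 * (k * Fintype.card V) := by
    have : k * (Fintype.card V - k - 1) ≤ k * Fintype.card V := Nat.mul_le_mul_left _ (by omega)
    omega
  have he2 : te G < 2 * ((k + 1) * Fintype.card V) := by nlinarith
  have hL := card_Lo_le (G := G) hn (show k ≤ k + 1 by omega) he1
  have hW := card_Wi (G := G) (k := k)
  by_cases hLk : (Lo G k).card = k
  swap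
  · have hsub : ∀ A C : List V, (Wi G k).card ≤ (Wi G k ∪ (A ++ C).toFinset).card := fun A C =>
      Finset.card_le_card subset_union_left
    rcases out_of_le (by omega) hδ hL hxy with ⟨A, C, h, hl⟩ | ⟨A, C, h, hl, -⟩ |
      ⟨h1, z, hz, h2, -, -⟩ | ⟨h1, h2, h3, a, ha, h4, h5, A, C, h, hl⟩
    · exact exit_hasXY hn he2 h (by omega) (by omega) (by have := hsub A C; omega)
    · exact exit_hasXY hn he2 h (by omega) (by omega) (by have := hsub A C; omega)
    · exact absurd h1 hLk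
    · exact absurd h1 hLk
  -- now there are exactly `k` low vertices
  have hsub : ∀ A C : List V, (∃ l ∈ Lo G k, l ∈ A ++ C) →
      (Wi G k).card + 1 ≤ (Wi G k ∪ (A ++ C).toFinset).card := by
    rintro A C ⟨l, hl, hlA⟩
    rw [← Finset.card_insert_of_notMem (show l ∉ Wi G k from fun h => Lo_ne_Wi hl h rfl)]
    refine Finset.card_le_card fun v hv => ?_
    rw [mem_insert] at hv
    rw [mem_union, List.mem_toFinset]
    rcases hv with rfl | hv
    · exact Or.inr hlA
    · exact Or.inl hv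
  by_cases hxyL : x ∈ Lo G k ∨ y ∈ Lo G k
  · have hsub' : ∀ A C : List V, ExitP G k x y A C →
        (Wi G k).card + 1 ≤ (Wi G k ∪ (A ++ C).toFinset).card := by
      rintro A C ⟨a, ha, c, hc, hA, hC, -⟩
      refine hsub A C ?_
      rcases hxyL with h | h
      · exact ⟨x, h, List.mem_append_left _ (List.mem_of_head? hA.hd)⟩
      · exact ⟨y, h, List.mem_append_right _ (List.mem_of_head? hC.hd)⟩
    rcases out_of_le (by omega) hδ hL hxy with ⟨A, C, h, hl⟩ | ⟨A, C, h, hl, -⟩ |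
      ⟨h1, z, hz, h2, -, -⟩ | ⟨h1, h2, h3, a, ha, h4, h5, A, C, h, hl⟩
    · exact exit_hasXY hn he2 h (by omega) (by omega) (by have := hsub' A C h; omega)
    · exact exit_hasXY hn he2 h (by omega) (by omega) (by have := hsub' A C h; omega)
    · have := complete_te hδ h1 hz h2
      omega
    · exact exit_hasXY hn he2 h (by omega) (by omega) (by have := hsub' A C h; omega)
  · -- both endpoints are outside, use a low vertex with three neighbours outside
    push Not at hxyL
    have hx : x ∈ Wi G k := not_Lo.1 hxyL.1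
    have hy : y ∈ Wi G k := not_Lo.1 hxyL.2
    obtain ⟨l, hl, hl3⟩ : ∃ l ∈ Lo G k, 3 ≤ (nb G l ∩ Wi G k).card := by
      by_contra hcon
      push Not at hcon
      have h1 := te_ge G (Lo G k)
      have h2 : k * (Fintype.card V - k - 2) ≤ ∑ v ∈ Lo G k, (Fintype.card V - k - 2) := by
        rw [Finset.sum_const, hLk, smul_eq_mul]
      -- each low vertex has at least `Fintype.card V - k - 2 + (missing low)` non-neighbours
      have h3 : ∀ v ∈ Lo G k, (Fintype.card V - k - 2) ≤ (Wi G k \ nb G v).card := by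
        intro v hv
        have h4 := hcon v hv
        have h5 := Finset.card_sdiff_add_card_inter (Wi G k) (nb G v)
        rw [Finset.inter_comm] at h5
        omega
      have h4 : k * (Fintype.card V - k - 2) ≤ np G (Lo G k) (Wi G k) := by
        have e1 : k * (Fintype.card V - k - 2) =
            (Lo G k).card • (Fintype.card V - k - 2) := by rw [hLk, smul_eq_mul]
        rw [e1]
        unfold np
        refine Finset.card_nsmul_le_sum _ _ _ fun v hv => ?_
        refine (h3 v hv).trans (Finset.card_le_card fun w hw => ?_)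
        rw [mem_sdiff, mem_nb] at hw
        rw [mem_filter]
        exact ⟨hw.1, (Lo_ne_Wi hv hw.1).symm, hw.2⟩
      have h5 := te_split G (Lo G k)
      rw [← Wi_eq_compl] at h5
      omega
    by_cases hly : G.Adj l y
    · obtain ⟨c, hc⟩ : ∃ c, c ∈ (nb G l ∩ Wi G k) \ {x, y} := by
        rw [← Finset.Nonempty, ← Finset.card_pos]
        have h1 := Finset.le_card_sdiff {x, y} (nb G l ∩ Wi G k)
        have h2 := Finset.card_le_two (a := x) (b := y)
        omega
      simp only [mem_sdiff, mem_inter, mem_nb, mem_insert, mem_singleton, not_or] at hc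
      have h : ExitP G k x y [x] [y, l, c] := ⟨x, hx, c, hc.1.2, PathL.single x,
        pathL3 hly.symm hc.1.1 (Ne.symm hc.2.2), by
          simp [hxy, Ne.symm hc.2.1, (Lo_ne_Wi hl hx).symm]⟩
      exact exit_hasXY hn he2 h (by simp; omega) (by simp; omega) (by
        have := hsub [x] [y, l, c] ⟨l, hl, by simp⟩; omega)
    · obtain ⟨a, c, ha, hc, hac⟩ : ∃ a c, a ∈ (nb G l ∩ Wi G k) \ {x} ∧
          c ∈ (nb G l ∩ Wi G k) \ {x} ∧ a ≠ c := by
        have h1 := Finset.le_card_sdiff {x} (nb G l ∩ Wi G k)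
        rw [Finset.card_singleton] at h1
        obtain ⟨a, ha, c, hc, hac⟩ := Finset.one_lt_card.1
          (show 1 < ((nb G l ∩ Wi G k) \ {x}).card by omega)
        exact ⟨a, c, ha, hc, hac⟩
      simp only [mem_sdiff, mem_inter, mem_nb, mem_singleton] at ha hc
      have hay : a ≠ y := fun h => hly (h ▸ ha.1.1)
      have hcy : c ≠ y := fun h => hly (h ▸ hc.1.1)
      obtain ⟨b, b', hb, hb', hbF, hb'F, hbb, h1, h2, h3⟩ := link4 hn he2 hy ha.1.2
        ({x, y, l, a, c} : Finset V) (by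
          refine (Finset.card_le_five).trans ?_
          omega)
      simp only [mem_insert, mem_singleton, not_or] at hbF hb'F
      have p1 : PathL G y c [y, b, b', a, l, c] :=
        ((((pathL2 hc.1.1).cons ha.1.1.symm (by simp [(Lo_ne_Wi hl ha.1.2).symm, hac])).cons h3
          (by simp [hb'F])).cons h2 (by simp [hbb, hbF])).cons h1 (by
            simp [Ne.symm hbF.2.1, Ne.symm hb'F.2.1, Ne.symm hay, Ne.symm hcy,
              (Lo_ne_Wi hl hy).symm])
      have h : ExitP G k x y [x] [y, b, b', a, l, c] := ⟨x, hx, c, hc.1.2, PathL.single x, p1, by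
        simp [hxy, Ne.symm hbF.1, Ne.symm hb'F.1, Ne.symm ha.2, Ne.symm hc.2,
          (Lo_ne_Wi hl hx).symm]⟩
      exact exit_hasXY hn he2 h (by simp; omega) (by simp; omega) (by
        have := hsub [x] [y, b, b', a, l, c] ⟨l, hl, by simp⟩; omega)

end Pool.MP40
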