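import Pool.Agent.Lib.MP_40d15f_co.R1

/-!
# MP_40d15f_co : `i = 5`
-/

set_option autoImplicit false
set_option linter.unusedSectionVars false

open Finset

namespace Pool.MP40

variable {V : Type} [Fintype V] {G : SimpleGraph V} {k : ℕ} {x y : V}

theorem np_eq_sum [DecidableEq V] (S T : Finset V) :
    np G S T = ∑ s ∈ S, (T ∩ nonb G s).card := by
  unfold np
  refine Finset.sum_congr rfl fun s _ => ?_
  congr 1
  ext t
  simp only [mem_filter, mem_inter, mem_nonb]

theorem ep_eq_sum [DecidableEq V] (S T : Finset V) :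
    ep G S T = ∑ s ∈ S, (T ∩ nb G s).card := by
  unfold ep
  refine Finset.sum_congr rfl fun s _ => ?_
  congr 1
  ext t
  simp only [mem_filter, mem_inter, mem_nb]

theorem ep_self_even (A : Finset V) : Even (ep G A A) := by
  classical
  have h1 : ep G A A = ((A ×ˢ A).filter fun p => G.Adj p.1 p.2).card := by
    unfold ep
    rw [Finset.card_filter, Finset.sum_product]
    refine Finset.sum_congr rfl fun s _ => ?_
    rw [Finset.card_filter]
  rw [h1]
  have h2 : ((((A ×ˢ A).filter fun p => G.Adj p.1 p.2).card : ℕ) : ZMod 2) = 0 := by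
    rw [Finset.card_eq_sum_ones]
    push_cast
    refine Finset.sum_involution (fun p _ => (p.2, p.1)) ?_ ?_ ?_ ?_
    · intro p _; decide
    · rintro ⟨a, b⟩ hp _ he
      simp only [mem_filter, Prod.mk.injEq] at hp he
      exact hp.2.ne he.2
    · rintro ⟨a, b⟩ hp
      simp only [mem_filter, mem_product] at hp ⊢
      exact ⟨⟨hp.1.2, hp.1.1⟩, hp.2.symm⟩
    · intro p _; rfl
  rw [ZMod.natCast_eq_zero_iff] at h2
  exact even_iff_two_dvd.2 h2

/-- lower bound of the number of non-edges around `x` and `y` -/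
theorem te_pair [DecidableEq V] (hxy : x ≠ y) {T : Finset V} (hxT : x ∉ T) (hyT : y ∉ T) :
    2 * ((Fintype.card V - 2 - ((nb G x).erase y).card) +
      (Fintype.card V - 2 - ((nb G y).erase x).card)) +
      2 * np G (univ \ (insert x (insert y T))) T + np G T T ≤ te G := by
  have h1 := te_split G ({x, y} : Finset V)
  have h2 : (Fintype.card V - 2 - ((nb G x).erase y).card) +
      (Fintype.card V - 2 - ((nb G y).erase x).card) ≤ np G {x, y} ({x, y} : Finset V)ᶜ := by
    unfold np
    rw [Finset.sum_pair hxy]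
    have hc : (({x, y} : Finset V)ᶜ).card = Fintype.card V - 2 := by
      rw [Finset.card_compl, Finset.card_pair hxy]
    refine Nat.add_le_add ?_ ?_
    · rw [← hc]
      refine (Finset.le_card_sdiff _ _).trans (Finset.card_le_card fun w hw => ?_)
      simp only [mem_sdiff, mem_compl, mem_insert, mem_singleton, not_or, mem_erase, mem_nb,
        not_and] at hw
      simp only [mem_filter, mem_compl, mem_insert, mem_singleton, not_or]
      exact ⟨hw.1, hw.1.1, hw.2 hw.1.2⟩
    · rw [← hc]
      refine (Finset.le_card_sdiff _ _).trans (Finset.card_le_card fun w hw => ?_)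
      simp only [mem_sdiff, mem_compl, mem_insert, mem_singleton, not_or, mem_erase, mem_nb,
        not_and] at hw
      simp only [mem_filter, mem_compl, mem_insert, mem_singleton, not_or]
      exact ⟨hw.1, hw.1.2, hw.2 hw.1.1⟩
  have h3 : 2 * np G (univ \ (insert x (insert y T))) T + np G T T ≤
      np G ({x, y} : Finset V)ᶜ ({x, y} : Finset V)ᶜ := by
    have hd : Disjoint (univ \ (insert x (insert y T))) T := by
      rw [Finset.disjoint_left]
      intro v hv hv'
      simp only [mem_sdiff, mem_univ, true_and, mem_insert, not_or] at hv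
      exact hv.2.2 hv'
    have hs : (univ \ (insert x (insert y T))) ∪ T ⊆ ({x, y} : Finset V)ᶜ := by
      intro v hv
      simp only [mem_union, mem_sdiff, mem_univ, true_and, mem_insert, not_or, mem_compl,
        mem_singleton] at hv ⊢
      rcases hv with hv | hv
      · exact ⟨hv.1, hv.2.1⟩
      · constructor
        · rintro rfl; exact hxT hv
        · rintro rfl; exact hyT hv
    have h4 := np_mono G hs hs
    rw [np_union_left G hd, np_union_right G hd, np_union_right G hd,
      np_symm G T (univ \ (insert x (insert y T)))] at h4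
    omega
  omega

theorem ar1 (κ t N X Y e : ℕ) (h1 : N * (κ + 1 + t) ≤ X)
    (hY : (κ + 2 + t) * (κ + 1 + t) ≤ Y + 2 * ((κ + 2 + t) / 2))
    (hte : 2 * (N + N) + 2 * X + Y ≤ e) (hN : 2 * (κ + t) + 10 ≤ N)
    (he : e < 2 * (κ + 3) * (N + t) + ((κ + 2) * (κ + 1) - 2 * ((κ + 2) / 2))) : False := by
  have h6 : (κ + 2 + t) * (κ + 1 + t) = (κ + 2) * (κ + 1) + t * (2 * κ + 3 + t) := by ring
  have h7 : 2 * (κ + 3) * (N + t) = 2 * (κ + 3) * N + 2 * (κ + 3) * t := by ring
  have h8 : N * (κ + 1 + t) = N * (κ + 1) + N * t := by ring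
  have h9 : 2 * (κ + 3) * N = 2 * (N * (κ + 1)) + 4 * N := by ring
  have h13 : 2 * ((κ + 2) / 2) ≤ (κ + 2) * (κ + 1) := by
    have h1 : 2 * ((κ + 2) / 2) ≤ κ + 2 := Nat.mul_div_le _ _
    have h2 : κ + 2 ≤ (κ + 2) * (κ + 1) := Nat.le_mul_of_pos_right _ (by omega)
    omega
  rcases Nat.eq_zero_or_pos t with h | h
  · subst h
    simp only [Nat.add_zero, Nat.mul_zero, Nat.zero_mul] at *
    omega
  · have h10 : 2 * (κ + 3) * t + t ≤ 2 * (N * t) := by
      have : (2 * (κ + 3) + 1) * t ≤ (2 * N) * t := Nat.mul_le_mul_right _ (by omega)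
      nlinarith
    have h11 : 2 * ((κ + 2 + t) / 2) ≤ 2 * ((κ + 2) / 2) + t + 1 := by omega
    have h12 : t * 3 ≤ t * (2 * κ + 3 + t) := Nat.mul_le_mul_left _ (by omega)
    omega

theorem ar2 (κ D N n e : ℕ) (hN : n = N + 2 + 2 * D) (h6 : 4 * N + 2 * (N * (κ + 2)) ≤ e)
    (h5 : e < 2 * (κ + 3) * n) (d1 : 2 * (κ + 5) * D ≤ n) (hD : κ + 10 ≤ D) : False := by
  have h1 : 2 * (κ + 3) * n = 2 * (N * (κ + 2)) + 2 * N + 4 * (κ + 3) * (D + 1) := by
    rw [hN]; ring
  have h2 : 4 * (κ + 3) * (D + 1) = 4 * (κ * D) + 12 * D + 4 * κ + 12 := by ring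
  have h3 : 2 * (κ + 5) * D = 2 * (κ * D) + 10 * D := by ring
  omega

theorem five_LL [DecidableEq V] (hk : 3 ≤ k) (hn : 100 * (k + 2) ^ 3 ≤ Fintype.card V)
    (hδ : ∀ v, k ≤ (nb G v).card) (hxy : x ≠ y) (hx : x ∈ Lo G k) (hy : y ∈ Lo G k)
    (he : te G < 2 * k * (Fintype.card V - k - 1) + ((k - 1) * (k - 2) - 2 * ((k - 1) / 2))) :
    HasXY G 5 x y := by
  by_contra hno
  obtain ⟨d1, d2, d3⟩ := Dn_facts (V := V) (k := k) hn
  obtain ⟨f1, f2, f3, f4⟩ := num_facts (V := V) hn
  set A := (nb G x).erase y with hA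
  set C := (nb G y).erase x with hC
  have hAmem : ∀ v, v ∈ A ↔ v ≠ y ∧ G.Adj x v := fun v => by rw [hA, mem_erase, mem_nb]
  have hCmem : ∀ v, v ∈ C ↔ v ≠ x ∧ G.Adj y v := fun v => by rw [hC, mem_erase, mem_nb]
  have key : ∀ q, q ≠ x → q ≠ y → ∀ p ∈ A, ∀ r ∈ C, G.Adj q p → G.Adj q r → p = r := by
    intro q hqx hqy p hp r hr hqp hqr
    by_contra hne
    rw [hAmem] at hp
    rw [hCmem] at hr
    refine hno ⟨[x, p, q, r, y], (pathL4 hqp.symm hqr hr.2.symm hne hp.1 hqy).cons hp.2 ?_, rfl⟩
    simp [hp.2.ne, Ne.symm hqx, Ne.symm hr.1, hxy]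
  have hAlow : k - 1 ≤ A.card := by
    have h1 := hδ x
    have h2 := Finset.pred_card_le_card_erase (s := nb G x) (a := y)
    rw [hA]; omega
  have hClow : k - 1 ≤ C.card := by
    have h1 := hδ y
    have h2 := Finset.pred_card_le_card_erase (s := nb G y) (a := x)
    rw [hC]; omega
  have hAup : A.card ≤ Dn V k := (Finset.card_le_card (Finset.erase_subset _ _)).trans
    (mem_Lo.1 hx)
  have hCup : C.card ≤ Dn V k := (Finset.card_le_card (Finset.erase_subset _ _)).trans
    (mem_Lo.1 hy)
  have hxA : x ∉ A := fun h => ((hAmem x).1 h).2.ne rfl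
  have hyA : y ∉ A := fun h => ((hAmem y).1 h).1 rfl
  have hxC : x ∉ C := fun h => ((hCmem x).1 h).1 rfl
  have hyC : y ∉ C := fun h => ((hCmem y).1 h).2.ne rfl
  -- every vertex has at most one neighbour in `A ∪ C`, or misses `A`, or misses `C`
  have tri : ∀ q, q ≠ x → q ≠ y → (∀ p ∈ A, ¬ G.Adj q p) ∨ (∀ r ∈ C, ¬ G.Adj q r) ∨
      (nb G q ∩ (A ∪ C)).card ≤ 1 := by
    intro q hqx hqy
    by_cases h1 : ∃ p ∈ A, G.Adj q p
    · by_cases h2 : ∃ r ∈ C, G.Adj q r
      · right; right
        obtain ⟨p, hp, hqp⟩ := h1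
        obtain ⟨r, hr, hqr⟩ := h2
        have hpr := key q hqx hqy p hp r hr hqp hqr
        subst hpr
        have h3 : ∀ a ∈ nb G q ∩ (A ∪ C), a = p := by
          intro a ha
          rw [mem_inter, mem_nb, mem_union] at ha
          rcases ha.2 with h | h
          · exact key q hqx hqy a h p hr ha.1 hqr
          · exact (key q hqx hqy p hp a h hqp ha.1).symm
        rw [Finset.card_le_one]
        intro a ha b hb
        rw [h3 a ha, h3 b hb]
      · push Not at h2; exact Or.inr (Or.inl h2)
    · push Not at h1; exact Or.inl h1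
  set n := Fintype.card V with hnn
  set T := A ∪ C with hT
  have hxT : x ∉ T := by rw [hT, mem_union]; tauto
  have hyT : y ∉ T := by rw [hT, mem_union]; tauto
  have hte := te_pair (G := G) hxy hxT hyT
  rw [← hA, ← hC, ← hnn] at hte
  have hZc : (univ \ (insert x (insert y T))).card = n - 2 - T.card := by
    rw [Finset.card_univ_sdiff, Finset.card_insert_of_notMem, Finset.card_insert_of_notMem hyT]
    · omega
    · rw [mem_insert]; tauto
  by_cases hAC : A = C
  · have hTA : T = A := by rw [hT, ← hAC, Finset.union_self]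
    rw [hTA] at hte hZc tri
    rw [← hAC] at hte
    set α := A.card with hα
    have hnb1 : ∀ q, q ≠ x → q ≠ y → (nb G q ∩ A).card ≤ 1 := by
      intro q hqx hqy
      rcases tri q hqx hqy with h | h | h
      · have : nb G q ∩ A = ∅ := by
          ext a; simp only [mem_inter, mem_nb, notMem_empty, iff_false, not_and]
          intro h1 h2; exact h a h2 h1
        rw [this]; simp
      · have : nb G q ∩ A = ∅ := by
          ext a; simp only [mem_inter, mem_nb, notMem_empty, iff_false, not_and]
          intro h1 h2; exact h a (hAC ▸ h2) h1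
        rw [this]; simp
      · exact h
    have h1 : (n - 2 - α) * (α - 1) ≤ np G (univ \ (insert x (insert y A))) A := by
      rw [← hZc, ← smul_eq_mul, np_eq_sum]
      refine Finset.card_nsmul_le_sum _ _ _ fun q hq => ?_
      simp only [mem_sdiff, mem_univ, true_and, mem_insert, not_or] at hq
      have h2 := hnb1 q hq.1 hq.2.1
      have h3 := Finset.card_sdiff_add_card_inter A (nb G q)
      rw [Finset.inter_comm] at h3
      refine le_trans (b := (A \ nb G q).card) (by omega) (Finset.card_le_card fun v hv => ?_)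
      rw [mem_sdiff, mem_nb] at hv
      rw [mem_inter, mem_nonb]
      exact ⟨hv.1, fun h => hq.2.2 (h ▸ hv.1), hv.2⟩
    have h2 : ep G A A ≤ 2 * (α / 2) := by
      have h3 : ep G A A ≤ α := by
        rw [ep_eq_sum]
        refine (Finset.sum_le_card_nsmul A _ 1 fun q hq => ?_).trans (by simp [hα])
        have h4 : q ≠ x := fun h => hxA (h ▸ hq)
        have h5 : q ≠ y := fun h => hyA (h ▸ hq)
        rw [Finset.inter_comm]
        exact hnb1 q h4 h5
      obtain ⟨m, hm⟩ := ep_self_even (G := G) A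
      omega
    have h3 := np_add_ep_self G (S := A)
    rw [← hα] at h3
    -- arithmetic
    have hDn : 4 * Dn V k ≤ n := le_trans (Nat.mul_le_mul_right _ (by omega)) d1
    obtain ⟨t, ht⟩ : ∃ t, α = k - 1 + t := ⟨α - (k - 1), by omega⟩
    obtain ⟨κ, hκ⟩ : ∃ κ, k = κ + 3 := ⟨k - 3, by omega⟩
    obtain ⟨N, hN⟩ : ∃ N, n = N + (κ + 3) + 1 + t := ⟨n - (κ + 3) - 1 - t, by omega⟩
    have hα' : α = κ + 2 + t := by omega
    have e1 : n - 2 - α = N := by omega
    have e2 : n - k - 1 = N + t := by omega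
    have e3 : α - 1 = κ + 1 + t := by omega
    have e4 : k - 1 = κ + 2 := by omega
    have e5 : k - 2 = κ + 1 := by omega
    rw [e1, e3] at h1
    rw [e1] at hte
    rw [e2, e4, e5, hκ] at he
    rw [e3, hα'] at h3
    rw [hα'] at h2
    exact ar1 κ t N _ (np G A A) (te G) h1 (by omega) hte (by omega) he
  · -- `A ≠ C`
    have hu : A.card + 1 ≤ T.card ∨ C.card + 1 ≤ T.card := by
      by_contra hcon
      push Not at hcon
      have h1 : A = T := Finset.eq_of_subset_of_card_le subset_union_left (by omega)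
      have h2 : C = T := Finset.eq_of_subset_of_card_le subset_union_right (by omega)
      exact hAC (h1.trans h2.symm)
    have hTc : T.card ≤ 2 * Dn V k := (Finset.card_union_le _ _).trans (by omega)
    have hTA : A.card ≤ T.card := Finset.card_le_card subset_union_left
    have hTC : C.card ≤ T.card := Finset.card_le_card subset_union_right
    have h1 : (n - 2 - T.card) * (k - 1) ≤ np G (univ \ (insert x (insert y T))) T := by
      rw [← hZc, ← smul_eq_mul, np_eq_sum]
      refine Finset.card_nsmul_le_sum _ _ _ fun q hq => ?_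
      simp only [mem_sdiff, mem_univ, true_and, mem_insert, not_or] at hq
      have hsub : ∀ S : Finset V, S ⊆ T → (∀ p ∈ S, ¬ G.Adj q p) →
          S ⊆ T ∩ nonb G q := by
        intro S hS h v hv
        rw [mem_inter, mem_nonb]
        exact ⟨hS hv, fun h => hq.2.2 (h ▸ hS hv), h v hv⟩
      rcases tri q hq.1 hq.2.1 with h | h | h
      · exact hAlow.trans (Finset.card_le_card (hsub A subset_union_left h))
      · exact hClow.trans (Finset.card_le_card (hsub C subset_union_right h))
      · have h3 := Finset.card_sdiff_add_card_inter T (nb G q)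
        rw [Finset.inter_comm] at h3
        refine le_trans (b := (T \ nb G q).card) (by omega) (Finset.card_le_card
          (hsub _ Finset.sdiff_subset ?_))
        intro p hp
        rw [mem_sdiff, mem_nb] at hp
        exact hp.2
    -- arithmetic
    obtain ⟨κ, hκ⟩ : ∃ κ, k = κ + 3 := ⟨k - 3, by omega⟩
    have hDn : 4 * Dn V k ≤ n := le_trans (Nat.mul_le_mul_right _ (by omega)) d1
    obtain ⟨N, hN⟩ : ∃ N, n = N + 2 + 2 * Dn V k := ⟨n - 2 - 2 * Dn V k, by omega⟩
    have h2 : N * (k - 1) ≤ (n - 2 - T.card) * (k - 1) := Nat.mul_le_mul_right _ (by omega)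
    have h3 : 2 * k * (n - k - 1) + 2 * k * (k + 1) = 2 * k * n := by
      rw [← mul_add]; congr 1; omega
    have h4 : (k - 1) * (k - 2) ≤ 2 * k * (k + 1) := by
      have : (k - 1) * (k - 2) ≤ k * (k + 1) := Nat.mul_le_mul (by omega) (by omega)
      nlinarith
    have h5 : te G < 2 * k * n := by omega
    have h6 : 4 * N + 2 * (N * (k - 1)) ≤ te G := by omega
    have e4 : k - 1 = κ + 2 := by omega
    rw [e4] at h6
    refine ar2 κ (Dn V k) N n (te G) hN h6 ?_ ?_ (by omega)
    · rw [hκ] at h5; exact h5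
    · have : k + 2 = κ + 5 := by omega
      rw [this] at d1; exact d1

theorem up_5 (hk : 3 ≤ k) (hn : 100 * (k + 2) ^ 3 ≤ Fintype.card V)
    (hδ : ∀ v, k ≤ (nb G v).card) (hxy : x ≠ y)
    (he : te G < 2 * k * (Fintype.card V - k - 1) + ((k - 1) * (k - 2) - 2 * ((k - 1) / 2))) :
    HasXY G 5 x y := by
  classical
  obtain ⟨f1, f2, f3, f4⟩ := num_facts (V := V) hn
  have h4 : (k - 1) * (k - 2) ≤ (k + 2) * (k + 2) := Nat.mul_le_mul (by omega) (by omega)
  have h3 : 2 * k * (Fintype.card V - k - 1) + 2 * k * (k + 1) = 2 * k * Fintype.card V := by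
    rw [← mul_add]; congr 1; omega
  have h4' : (k - 1) * (k - 2) ≤ 2 * k * (k + 1) := by
    have : (k - 1) * (k - 2) ≤ k * (k + 1) := Nat.mul_le_mul (by omega) (by omega)
    nlinarith
  have e2 : 2 * k * Fintype.card V = 2 * (k * Fintype.card V) := by ring
  have e3 : 2 * k * (Fintype.card V - k - 1) = 2 * (k * (Fintype.card V - k - 1)) := by ring
  have he1 : te G < 2 * (k * Fintype.card V) := by omega
  have he2 : te G < 2 * ((k + 1) * Fintype.card V) := by nlinarith
  have hL := card_Lo_le (G := G) hn (show k ≤ k + 1 by omega) he1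
  have hW := card_Wi (G := G) (k := k)
  by_cases hxyL : x ∈ Lo G k ∧ y ∈ Lo G k
  · exact five_LL hk hn hδ hxy hxyL.1 hxyL.2 he
  have hsub : ∀ A C : List V, (Wi G k).card ≤ (Wi G k ∪ (A ++ C).toFinset).card := fun A C =>
    Finset.card_le_card subset_union_left
  rcases out_of_le (by omega) hδ hL hxy with ⟨A, C, h, hl⟩ | ⟨A, C, h, hl, h'⟩ |
    ⟨h1, z, hz, h2, h5, h6⟩ | ⟨h1, h2, h3, a, ha, h4, h5, A, C, h, hl⟩
  · exact exit_hasXY hn he2 h (by omega) (by omega) (by have := hsub A C; omega)
  · have h1 : (Lo G k).card = k := by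
      rcases h' with h' | h'
      · exact absurd h' hxyL
      · exact h'
    have h8 := exit_hasXY' h (by
      have := np_Wi_small (G := G) (c := 8) hn (show k ≤ k + 1 by omega) h1 (by omega) (by
        have : 4 * (k + 2) * (k + 2) = 4 * ((k + 2) * (k + 2)) := by ring
        omega)
      omega)
    rw [hl] at h8
    exact h8
  · have hzL : z ∉ Lo G k := fun h => Lo_ne_Wi h hz rfl
    by_cases hk3 : k = 3
    · exfalso
      have := complete_te hδ h1 hz h2
      subst hk3
      simp at he
      omega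
    · have hempty : ∀ v ∈ insert z (Lo G k), insert z (Lo G k) ∩ nonb G v = ∅ := by
        intro v hv
        ext w
        simp only [mem_inter, mem_nonb, notMem_empty, iff_false, not_and, not_not]
        intro hw hwv
        exact complete_adj hδ h1 hz h2 hv hw (Ne.symm hwv)
      have hxK : x ∈ insert z (Lo G k) := by rw [mem_insert]; tauto
      have hyK : y ∈ insert z (Lo G k) := by rw [mem_insert]; tauto
      refine internal' (K := insert z (Lo G k)) hxK hyK hxy ?_ (Or.inr ⟨?_, hempty x hxK⟩)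
        (by omega) ?_
      · intro v hv
        rw [hempty v hv]; simp
      · rw [Finset.card_insert_of_notMem hzL]; omega
      · rw [Finset.card_insert_of_notMem hzL]; omega
  · exact absurd ⟨h2, h3⟩ hxyL

end Pool.MP40
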