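import Pool.Agent.Lib.MP_40d15f_co.Count

/-!
# MP_40d15f_co : growing paths
-/

set_option autoImplicit false
set_option linter.unusedSectionVars false

open Finset

namespace Pool.MP40

variable {V : Type} [Fintype V] {G : SimpleGraph V} {k : ℕ} {x y : V}

theorem Dn_facts (hn : 100 * (k + 2) ^ 3 ≤ Fintype.card V) :
    2 * (k + 2) * Dn V k ≤ Fintype.card V ∧ Fintype.card V < 2 * (k + 2) * (Dn V k + 1) ∧
      50 * (k + 2) ^ 2 ≤ Dn V k := by
  refine ⟨Nat.mul_div_le _ _, Nat.lt_mul_div_succ _ (by positivity), ?_⟩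
  unfold Dn
  rw [Nat.le_div_iff_mul_le (by positivity)]
  calc 50 * (k + 2) ^ 2 * (2 * (k + 2)) = 100 * (k + 2) ^ 3 := by ring
    _ ≤ _ := hn

theorem mem_Lo {v : V} : v ∈ Lo G k ↔ (nb G v).card ≤ Dn V k := by simp [Lo]
theorem mem_Wi {v : V} : v ∈ Wi G k ↔ Dn V k < (nb G v).card := by simp [Wi]
theorem mem_Bi {v : V} : v ∈ Bi G ↔ 8 * db G v ≤ Fintype.card V := by simp [Bi]

theorem Wi_eq_compl [DecidableEq V] : Wi G k = (Lo G k)ᶜ := by
  ext v; simp [mem_Wi, mem_Lo]

theorem Lo_eq_compl [DecidableEq V] : Lo G k = (Wi G k)ᶜ := by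
  ext v; simp [mem_Wi, mem_Lo]

theorem card_Wi : (Wi G k).card + (Lo G k).card = Fintype.card V := by
  classical
  rw [Wi_eq_compl, Finset.card_compl]
  have := Finset.card_le_univ (Lo G k)
  omega

theorem card_Lo_le {t : ℕ} (hn : 100 * (k + 2) ^ 3 ≤ Fintype.card V) (ht : t ≤ k + 1)
    (h : te G < 2 * (t * Fintype.card V)) : (Lo G k).card ≤ t := by
  classical
  by_contra hcon
  push Not at hcon
  obtain ⟨S, hS, hSc⟩ := Finset.exists_subset_card_eq (show t + 1 ≤ (Lo G k).card from hcon)
  have h1 := te_ge G S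
  obtain ⟨d1, d2, d3⟩ := Dn_facts (V := V) (k := k) hn
  set n := Fintype.card V with hnn
  set D := Dn V k with hD
  have h2 : (t + 1) * (n - 1 - D) ≤ ∑ v ∈ S, db G v := by
    rw [← hSc, ← smul_eq_mul]
    refine Finset.card_nsmul_le_sum S _ _ fun v hv => ?_
    have h3 := nb_add_db (G := G) v
    have h4 := mem_Lo.1 (hS hv)
    omega
  rw [hSc] at h1
  have hk2 : t + 1 ≤ k + 2 := by omega
  have hDn : 1 + D ≤ n := by nlinarith
  have h5 : (t + 1) * (n - 1 - D) + (t + 1) * (1 + D) = (t + 1) * n := by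
    rw [← mul_add]; congr 1; omega
  have h6 : (t + 1) * (1 + D) ≤ (k + 2) * (1 + D) := Nat.mul_le_mul_right _ hk2
  have h7 : (t + 1) * (t + 1 - 1) ≤ (k + 2) * (k + 2) := Nat.mul_le_mul hk2 (by omega)
  have h8 : (k + 2) ^ 2 ≤ (k + 2) ^ 3 := Nat.pow_le_pow_right (by omega) (by omega)
  have h9 : (k + 2) * 2 ≤ (k + 2) ^ 2 := by nlinarith
  nlinarith

theorem card_compl_Bi [DecidableEq V] (h : te G < 2 * ((k + 1) * Fintype.card V)) :
    (univ \ Bi G).card ≤ 16 * (k + 1) := by
  by_contra hcon
  push Not at hcon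
  set n := Fintype.card V with hnn
  have h1 : (univ \ Bi G).card * (n + 1) ≤ ∑ v ∈ univ \ Bi G, 8 * db G v := by
    rw [← smul_eq_mul]
    refine Finset.card_nsmul_le_sum _ _ _ fun v hv => ?_
    rw [mem_sdiff, mem_Bi] at hv
    omega
  have h2 : ∑ v ∈ univ \ Bi G, 8 * db G v ≤ 8 * te G := by
    unfold te
    rw [Finset.mul_sum]
    exact Finset.sum_le_sum_of_subset (Finset.sdiff_subset)
  nlinarith

/-- insertion with reversal of the middle segment -/
theorem PathL.cross_insert {α β γ : List V} {w : V} (h : PathL G x y (α ++ β ++ γ))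
    (hw : w ∉ α ++ β ++ γ) (hα : α ≠ []) (hβ : β ≠ []) (hγ : γ ≠ [])
    (h1 : G.Adj (α.getLast hα) w) (h2 : G.Adj w (β.getLast hβ))
    (h3 : G.Adj (β.head hβ) (γ.head hγ)) : PathL G x y (α ++ [w] ++ β.reverse ++ γ) := by
  obtain ⟨nd, ch, hd, lt⟩ := h
  rw [List.isChain_append, List.isChain_append] at ch
  refine ⟨?_, ?_, ?_, ?_⟩
  · have hp : (α ++ [w] ++ β.reverse ++ γ).Perm (w :: (α ++ β ++ γ)) := by
      have e : α ++ [w] ++ β.reverse ++ γ = α ++ w :: (β.reverse ++ γ) := by simp
      rw [e]
      refine List.perm_middle.trans ?_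
      rw [List.append_assoc]
      exact (((List.reverse_perm β).append_right γ).append_left α).cons w
    rw [hp.nodup_iff, List.nodup_cons]
    exact ⟨hw, nd⟩
  · rw [List.isChain_append, List.isChain_append, List.isChain_append]
    refine ⟨⟨⟨ch.1.1, by simp, ?_⟩, ?_, ?_⟩, ch.2.1, ?_⟩
    · intro u hu v hv
      rw [List.getLast?_eq_some_getLast hα] at hu
      simp at hu hv; rw [← hu, ← hv]; exact h1
    · rw [List.isChain_reverse]
      exact ch.1.2.1.imp fun a b hab => hab.symm
    · intro u hu v hv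
      rw [List.head?_reverse, List.getLast?_eq_some_getLast hβ] at hv
      simp at hu hv; rw [← hu, ← hv]; exact h2
    · intro u hu v hv
      rw [List.getLast?_append, List.getLast?_reverse, List.head?_eq_some_head hβ] at hu
      rw [List.head?_eq_some_head hγ] at hv
      simp at hu hv; rw [← hu, ← hv]; exact h3
  · obtain ⟨a, α', rfl⟩ := List.exists_cons_of_ne_nil hα
    simpa using hd
  · rw [List.getLast?_append, List.getLast?_eq_some_getLast hγ] at lt ⊢
    simpa using lt

theorem countP_not_adj_le [DecidableEq V] {w : V} {l : List V} (hl : l.Nodup) (hw : w ∉ l)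
    [DecidablePred fun v => G.Adj w v] :
    l.countP (fun v => ¬ G.Adj w v) ≤ db G w := by
  classical
  rw [List.countP_eq_length_filter]
  have h1 : (l.filter fun v => ¬ G.Adj w v).Nodup := hl.filter _
  rw [← List.toFinset_card_of_nodup h1]
  refine Finset.card_le_card fun v hv => ?_
  rw [List.mem_toFinset, List.mem_filter] at hv
  rw [mem_nonb]
  refine ⟨?_, by simpa using hv.2⟩
  rintro rfl; exact hw hv.1

/-- insertion of a vertex of large degree into a long path -/
theorem insert_long [DecidableEq V] {w : V} {l : List V} {m : ℕ} (hl : PathL G x y l)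
    (hw : w ∉ l) (hm : m + (Fintype.card V - l.length) + 1 ≤ (nb G w).card)
    (hte : te G < m * (m - 1)) :
    ∃ l', PathL G x y l' ∧ l'.length = l.length + 1 ∧ l ⊆ l' := by
  classical
  set j := l.length with hj
  have hj0 : 0 < j := List.length_pos_of_ne_nil hl.ne_nil
  let f : ℕ → V := fun i => l.getD i x
  have hf : ∀ i (hi : i < j), f i = l[i] := fun i hi => by
    simp only [f]; rw [List.getD_eq_getElem _ _ hi]
  have hinj : ∀ a < j, ∀ b < j, f a = f b → a = b := by
    intro a ha b hb hab
    rw [hf a ha, hf b hb] at hab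
    exact (hl.nd.getElem_inj_iff).1 hab
  let T := (range (j - 1)).filter fun i => G.Adj w (f i)
  have hT : m ≤ T.card := by
    have h1 : nb G w ⊆ (T.image f ∪ {f (j - 1)}) ∪ (univ \ l.toFinset) := by
      intro v hv
      rw [mem_nb] at hv
      simp only [mem_union, mem_sdiff, mem_univ, true_and, List.mem_toFinset, mem_image,
        mem_singleton]
      by_cases hvl : v ∈ l
      · left
        obtain ⟨i, hi, rfl⟩ := List.getElem_of_mem hvl
        by_cases hi' : i < j - 1
        · left
          exact ⟨i, by simp only [T, mem_filter, mem_range]; exact ⟨hi', by rw [hf i hi]; exact hv⟩,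
            hf i hi⟩
        · right
          have : i = j - 1 := by omega
          rw [← this, hf i hi]
      · right; exact hvl
    have h2 := Finset.card_le_card h1
    have h3 := Finset.card_union_le (T.image f ∪ {f (j - 1)}) (univ \ l.toFinset)
    have h4 := Finset.card_union_le (T.image f) {f (j - 1)}
    have h5 : (T.image f).card ≤ T.card := Finset.card_image_le
    have h6 : (univ \ l.toFinset).card = Fintype.card V - j := by
      rw [Finset.card_univ_sdiff, List.toFinset_card_of_nodup hl.nd]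
    rw [Finset.card_singleton] at h4
    omega
  let S := T.image fun i => f (i + 1)
  have hS : S.card = T.card := by
    refine Finset.card_image_of_injOn ?_
    intro a ha b hb hab
    simp only [T, coe_filter, mem_range, Set.mem_ofPred_eq] at ha hb
    have := hinj (a + 1) (by omega) (b + 1) (by omega) hab
    omega
  obtain ⟨a, b, hab, haT, hbT, hadj⟩ : ∃ a b, a < b ∧ a ∈ T ∧ b ∈ T ∧
      G.Adj (f (a + 1)) (f (b + 1)) := by
    by_contra hcon
    push Not at hcon
    have h1 : ep G S S = 0 := by
      unfold ep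
      refine Finset.sum_eq_zero fun s hs => ?_
      rw [Finset.card_eq_zero, Finset.filter_eq_empty_iff]
      intro t ht hst
      simp only [S, mem_image] at hs ht
      obtain ⟨a, ha, rfl⟩ := hs
      obtain ⟨b, hb, rfl⟩ := ht
      rcases lt_trichotomy a b with h | h | h
      · exact hcon a b h ha hb hst
      · subst h; exact G.loopless.irrefl _ hst
      · exact hcon b a h hb ha hst.symm
    have h2 := np_add_ep_self G (S := S)
    have h3 : np G S S ≤ te G := by
      rw [te_eq]; exact np_mono G (subset_univ _) (subset_univ _)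
    have h4 : m * (m - 1) ≤ S.card * (S.card - 1) :=
      Nat.mul_le_mul (by omega) (by omega)
    omega
  simp only [T, mem_filter, mem_range] at haT hbT
  have hbj : b + 1 < j := by omega
  set α := l.take (a + 1) with hα
  set β := (l.drop (a + 1)).take (b - a) with hβ
  set γ := l.drop (b + 1) with hγ
  have e : α ++ β ++ γ = l := by
    rw [hα, hβ, hγ]
    have : l.drop (b + 1) = (l.drop (a + 1)).drop (b - a) := by
      rw [List.drop_drop]; congr 1; omega
    rw [this, List.append_assoc, List.take_append_drop, List.take_append_drop]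
  have hα0 : α ≠ [] := by
    rw [← List.length_pos_iff, hα, List.length_take]; omega
  have hβ0 : β ≠ [] := by
    rw [← List.length_pos_iff, hβ, List.length_take, List.length_drop]; omega
  have hγ0 : γ ≠ [] := by
    rw [← List.length_pos_iff, hγ, List.length_drop]; omega
  have e1 : α.getLast hα0 = f a := by
    rw [hf a (by omega), List.getLast_eq_getElem]
    simp only [hα, List.length_take, List.getElem_take]
    congr 1; omega
  have e2 : β.getLast hβ0 = f b := by
    rw [hf b (by omega), List.getLast_eq_getElem]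
    simp only [hβ, List.length_take, List.length_drop, List.getElem_take, List.getElem_drop]
    congr 1; omega
  have e3 : β.head hβ0 = f (a + 1) := by
    rw [hf (a + 1) (by omega), List.head_eq_getElem]
    simp only [hβ, List.getElem_take, List.getElem_drop]
  have e4 : γ.head hγ0 = f (b + 1) := by
    rw [hf (b + 1) (by omega), List.head_eq_getElem]
    simp only [hγ, List.getElem_drop]
  have hl' : PathL G x y (α ++ β ++ γ) := by rw [e]; exact hl
  have hw' : w ∉ α ++ β ++ γ := by rw [e]; exact hw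
  refine ⟨α ++ [w] ++ β.reverse ++ γ, hl'.cross_insert hw' hα0 hβ0 hγ0 ?_ ?_ ?_, ?_, ?_⟩
  · rw [e1]; exact haT.2.symm
  · rw [e2]; exact hbT.2
  · rw [e3, e4]; exact hadj
  · have : (α ++ β ++ γ).length = j := by rw [e]
    simp only [List.length_append, List.length_reverse, List.length_singleton] at this ⊢
    omega
  · intro v hv
    rw [← e] at hv
    simp only [List.mem_append, List.mem_reverse, List.mem_singleton] at hv ⊢
    tauto

theorem num_facts (hn : 100 * (k + 2) ^ 3 ≤ Fintype.card V) :
    400 * (k + 2) ≤ Fintype.card V ∧ 100 * (k + 2) ≤ Dn V k ∧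
    4 * (k + 2) * (k + 2) * (Dn V k + 1) < (Dn V k - 20 * (k + 2)) * (Dn V k - 20 * (k + 2) - 1) ∧
    2 * ((k + 1) * Fintype.card V) ≤ 4 * (k + 2) * (k + 2) * (Dn V k + 1) := by
  obtain ⟨d1, d2, d3⟩ := Dn_facts (V := V) (k := k) hn
  set n := Fintype.card V with hnn
  set D := Dn V k with hD
  generalize hK : k + 2 = K at *
  have hK2 : 2 ≤ K := by omega
  have h1 : 100 * K ≤ D := by nlinarith
  have h2 : 400 * K ≤ n := by
    have : 4 * K ≤ K ^ 3 := by nlinarith [Nat.pow_le_pow_left hK2 2, pow_succ K 2]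
    nlinarith
  refine ⟨h2, h1, ?_, ?_⟩
  · obtain ⟨c, hc⟩ : ∃ c, D = 20 * K + 1 + c := ⟨D - (20 * K + 1), by omega⟩
    have hc1 : 79 * K ≤ c + 1 := by omega
    have e1 : D - 20 * K = c + 1 := by omega
    have e2 : D - 20 * K - 1 = c := by omega
    rw [e2, e1]
    have hcD : 5 * D ≤ 7 * c := by omega
    have h3 : 50 * (K * K) ≤ D := by rw [← sq]; exact d3
    have h4 : 4 * K * K * (D + 1) ≤ 8 * (K * K) * D := by nlinarith
    have h5 : 50 * (8 * (K * K) * D) ≤ 8 * D * D := by nlinarith
    have h6 : 25 * (D * D) ≤ 49 * (c * c) := by nlinarith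
    nlinarith
  · have : k + 1 ≤ K := by omega
    nlinarith

theorem grow_small [DecidableEq V] (hn : 100 * (k + 2) ^ 3 ≤ Fintype.card V)
    (he : te G < 2 * ((k + 1) * Fintype.card V)) {α β : List V} {p q : V}
    (hm : PathL G x y (α ++ p :: q :: β)) (hp : p ∈ Bi G) (hq : q ∈ Bi G)
    (hc : 2 * (α ++ p :: q :: β).length ≤ Fintype.card V) :
    ∃ w ∈ Bi G, PathL G x y (α ++ p :: w :: q :: β) := by
  obtain ⟨f1, f2, f3, f4⟩ := num_facts (V := V) hn
  have hB := card_compl_Bi (G := G) he
  obtain ⟨w, hw⟩ : ∃ w, w ∉ (α ++ p :: q :: β).toFinset ∪ nonb G p ∪ nonb G q ∪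
      (univ \ Bi G) := by
    by_contra hcon
    push Not at hcon
    have h3 : (univ : Finset V) ⊆ (α ++ p :: q :: β).toFinset ∪ nonb G p ∪ nonb G q ∪
        (univ \ Bi G) := fun w _ => hcon w
    have h4 := Finset.card_le_card h3
    have h5 := Finset.card_union_le ((α ++ p :: q :: β).toFinset ∪ nonb G p ∪ nonb G q)
      (univ \ Bi G)
    have h6 := Finset.card_union_le ((α ++ p :: q :: β).toFinset ∪ nonb G p) (nonb G q)
    have h7 := Finset.card_union_le (α ++ p :: q :: β).toFinset (nonb G p)
    have h8 := mem_Bi.1 hp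
    have h9 := mem_Bi.1 hq
    have h10 := List.toFinset_card_le (α ++ p :: q :: β)
    rw [Finset.card_univ] at h4
    unfold db at h8 h9
    omega
  simp only [mem_union, not_or, mem_sdiff, mem_univ, true_and, not_not,
    List.mem_toFinset, mem_nonb, not_and] at hw
  obtain ⟨⟨⟨hw1, hw2⟩, hw3⟩, hw4⟩ := hw
  have hwp : w ≠ p := by rintro rfl; exact hw1 (by simp)
  have hwq : w ≠ q := by rintro rfl; exact hw1 (by simp)
  exact ⟨w, hw4, hm.insert hw1 (hw2 hwp) (hw3 hwq).symm⟩

theorem grow_large [DecidableEq V] (hn : 100 * (k + 2) ^ 3 ≤ Fintype.card V)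
    (he : te G < 2 * ((k + 1) * Fintype.card V)) {m : List V}
    (hm : PathL G x y m) (hc : Fintype.card V < 2 * m.length)
    (hW : ∃ w, w ∈ Wi G k ∧ w ∉ m) :
    ∃ m', PathL G x y m' ∧ m'.length = m.length + 1 ∧ m ⊆ m' := by
  obtain ⟨f1, f2, f3, f4⟩ := num_facts (V := V) hn
  have hB := card_compl_Bi (G := G) he
  by_cases hw : ∃ w ∈ Bi G, w ∉ m
  · obtain ⟨w, hwB, hwm⟩ := hw
    have h3 : ∃ α p q β, m = α ++ p :: q :: β ∧ G.Adj w p ∧ G.Adj w q := by
      classical
      refine exists_consec (fun v => G.Adj w v) m ?_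
      have h3 := countP_not_adj_le (G := G) hm.nd hwm
      have h4 := mem_Bi.1 hwB
      omega
    obtain ⟨α, p, q, β, hdec, hp, hq⟩ := h3
    subst hdec
    refine ⟨α ++ p :: w :: q :: β, hm.insert hwm hp.symm hq, ?_, ?_⟩
    · simp; omega
    · intro v hv
      simp only [List.mem_append, List.mem_cons] at hv ⊢
      tauto
  · push Not at hw
    have h3 : Fintype.card V - m.length ≤ 16 * (k + 1) := by
      rw [← List.toFinset_card_of_nodup hm.nd, ← Finset.card_univ_sdiff]
      refine (Finset.card_le_card fun v hv => ?_).trans hB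
      rw [mem_sdiff, List.mem_toFinset] at hv
      rw [mem_sdiff]
      exact ⟨mem_univ _, fun hvB => hv.2 (hw v hvB)⟩
    obtain ⟨w, hwW, hwm⟩ := hW
    have h4 := mem_Wi.1 hwW
    exact insert_long (m := Dn V k - 20 * (k + 2)) hm hwm (by omega) (by omega)

/-- a path with two consecutive vertices of `Bi` and at most `n/2` vertices can be prolonged, up to
all vertices of `Wi` -/
theorem grow [DecidableEq V] (hn : 100 * (k + 2) ^ 3 ≤ Fintype.card V)
    (he : te G < 2 * ((k + 1) * Fintype.card V)) {l α β : List V} {p q : V} (hl : PathL G x y l)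
    (hdec : l = α ++ p :: q :: β) (hp : p ∈ Bi G) (hq : q ∈ Bi G)
    (hlen : 2 * l.length ≤ Fintype.card V) {i : ℕ} (h1 : l.length ≤ i)
    (h2 : i ≤ (Wi G k ∪ l.toFinset).card) : HasXY G i x y := by
  have main : ∀ j, l.length ≤ j → j ≤ (Wi G k ∪ l.toFinset).card →
      ∃ m, PathL G x y m ∧ m.length = j ∧ l ⊆ m ∧
        (2 * j ≤ Fintype.card V → ∃ α p q β, m = α ++ p :: q :: β ∧ p ∈ Bi G ∧ q ∈ Bi G) := by
    intro j hj
    induction j, hj using Nat.le_induction with
    | base =>
      intro _
      exact ⟨l, hl, rfl, fun v hv => hv, fun _ => ⟨α, p, q, β, hdec, hp, hq⟩⟩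
    | succ j hj ih =>
      intro hj2
      obtain ⟨m, hm, hmj, hlm, hBB⟩ := ih (by omega)
      by_cases hc : 2 * j ≤ Fintype.card V
      · obtain ⟨α, p, q, β, hdec, hp, hq⟩ := hBB hc
        subst hdec
        obtain ⟨w, hwB, hw⟩ := grow_small hn he hm hp hq (by omega)
        refine ⟨_, hw, ?_, ?_, fun _ => ⟨α, p, w, q :: β, rfl, hp, hwB⟩⟩
        · simp only [List.length_append, List.length_cons] at hmj ⊢; omega
        · intro v hv
          have := hlm hv
          simp only [List.mem_append, List.mem_cons] at this ⊢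
          tauto
      · obtain ⟨m', hm', hm'l, hmm'⟩ := grow_large hn he hm (by omega) (by
          by_contra hcon
          push Not at hcon
          have h4 : Wi G k ∪ l.toFinset ⊆ m.toFinset := by
            intro v hv
            rw [mem_union, List.mem_toFinset] at hv
            rw [List.mem_toFinset]
            rcases hv with hv | hv
            · exact hcon v hv
            · exact hlm hv
          have h5 := Finset.card_le_card h4
          rw [List.toFinset_card_of_nodup hm.nd] at h5
          omega)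
        exact ⟨m', hm', by omega, fun v hv => hmm' (hlm hv), fun h => by omega⟩
  obtain ⟨m, hm, hmi, _⟩ := main i h1 h2
  exact ⟨m, hm, hmi⟩

theorem link4 [DecidableEq V] (hn : 100 * (k + 2) ^ 3 ≤ Fintype.card V)
    (he : te G < 2 * ((k + 1) * Fintype.card V)) {a c : V} (ha : a ∈ Wi G k) (hc : c ∈ Wi G k)
    (F : Finset V) (hF : F.card ≤ 4 * (k + 2)) :
    ∃ b b', b ∈ Bi G ∧ b' ∈ Bi G ∧ b ∉ F ∧ b' ∉ F ∧ b ≠ b' ∧ G.Adj a b ∧ G.Adj b b' ∧
      G.Adj b' c := by
  obtain ⟨f1, f2, f3, f4⟩ := num_facts (V := V) hn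
  have hB := card_compl_Bi (G := G) he
  have key : ∀ v ∈ Wi G k, Dn V k - 20 * (k + 2) ≤ ((nb G v \ (univ \ Bi G)) \ F).card := by
    intro v hv
    have h1 := Finset.le_card_sdiff F (nb G v \ (univ \ Bi G))
    have h2 := Finset.le_card_sdiff (univ \ Bi G) (nb G v)
    have h3 := mem_Wi.1 hv
    omega
  set X := (nb G a \ (univ \ Bi G)) \ F with hX
  set Y := (nb G c \ (univ \ Bi G)) \ F with hY
  by_contra hcon
  push Not at hcon
  have h1 : X.card * (Y.card - 1) ≤ ∑ b ∈ X, db G b := by
    rw [← smul_eq_mul]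
    refine Finset.card_nsmul_le_sum X _ _ fun b hb => ?_
    refine (Finset.pred_card_le_card_erase (a := b)).trans (Finset.card_le_card fun b' hb' => ?_)
    rw [mem_erase] at hb'
    rw [mem_nonb]
    refine ⟨hb'.1, fun hadj => ?_⟩
    have hb1 := hb
    have hb2 := hb'.2
    simp only [hX, hY, mem_sdiff, mem_univ, true_and, not_not, mem_nb] at hb1 hb2
    exact hcon b b' hb1.1.2 hb2.1.2 hb1.2 hb2.2 (Ne.symm hb'.1) hb1.1.1 hadj hb2.1.1.symm
  have h2 : ∑ b ∈ X, db G b ≤ te G := Finset.sum_le_sum_of_subset (subset_univ _)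
  have h3 : (Dn V k - 20 * (k + 2)) * (Dn V k - 20 * (k + 2) - 1) ≤ X.card * (Y.card - 1) :=
    Nat.mul_le_mul (key a ha) (Nat.sub_le_sub_right (key c hc) 1)
  omega

/-- exit pair: disjoint paths from `x` and from `y` to vertices of `Wi` -/
def ExitP (G : SimpleGraph V) (k : ℕ) (x y : V) (A C : List V) : Prop :=
  ∃ a ∈ Wi G k, ∃ c ∈ Wi G k, PathL G x a A ∧ PathL G y c C ∧ ∀ v ∈ A, v ∉ C

theorem exit_hasXY [DecidableEq V] (hn : 100 * (k + 2) ^ 3 ≤ Fintype.card V)
    (he : te G < 2 * ((k + 1) * Fintype.card V)) {A C : List V} (h : ExitP G k x y A C)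
    (hlen : A.length + C.length ≤ 3 * (k + 2)) {i : ℕ} (h1 : A.length + C.length + 2 ≤ i)
    (h2 : i ≤ (Wi G k ∪ (A ++ C).toFinset).card) : HasXY G i x y := by
  obtain ⟨a, ha, c, hc, hA, hC, hd⟩ := h
  obtain ⟨f1, f2, f3, f4⟩ := num_facts (V := V) hn
  obtain ⟨b, b', hb, hb', hbF, hb'F, hbb, hab, hbb', hbc⟩ := link4 hn he ha hc (A ++ C).toFinset (by
    refine (List.toFinset_card_le _).trans ?_
    rw [List.length_append]; omega)
  simp only [List.mem_toFinset, List.mem_append, not_or] at hbF hb'F
  have p1 : PathL G x b (A ++ [b]) := hA.append (PathL.single b) hab (by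
    intro v hv hv'
    simp at hv'; subst hv'; exact hbF.1 hv)
  have p2 : PathL G x b' ((A ++ [b]) ++ [b']) := p1.append (PathL.single b') hbb' (by
    intro v hv hv'
    simp at hv hv'; subst hv'
    rcases hv with hv | hv
    · exact hb'F.1 hv
    · exact hbb hv.symm)
  have p3 : PathL G x y (((A ++ [b]) ++ [b']) ++ C.reverse) := p2.append hC.reverse hbc (by
    intro v hv hv'
    simp at hv hv'
    rcases hv with hv | hv | hv
    · exact hd v hv hv'
    · subst hv; exact hbF.2 hv'
    · subst hv; exact hb'F.2 hv')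
  refine grow hn he p3 (α := A) (p := b) (q := b') (β := C.reverse) (by simp) hb hb' ?_ ?_ ?_
  · simp; omega
  · simp; omega
  · refine h2.trans (Finset.card_le_card fun v hv => ?_)
    simp at hv ⊢; tauto

theorem exit_hasXY' {A C : List V} (h : ExitP G k x y A C)
    (hW : np G (Wi G k) (Wi G k) + 2 * (A.length + C.length) < 2 * (Wi G k).card) :
    HasXY G (A.length + C.length + 1) x y := by
  classical
  obtain ⟨a, ha, c, hc, hA, hC, hd⟩ := h
  have haA : a ∈ A := List.mem_of_getLast? hA.lt
  have hcC : c ∈ C := List.mem_of_getLast? hC.lt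
  have hac : a ≠ c := fun e => hd a haA (e ▸ hcC)
  obtain ⟨b, hbF, hab, hbc⟩ : ∃ b, b ∉ A ++ C ∧ G.Adj a b ∧ G.Adj b c := by
    by_contra hcon
    push Not at hcon
    set Z := Wi G k \ (A ++ C).toFinset with hZ
    have h1 : (Wi G k).card ≤ Z.card + (A.length + C.length) := by
      have := Finset.le_card_sdiff (A ++ C).toFinset (Wi G k)
      have h2 := List.toFinset_card_le (A ++ C)
      rw [List.length_append] at h2
      rw [hZ]
      omega
    have h2 : Z.card ≤ np G Z {a, c} := by
      unfold np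
      rw [Finset.card_eq_sum_ones]
      refine Finset.sum_le_sum fun w hw => ?_
      rw [Nat.one_le_iff_ne_zero, Finset.card_ne_zero]
      rw [hZ, mem_sdiff, List.mem_toFinset] at hw
      by_cases haw : G.Adj a w
      · refine ⟨c, ?_⟩
        simp only [mem_filter, mem_insert, mem_singleton, or_true, true_and]
        refine ⟨?_, hcon w hw.2 haw⟩
        rintro rfl; exact hw.2 (by simp [hcC])
      · refine ⟨a, ?_⟩
        simp only [mem_filter, mem_insert, mem_singleton, true_or, true_and]
        refine ⟨?_, fun h => haw h.symm⟩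
        rintro rfl; exact hw.2 (by simp [haA])
    have hdis : Disjoint Z {a, c} := by
      rw [Finset.disjoint_left]
      intro v hv hv'
      rw [hZ, mem_sdiff, List.mem_toFinset] at hv
      simp at hv'
      rcases hv' with rfl | rfl
      · exact hv.2 (by simp [haA])
      · exact hv.2 (by simp [hcC])
    have hsub : Z ∪ {a, c} ⊆ Wi G k := by
      intro v hv
      simp only [mem_union, hZ, mem_sdiff, mem_insert, mem_singleton] at hv
      rcases hv with hv | rfl | rfl
      · exact hv.1
      · exact ha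
      · exact hc
    have h3 := np_mono G hsub hsub
    rw [np_union_left G hdis, np_union_right G hdis, np_union_right G hdis,
      np_symm G {a, c} Z] at h3
    omega
  simp only [List.mem_append, not_or] at hbF
  have p1 : PathL G x b (A ++ [b]) := hA.append (PathL.single b) hab (by
    intro v hv hv'
    simp at hv'; subst hv'; exact hbF.1 hv)
  have p3 : PathL G x y ((A ++ [b]) ++ C.reverse) := p1.append hC.reverse hbc (by
    intro v hv hv'
    simp at hv hv'
    rcases hv with hv | hv
    · exact hd v hv hv'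
    · subst hv; exact hbF.2 hv')
  exact ⟨_, p3, by simp; omega⟩

end Pool.MP40
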