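import Pool.Agent.Lib.MP_40d15f_co.Defs

/-!
# MP_40d15f_co : list lemmas
-/

set_option autoImplicit false

open Finset

namespace Pool.MP40

variable {V : Type} {G : SimpleGraph V} {x y : V}

/-! ### walks and lists -/

theorem walk_pathL {x y : V} (p : G.Walk x y) (hp : p.IsPath) : PathL G x y p.support := by
  refine ⟨hp.support_nodup, p.isChain_adj_support, ?_, ?_⟩
  · rw [List.head?_eq_some_head p.support_ne_nil, p.head_support]
  · rw [List.getLast?_eq_some_getLast p.support_ne_nil, p.getLast_support]

theorem exists_walk_of_list : ∀ (l : List V) (x y : V), l.IsChain G.Adj → l.head? = some x →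
    l.getLast? = some y → ∃ p : G.Walk x y, p.support = l
  | [], x, y, _, h, _ => by simp at h
  | [a], x, y, _, h1, h2 => by
    simp at h1 h2
    subst h1; subst h2
    exact ⟨SimpleGraph.Walk.nil, by simp⟩
  | a :: b :: l, x, y, hc, h1, h2 => by
    simp at h1
    subst h1
    rw [List.isChain_cons_cons] at hc
    obtain ⟨p, hp⟩ := exists_walk_of_list (b :: l) b y hc.2 (by simp) (by
      rw [List.getLast?_cons_cons] at h2; exact h2)
    exact ⟨SimpleGraph.Walk.cons hc.1 p, by simp [hp]⟩

theorem hasXY_iff {i : ℕ} : HasXY G i x y ↔ ∃ p : G.Walk x y, p.IsPath ∧ p.support.length = i := by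
  constructor
  · rintro ⟨l, hl, hli⟩
    obtain ⟨p, hp⟩ := exists_walk_of_list l x y hl.ch hl.hd hl.lt
    refine ⟨p, ?_, by rw [hp]; exact hli⟩
    rw [SimpleGraph.Walk.isPath_def, hp]; exact hl.nd
  · rintro ⟨p, hp, hpi⟩
    exact ⟨p.support, walk_pathL p hp, hpi⟩

theorem hasP_iff {i : ℕ} : HasP G i ↔ ∀ x y, x ≠ y → HasXY G i x y := by
  unfold HasP
  exact forall_congr' fun x => forall_congr' fun y => forall_congr' fun _ => hasXY_iff.symm

/-! ### basic operations -/

theorem PathL.reverse {l : List V} (h : PathL G x y l) : PathL G y x l.reverse := by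
  refine ⟨List.nodup_reverse.2 h.nd, ?_, ?_, ?_⟩
  · rw [List.isChain_reverse]
    exact h.ch.imp fun a b hab => hab.symm
  · rw [List.head?_reverse, h.lt]
  · rw [List.getLast?_reverse, h.hd]

theorem HasXY.symm {i : ℕ} (h : HasXY G i x y) : HasXY G i y x := by
  obtain ⟨l, hl, hli⟩ := h
  exact ⟨l.reverse, hl.reverse, by simpa using hli⟩

theorem PathL.single (x : V) : PathL G x x [x] := ⟨by simp, by simp, by simp, by simp⟩

theorem PathL.ne_nil {l : List V} (h : PathL G x y l) : l ≠ [] := by
  rintro rfl; simpa using h.hd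

theorem PathL.append {a b : V} {l₁ l₂ : List V} (h₁ : PathL G x a l₁) (h₂ : PathL G b y l₂)
    (hab : G.Adj a b) (hd : ∀ v ∈ l₁, v ∉ l₂) : PathL G x y (l₁ ++ l₂) := by
  refine ⟨?_, ?_, ?_, ?_⟩
  · rw [List.nodup_append]
    exact ⟨h₁.nd, h₂.nd, fun v hv w hw hvw => hd v hv (hvw ▸ hw)⟩
  · rw [List.isChain_append]
    refine ⟨h₁.ch, h₂.ch, fun u hu v hv => ?_⟩
    rw [h₁.lt] at hu; rw [h₂.hd] at hv
    simp at hu hv; subst hu; subst hv; exact hab
  · rw [List.head?_append, h₁.hd]; rfl
  · rw [List.getLast?_append, h₂.lt]; rfl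

theorem PathL.cons {a : V} {l : List V} (h : PathL G a y l) (hxa : G.Adj x a) (hx : x ∉ l) :
    PathL G x y (x :: l) :=
  (PathL.single x).append h hxa (by simpa using hx)

/-- insertion of a vertex between two consecutive vertices -/
theorem PathL.insert {α β : List V} {p q w : V} (h : PathL G x y (α ++ p :: q :: β))
    (hw : w ∉ α ++ p :: q :: β) (h1 : G.Adj p w) (h2 : G.Adj w q) :
    PathL G x y (α ++ p :: w :: q :: β) := by
  obtain ⟨nd, ch, hd, lt⟩ := h
  refine ⟨?_, ?_, ?_, ?_⟩
  · have hp : (α ++ p :: w :: q :: β).Perm (w :: (α ++ p :: q :: β)) := by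
      have : α ++ p :: w :: q :: β = (α ++ [p]) ++ w :: (q :: β) := by simp
      rw [this]
      refine List.perm_middle.trans ?_
      simp
    rw [hp.nodup_iff, List.nodup_cons]
    exact ⟨hw, nd⟩
  · rw [List.isChain_append] at ch ⊢
    rw [List.isChain_cons_cons] at ch
    refine ⟨ch.1, ?_, ?_⟩
    · rw [List.isChain_cons_cons, List.isChain_cons_cons]
      exact ⟨h1, h2, ch.2.1.2⟩
    · intro u hu v hv
      exact ch.2.2 u hu v (by simpa using hv)
  · cases α <;> simpa using hd
  · rw [List.getLast?_append] at lt ⊢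
    have e : (p :: w :: q :: β).getLast? = (p :: q :: β).getLast? := by
      rw [List.getLast?_cons_cons, List.getLast?_cons_cons, List.getLast?_cons_cons]
    rw [e]; exact lt

/-- crossing: reverse a middle segment -/
theorem PathL.cross {α β γ : List V} (h : PathL G x y (α ++ β ++ γ)) (hα : α ≠ []) (hβ : β ≠ [])
    (hγ : γ ≠ [])
    (h1 : G.Adj (α.getLast hα) (β.getLast hβ)) (h2 : G.Adj (β.head hβ) (γ.head hγ)) :
    PathL G x y (α ++ β.reverse ++ γ) := by
  obtain ⟨nd, ch, hd, lt⟩ := h
  rw [List.isChain_append, List.isChain_append] at ch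
  refine ⟨?_, ?_, ?_, ?_⟩
  · have hp : (α ++ β.reverse ++ γ).Perm (α ++ β ++ γ) :=
      ((List.reverse_perm β).append_left α).append_right γ
    exact hp.nodup_iff.2 nd
  · rw [List.isChain_append, List.isChain_append]
    refine ⟨⟨ch.1.1, ?_, ?_⟩, ch.2.1, ?_⟩
    · rw [List.isChain_reverse]
      exact ch.1.2.1.imp fun a b hab => hab.symm
    · intro u hu v hv
      rw [List.getLast?_eq_some_getLast hα] at hu
      rw [List.head?_reverse, List.getLast?_eq_some_getLast hβ] at hv
      simp at hu hv; rw [← hu, ← hv]; exact h1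
    · intro u hu v hv
      rw [List.getLast?_append, List.getLast?_reverse, List.head?_eq_some_head hβ] at hu
      rw [List.head?_eq_some_head hγ] at hv
      simp at hu hv; rw [← hu, ← hv]; exact h2
  · obtain ⟨a, α', rfl⟩ := List.exists_cons_of_ne_nil hα
    simpa using hd
  · rw [List.getLast?_append, List.getLast?_eq_some_getLast hγ] at lt ⊢
    simpa using lt

/-! ### consecutive elements -/

/-- if fewer than half of the elements are bad, there are two consecutive good elements -/
theorem exists_consec (A : V → Prop) [DecidablePred A] : ∀ l : List V,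
    2 * l.countP (fun v => ¬ A v) + 2 ≤ l.length →
    ∃ α p q β, l = α ++ p :: q :: β ∧ A p ∧ A q
  | [], h => by simp at h
  | [a], h => by simp at h
  | a :: b :: l, h => by
    by_cases hb : A b
    · by_cases ha : A a
      · exact ⟨[], a, b, l, rfl, ha, hb⟩
      · obtain ⟨α, p, q, β, he, hp, hq⟩ := exists_consec A (b :: l) (by
          simp [List.countP_cons, ha] at h ⊢; omega)
        exact ⟨a :: α, p, q, β, by rw [he]; rfl, hp, hq⟩
    · obtain ⟨α, p, q, β, he, hp, hq⟩ := exists_consec A l (by
          simp [List.countP_cons, hb] at h ⊢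
          by_cases ha : A a
          · simp [ha] at h; omega
          · simp [ha] at h; omega)
      exact ⟨a :: b :: α, p, q, β, by rw [he]; rfl, hp, hq⟩

theorem countP_pair_aux (A B : V → Prop) [DecidablePred A] [DecidablePred B] : ∀ l : List V,
    (∀ α p q β, l = α ++ p :: q :: β → ¬ (A p ∧ B q)) →
    l.countP (fun v => A v) + l.tail.countP (fun v => B v) ≤ l.length
  | [], _ => by simp
  | [a], _ => by
    simp only [List.countP_cons, List.countP_nil, List.length_cons, List.length_nil, List.tail_cons]
    split_ifs <;> omega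
  | a :: b :: l, h => by
    have ih := countP_pair_aux A B (b :: l) (fun α p q β he => h (a :: α) p q β (by rw [he]; rfl))
    have h0 := h [] a b l rfl
    simp only [List.countP_cons, List.length_cons, List.tail_cons] at ih ⊢
    by_cases ha : A a
    · have hb : ¬ B b := fun hb => h0 ⟨ha, hb⟩
      simp only [ha, hb, decide_true, decide_false, if_true] at ih ⊢
      simp at ih ⊢
      omega
    · simp only [ha, decide_false] at ih ⊢
      by_cases hb : B b
      · simp [hb] at ih ⊢; omega
      · simp [hb] at ih ⊢; omega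

/-- counting lemma: no consecutive pair `(p,q)` with `A p` and `B q` -/
theorem countP_pair (A B : V → Prop) [DecidablePred A] [DecidablePred B] (l : List V)
    (h : ∀ α p q β, l = α ++ p :: q :: β → ¬ (A p ∧ B q)) :
    l.countP (fun v => A v) + l.countP (fun v => B v) ≤ l.length + 1 := by
  have := countP_pair_aux A B l h
  cases l with
  | nil => simp
  | cons a l =>
    simp only [List.tail_cons] at this
    rw [List.countP_cons (p := fun v => decide (B v))]
    split_ifs <;> omega

end Pool.MP40
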