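import Pool.Agent.Lib.MP_40d15f_co.LowDef

/-!
# MP_40d15f_co : constructions for `i = 2, 3, 4`
-/

set_option autoImplicit false

open Finset

namespace Pool.MP40


open Classical in
private lemma l234_db {V : Type} [Fintype V] (G : SimpleGraph V) (v : V) :
    db G v = ∑ w, if (w ≠ v ∧ ¬ G.Adj v w) then 1 else 0 := by
  unfold db nonb
  rw [Finset.card_filter]

/-- a vertex with `db` small has large degree -/
private lemma l234_nb {V : Type} [Fintype V] (G : SimpleGraph V) (v : V) {k d n : ℕ}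
    (hn : Fintype.card V = n) (hd : db G v = d) (h : k + d + 1 ≤ n) : k ≤ (nb G v).card := by
  have := nb_add_db (G := G) v
  omega

private lemma l234_sum (a : ℕ) (i : Fin a) : (∑ x : Fin a, if x = i then 0 else 1) = a - 1 := by
  have h : ∀ x : Fin a, (if x = i then 0 else 1) = if x ≠ i then 1 else 0 := by
    intro x
    by_cases hx : x = i <;> simp [hx]
  rw [Finset.sum_congr rfl fun x _ => h x, ← Finset.card_filter, Finset.filter_ne',
    Finset.card_erase_of_mem (Finset.mem_univ _)]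
  simp

/-! ### `i = 2` -/

private def g2 (m : ℕ) : SimpleGraph (Bool ⊕ Fin m) where
  Adj u v := u ≠ v ∧ ¬ (u.isLeft ∧ v.isLeft)
  symm := ⟨fun _ _ h => ⟨h.1.symm, fun h' => h.2 ⟨h'.2, h'.1⟩⟩⟩
  loopless := ⟨fun _ h => h.1 rfl⟩

private lemma g2_db_l (m : ℕ) (b : Bool) : db (g2 m) (Sum.inl b) = 1 := by
  classical
  rw [l234_db, Fintype.sum_sum_type]
  cases b <;> simp [g2]

private lemma g2_db_r (m : ℕ) (i : Fin m) : db (g2 m) (Sum.inr i) = 0 := by
  classical
  rw [l234_db]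
  apply Finset.sum_eq_zero
  intro w _
  rw [if_neg]
  intro h
  exact h.2 ⟨h.1.symm, by simp⟩

theorem low_2 {n k : ℕ} (hn : k + 2 ≤ n) : Low n k 2 2 := by
  classical
  obtain ⟨m, rfl⟩ : ∃ m, n = m + 2 := ⟨n - 2, by omega⟩
  have hcard : Fintype.card (Bool ⊕ Fin m) = m + 2 := by simp; omega
  refine ⟨Bool ⊕ Fin m, inferInstance, g2 m, hcard, ?_, ?_, Sum.inl true, Sum.inl false, by simp, ?_⟩
  · rintro (b | i)
    · exact l234_nb _ _ hcard (g2_db_l m b) (by omega)
    · exact l234_nb _ _ hcard (g2_db_r m i) (by omega)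
  · unfold te
    rw [Fintype.sum_sum_type]
    simp [g2_db_l, g2_db_r]
  · rintro ⟨l, hl, hlen⟩
    obtain ⟨nd, ch, hd, lt⟩ := hl
    match l, hlen with
    | [a, b], _ =>
      simp at hd lt ch
      subst hd lt
      simp [g2] at ch

/-! ### `i = 3` -/

private def g3 (a c : ℕ) : SimpleGraph (Bool ⊕ (Fin a ⊕ Fin c)) where
  Adj u v := u ≠ v ∧ match u, v with
    | Sum.inl true, Sum.inr (Sum.inr _) => False
    | Sum.inl false, Sum.inr (Sum.inl _) => False
    | Sum.inr (Sum.inr _), Sum.inl true => False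
    | Sum.inr (Sum.inl _), Sum.inl false => False
    | _, _ => True
  symm := ⟨by
    rintro ((_ | _) | (i | i)) ((_ | _) | (j | j)) ⟨h1, h2⟩ <;> simp_all [eq_comm]⟩
  loopless := ⟨fun _ h => h.1 rfl⟩

private lemma g3_db_x (a c : ℕ) : db (g3 a c) (Sum.inl true) = c := by
  classical
  rw [l234_db, Fintype.sum_sum_type, Fintype.sum_sum_type]
  simp [g3]

private lemma g3_db_y (a c : ℕ) : db (g3 a c) (Sum.inl false) = a := by
  classical
  rw [l234_db, Fintype.sum_sum_type, Fintype.sum_sum_type]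
  simp [g3]

private lemma g3_db_a (a c : ℕ) (i : Fin a) : db (g3 a c) (Sum.inr (Sum.inl i)) = 1 := by
  classical
  rw [l234_db, Fintype.sum_sum_type, Fintype.sum_sum_type]
  simp [g3, eq_comm]

private lemma g3_db_c (a c : ℕ) (i : Fin c) : db (g3 a c) (Sum.inr (Sum.inr i)) = 1 := by
  classical
  rw [l234_db, Fintype.sum_sum_type, Fintype.sum_sum_type]
  simp [g3, eq_comm]

theorem low_3 {n k : ℕ} (hk : 3 ≤ k) (hn : 2 * k ≤ n) : Low n k 3 (2 * (n - 2)) := by
  classical
  have hcard : Fintype.card (Bool ⊕ (Fin (k - 1) ⊕ Fin (n - k - 1))) = n := by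
    simp; omega
  refine ⟨Bool ⊕ (Fin (k - 1) ⊕ Fin (n - k - 1)), inferInstance, g3 (k - 1) (n - k - 1), hcard,
    ?_, ?_, Sum.inl true, Sum.inl false, by simp, ?_⟩
  · rintro ((_ | _) | (i | i))
    · exact l234_nb _ _ hcard (g3_db_y _ _) (by omega)
    · exact l234_nb _ _ hcard (g3_db_x _ _) (by omega)
    · exact l234_nb _ _ hcard (g3_db_a _ _ i) (by omega)
    · exact l234_nb _ _ hcard (g3_db_c _ _ i) (by omega)
  · unfold te
    rw [Fintype.sum_sum_type, Fintype.sum_sum_type]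
    simp [g3_db_x, g3_db_y, g3_db_a, g3_db_c]
    omega
  · rintro ⟨l, hl, hlen⟩
    obtain ⟨nd, ch, hd, lt⟩ := hl
    match l, hlen with
    | [a, b, c], _ =>
      simp at hd lt ch
      subst hd lt
      obtain ⟨h1, h2⟩ := ch
      rcases b with (_ | _) | (i | i) <;> simp_all [g3]

/-! ### `i = 4` -/

private def g4 (a c : ℕ) : SimpleGraph (Bool ⊕ (Fin a ⊕ Fin c)) where
  Adj u v := u ≠ v ∧ match u, v with
    | Sum.inl _, Sum.inr (Sum.inr _) => False
    | Sum.inr (Sum.inr _), Sum.inl _ => False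
    | Sum.inr (Sum.inl _), Sum.inr (Sum.inl _) => False
    | _, _ => True
  symm := ⟨by
    rintro ((_ | _) | (i | i)) ((_ | _) | (j | j)) ⟨h1, h2⟩ <;> simp_all [eq_comm]⟩
  loopless := ⟨fun _ h => h.1 rfl⟩

private lemma g4_db_x (a c : ℕ) (b : Bool) : db (g4 a c) (Sum.inl b) = c := by
  classical
  rw [l234_db, Fintype.sum_sum_type, Fintype.sum_sum_type]
  cases b <;> simp [g4]

private lemma g4_db_a (a c : ℕ) (i : Fin a) : db (g4 a c) (Sum.inr (Sum.inl i)) = a - 1 := by
  classical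
  rw [l234_db, Fintype.sum_sum_type, Fintype.sum_sum_type]
  simp [g4]
  exact l234_sum a i

private lemma g4_db_c (a c : ℕ) (i : Fin c) : db (g4 a c) (Sum.inr (Sum.inr i)) = 2 := by
  classical
  rw [l234_db, Fintype.sum_sum_type, Fintype.sum_sum_type]
  simp [g4, eq_comm]

theorem low_4 {n k : ℕ} (hk : 3 ≤ k) (hn : 2 * k ≤ n) :
    Low n k 4 (4 * (n - k - 1) + (k - 1) * (k - 2)) := by
  classical
  have hcard : Fintype.card (Bool ⊕ (Fin (k - 1) ⊕ Fin (n - k - 1))) = n := by
    simp; omega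
  refine ⟨Bool ⊕ (Fin (k - 1) ⊕ Fin (n - k - 1)), inferInstance, g4 (k - 1) (n - k - 1), hcard,
    ?_, ?_, Sum.inl true, Sum.inl false, by simp, ?_⟩
  · rintro (b | (i | i))
    · exact l234_nb _ _ hcard (g4_db_x _ _ b) (by omega)
    · exact l234_nb _ _ hcard (g4_db_a _ _ i) (by omega)
    · exact l234_nb _ _ hcard (g4_db_c _ _ i) (by omega)
  · unfold te
    rw [Fintype.sum_sum_type, Fintype.sum_sum_type]
    simp only [g4_db_x, g4_db_a, g4_db_c, Finset.sum_const, Finset.card_univ, Fintype.card_bool,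
      Fintype.card_fin, smul_eq_mul]
    have : k - 1 - 1 = k - 2 := by omega
    rw [this]
    omega
  · rintro ⟨l, hl, hlen⟩
    obtain ⟨nd, ch, hd, lt⟩ := hl
    match l, hlen with
    | [a, b, c, d], _ =>
      simp at hd lt ch
      subst hd lt
      obtain ⟨h1, h2, h3⟩ := ch
      rcases b with (_ | _) | (i | i) <;> rcases c with (_ | _) | (j | j) <;> simp_all [g4]

end Pool.MP40
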