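import Pool.Agent.Lib.MP_40d15f_co.LowDef

/-!
# MP_40d15f_co : the construction for `i = 5`
-/

set_option autoImplicit false

open Finset

namespace Pool.MP40


/-- the graph of `low_5`: `x ~ y`, both joined to `Λ = Fin m`, which carries the matching `2j ~ 2j+1`, and `U = Fin u`
complete, `j ∈ U` joined to `j % m ∈ Λ` -/
private def low5G (m u : ℕ) : SimpleGraph (Fin 2 ⊕ (Fin m ⊕ Fin u)) where
  Adj
    | Sum.inl a, Sum.inl b => a ≠ b
    | Sum.inl _, Sum.inr (Sum.inl _) => True
    | Sum.inl _, Sum.inr (Sum.inr _) => False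
    | Sum.inr (Sum.inl _), Sum.inl _ => True
    | Sum.inr (Sum.inl i), Sum.inr (Sum.inl j) => i ≠ j ∧ (i : ℕ) / 2 = (j : ℕ) / 2
    | Sum.inr (Sum.inl i), Sum.inr (Sum.inr w) => (w : ℕ) % m = i
    | Sum.inr (Sum.inr _), Sum.inl _ => False
    | Sum.inr (Sum.inr w), Sum.inr (Sum.inl i) => (w : ℕ) % m = i
    | Sum.inr (Sum.inr v), Sum.inr (Sum.inr w) => v ≠ w
  symm := ⟨by
    rintro (a | i | w) (b | j | v) h
    · exact fun h' => h h'.symm
    · trivial
    · exact h
    · trivial
    · exact ⟨fun h' => h.1 h'.symm, h.2.symm⟩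
    · exact h
    · exact h
    · exact h
    · exact fun h' => h h'.symm⟩
  loopless := ⟨by
    rintro (a | i | w) h
    · exact h rfl
    · exact h.1 rfl
    · exact h rfl⟩

private theorem low5_no (m u : ℕ) : ¬ HasXY (low5G m u) 5 (Sum.inl 0) (Sum.inl 1) := by
  rintro ⟨l, hl, hlen⟩
  obtain ⟨nd, ch, hd, lt⟩ := hl
  match l, hlen with
  | [p0, p1, p2, p3, p4], _ =>
    simp only [List.head?_cons, Option.some.injEq] at hd
    have lt' : p4 = Sum.inl 1 := by simpa using lt
    subst hd
    subst lt'
    simp only [List.isChain_cons_cons] at ch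
    obtain ⟨h1, h2, h3, h4, -⟩ := ch
    simp only [List.nodup_cons, List.mem_cons, not_or, List.not_mem_nil, not_false_eq_true] at nd
    obtain ⟨⟨n01, n02, n03, n04, -⟩, ⟨n12, n13, n14, -⟩, ⟨n23, n24, -⟩, ⟨n34, -⟩, -⟩ := nd
    rcases p1 with a | a | a
    · have ha : a = 0 ∨ a = 1 := by omega
      rcases ha with rfl | rfl
      · exact n01 rfl
      · exact n14 rfl
    · rcases p3 with c | c | c
      · have hc : c = 0 ∨ c = 1 := by omega
        rcases hc with rfl | rfl
        · exact n03 rfl
        · exact n34 rfl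
      · have hac : a ≠ c := fun h => n13 (by rw [h])
        have hac' : (a : ℕ) ≠ c := fun h => hac (Fin.ext h)
        rcases p2 with b | b | b
        · have hb : b = 0 ∨ b = 1 := by omega
          rcases hb with rfl | rfl
          · exact n02 rfl
          · exact n24 rfl
        · have h2' : a ≠ b ∧ (a : ℕ) / 2 = (b : ℕ) / 2 := h2
          have h3' : b ≠ c ∧ (b : ℕ) / 2 = (c : ℕ) / 2 := h3
          have e1 : (a : ℕ) ≠ b := fun h => h2'.1 (Fin.ext h)
          have e2 : (b : ℕ) ≠ c := fun h => h3'.1 (Fin.ext h)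
          have e3 := h2'.2
          have e4 := h3'.2
          omega
        · have h2' : (b : ℕ) % m = a := h2
          have h3' : (b : ℕ) % m = c := h3
          exact hac' (h2'.symm.trans h3')
      · exact h4
    · exact h1

private theorem low5_nb_inl (m u : ℕ) (a : Fin 2) : m + 1 ≤ (nb (low5G m u) (Sum.inl a)).card := by
  classical
  let f : Fin 1 ⊕ Fin m → Fin 2 ⊕ (Fin m ⊕ Fin u) := Sum.elim (fun _ => Sum.inl (1 - a)) (fun i => Sum.inr (Sum.inl i))
  have hf : Function.Injective f := by
    rintro (i | i) (j | j) h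
    · congr 1; omega
    · simp [f] at h
    · simp [f] at h
    · simp [f] at h; rw [h]
  have h1 : (univ.image f) ⊆ nb (low5G m u) (Sum.inl a) := by
    intro v hv
    simp only [mem_image, mem_univ, true_and] at hv
    obtain ⟨w, rfl⟩ := hv
    rw [mem_nb]
    rcases w with i | i
    · show a ≠ 1 - a
      fin_cases a <;> decide
    · trivial
  have h2 := card_le_card h1
  rw [card_image_of_injective _ hf] at h2
  simp at h2
  omega

private theorem low5_nb_U (m u : ℕ) (hm : 0 < m) (w : Fin u) :
    u ≤ (nb (low5G m u) (Sum.inr (Sum.inr w))).card := by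
  classical
  let f : Fin u → Fin 2 ⊕ (Fin m ⊕ Fin u) := fun v =>
    if v = w then Sum.inr (Sum.inl ⟨(w : ℕ) % m, Nat.mod_lt _ hm⟩) else Sum.inr (Sum.inr v)
  have hf : Function.Injective f := by
    intro i j h
    simp only [f] at h
    split_ifs at h with h1 h2 h2
    · exact h1.trans h2.symm
    · simp at h
    · simp at h
    · simpa using h
  have h1 : (univ.image f) ⊆ nb (low5G m u) (Sum.inr (Sum.inr w)) := by
    intro v hv
    simp only [mem_image, mem_univ, true_and] at hv
    obtain ⟨i, rfl⟩ := hv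
    rw [mem_nb]
    simp only [f]
    split_ifs with h1
    · show (w : ℕ) % m = _
      rfl
    · show w ≠ i
      exact fun h => h1 h.symm
  have h2 := card_le_card h1
  rw [card_image_of_injective _ hf] at h2
  simpa using h2

/-- the number of `j ∈ U` joined to `i` -/
private def gg (m u : ℕ) (i : Fin m) : ℕ := (univ.filter fun w : Fin u => (w : ℕ) % m = i).card

/-- matched vertices -/
private def mm (m : ℕ) (i : Fin m) : ℕ := if (i : ℕ) < 2 * (m / 2) then 1 else 0

private theorem low5_nb_L (m u : ℕ) (i : Fin m) :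
    2 + mm m i + gg m u i ≤ (nb (low5G m u) (Sum.inr (Sum.inl i))).card := by
  classical
  have h1 : (univ.image (fun a : Fin 2 => (Sum.inl a : Fin 2 ⊕ (Fin m ⊕ Fin u)))) ∪
      ((univ.filter fun j : Fin m => i ≠ j ∧ (i : ℕ) / 2 = (j : ℕ) / 2).image
        (fun j => (Sum.inr (Sum.inl j) : Fin 2 ⊕ (Fin m ⊕ Fin u)))) ∪
      ((univ.filter fun w : Fin u => (w : ℕ) % m = i).image
        (fun w => (Sum.inr (Sum.inr w) : Fin 2 ⊕ (Fin m ⊕ Fin u)))) ⊆
      nb (low5G m u) (Sum.inr (Sum.inl i)) := by
    intro v hv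
    rw [mem_nb]
    simp only [mem_union, mem_image, mem_univ, true_and, mem_filter] at hv
    rcases hv with (⟨a, rfl⟩ | ⟨j, hj, rfl⟩) | ⟨w, hw, rfl⟩
    · trivial
    · exact hj
    · exact hw
  have h2 := card_le_card h1
  have i1 : Function.Injective (fun j : Fin m => (Sum.inr (Sum.inl j) : Fin 2 ⊕ (Fin m ⊕ Fin u))) :=
    fun a b h => by simpa using h
  have i2 : Function.Injective (fun j : Fin u => (Sum.inr (Sum.inr j) : Fin 2 ⊕ (Fin m ⊕ Fin u))) :=
    fun a b h => by simpa using h
  rw [card_union_of_disjoint, card_union_of_disjoint, card_image_of_injective _ Sum.inl_injective,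
    card_image_of_injective _ i1, card_image_of_injective _ i2] at h2
  · have h3 : mm m i ≤ (univ.filter fun j : Fin m => i ≠ j ∧ (i : ℕ) / 2 = (j : ℕ) / 2).card := by
      unfold mm
      split_ifs with h
      · rw [Nat.succ_le_iff, card_pos]
        rcases Nat.mod_two_eq_zero_or_one (i : ℕ) with h0 | h0
        · refine ⟨⟨i + 1, by omega⟩, ?_⟩
          simp only [mem_filter, mem_univ, true_and]
          constructor
          · intro h'
            have := congrArg Fin.val h'
            simp at this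
          · omega
        · refine ⟨⟨i - 1, by omega⟩, ?_⟩
          simp only [mem_filter, mem_univ, true_and]
          constructor
          · intro h'
            have := congrArg Fin.val h'
            simp at this
            omega
          · omega
      · omega
    simp only [card_univ, Fintype.card_fin] at h2
    unfold gg
    omega
  · rw [disjoint_left]
    intro v hv hv'
    simp only [mem_image, mem_univ, true_and] at hv hv'
    obtain ⟨a, rfl⟩ := hv
    obtain ⟨b, -, hb⟩ := hv'
    simp at hb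
  · rw [disjoint_left]
    intro v hv hv'
    simp only [mem_union, mem_image, mem_univ, true_and] at hv hv'
    obtain ⟨b, -, rfl⟩ := hv'
    rcases hv with ⟨a, ha⟩ | ⟨a, -, ha⟩
    · simp at ha
    · simp at ha

private theorem sum_gg (m u : ℕ) (hm : 0 < m) : ∑ i, gg m u i = u := by
  classical
  have h := card_eq_sum_card_fiberwise (s := (univ : Finset (Fin u))) (t := (univ : Finset (Fin m)))
    (f := fun w : Fin u => (⟨(w : ℕ) % m, Nat.mod_lt _ hm⟩ : Fin m)) (fun _ _ => mem_univ _)
  rw [card_univ, Fintype.card_fin] at h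
  refine Eq.trans ?_ h.symm
  refine sum_congr rfl fun i _ => ?_
  unfold gg
  have e : (univ.filter fun w : Fin u => (w : ℕ) % m = i) =
      (univ.filter fun w : Fin u => (⟨(w : ℕ) % m, Nat.mod_lt _ hm⟩ : Fin m) = i) := by
    ext w
    simp [Fin.ext_iff]
  rw [e]

private theorem sum_mm (m : ℕ) : ∑ i, mm m i = 2 * (m / 2) := by
  unfold mm
  rw [Fin.sum_univ_eq_sum_range (fun i => if i < 2 * (m / 2) then 1 else 0) m, ← card_filter]
  have : (range m).filter (fun i => i < 2 * (m / 2)) = range (2 * (m / 2)) := by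
    ext i
    simp only [mem_filter, mem_range]
    omega
  rw [this, card_range]

private theorem gg_ge (m u : ℕ) (hu : m * (m - 1) ≤ u) (i : Fin m) : m - 1 ≤ gg m u i := by
  classical
  have him := i.2
  let f : Fin (m - 1) → Fin u := fun j => ⟨i + m * j, by
    have hj := j.2
    have h1 : m * (j + 1) ≤ m * (m - 1) := Nat.mul_le_mul_left _ (by omega)
    have h2 : m * (j + 1) = m * j + m := by ring
    omega⟩
  have hf : Function.Injective f := by
    intro a b h
    have h1 := congrArg Fin.val h
    simp only [f] at h1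
    have h2 : m * (a : ℕ) = m * b := by omega
    exact Fin.ext (Nat.eq_of_mul_eq_mul_left (by omega) h2)
  have h1 : univ.image f ⊆ univ.filter fun w : Fin u => (w : ℕ) % m = i := by
    intro w hw
    simp only [mem_image, mem_univ, true_and, mem_filter] at hw ⊢
    obtain ⟨j, rfl⟩ := hw
    simp only [f]
    rw [Nat.add_mul_mod_self_left, Nat.mod_eq_of_lt him]
  have h2 := card_le_card h1
  rw [card_image_of_injective _ hf] at h2
  simpa [gg] using h2

theorem low_5 {n k : ℕ} (hk : 3 ≤ k) (hn : k * k + k + 1 ≤ n) :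
    Low n k 5 (2 * k * (n - k - 1) + ((k - 1) * (k - 2) - 2 * ((k - 1) / 2))) := by
  classical
  obtain ⟨m, rfl⟩ : ∃ m, k = m + 1 := ⟨k - 1, by omega⟩
  obtain ⟨u, rfl⟩ : ∃ u, n = u + m + 2 := ⟨n - m - 2, by
    have : m + 2 ≤ n := by nlinarith
    omega⟩
  have hm : 0 < m := by omega
  have hu : (m + 1) * (m + 1) ≤ u := by nlinarith
  have hmu : m * (m - 1) ≤ u := by
    have h1 : m * (m - 1) ≤ m * m := Nat.mul_le_mul_left _ (by omega)
    nlinarith
  have hcard : Fintype.card (Fin 2 ⊕ (Fin m ⊕ Fin u)) = u + m + 2 := by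
    simp; ring
  refine ⟨Fin 2 ⊕ (Fin m ⊕ Fin u), inferInstance, low5G m u, hcard, ?_, ?_, Sum.inl 0, Sum.inl 1,
    by simp, low5_no m u⟩
  · rintro (a | i | w)
    · exact low5_nb_inl m u a
    · have h1 := low5_nb_L m u i
      have h2 := gg_ge m u hmu i
      omega
    · have h1 := low5_nb_U m u hm w
      have : m + 1 ≤ (m + 1) * (m + 1) := by nlinarith
      omega
  · have h1 : te (low5G m u) + ∑ v, (nb (low5G m u) v).card + (u + m + 2) =
        (u + m + 2) * (u + m + 2) := by
      have h2 : ∑ v : Fin 2 ⊕ (Fin m ⊕ Fin u), ((nb (low5G m u) v).card + db (low5G m u) v + 1) =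
          ∑ v : Fin 2 ⊕ (Fin m ⊕ Fin u), (u + m + 2) :=
        sum_congr rfl fun v _ => by rw [nb_add_db, hcard]
      rw [sum_add_distrib, sum_add_distrib, sum_const, sum_const, card_univ, hcard] at h2
      simp only [smul_eq_mul, mul_one] at h2
      unfold te
      omega
    have h3 : 2 * (m + 1) + ∑ i : Fin m, (2 + mm m i + gg m u i) + u * u ≤
        ∑ v, (nb (low5G m u) v).card := by
      rw [Fintype.sum_sum_type, Fintype.sum_sum_type]
      have e1 : 2 * (m + 1) ≤ ∑ a : Fin 2, (nb (low5G m u) (Sum.inl a)).card := by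
        have := card_nsmul_le_sum (univ : Finset (Fin 2))
          (fun a => (nb (low5G m u) (Sum.inl a)).card) (m + 1) (fun a _ => low5_nb_inl m u a)
        simpa using this
      have e2 := sum_le_sum (fun i (_ : i ∈ (univ : Finset (Fin m))) => low5_nb_L m u i)
      have e3 : u * u ≤ ∑ w : Fin u, (nb (low5G m u) (Sum.inr (Sum.inr w))).card := by
        have := card_nsmul_le_sum (univ : Finset (Fin u))
          (fun w => (nb (low5G m u) (Sum.inr (Sum.inr w))).card) u (fun w _ => low5_nb_U m u hm w)
        simpa using this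
      omega
    rw [sum_add_distrib, sum_add_distrib, sum_const, card_univ, Fintype.card_fin, sum_gg m u hm,
      sum_mm, smul_eq_mul] at h3
    have e4 : u + m + 2 - (m + 1) - 1 = u := by omega
    have e5 : m + 1 - 1 = m := by omega
    have e6 : m + 1 - 2 = m - 1 := by omega
    rw [e4, e5, e6]
    obtain ⟨q, rfl⟩ : ∃ q, m = q + 1 := ⟨m - 1, by omega⟩
    have e7 : q + 1 - 1 = q := by omega
    rw [e7]
    have e8 : 2 * ((q + 1) / 2) ≤ (q + 1) * q := by
      have : 2 * ((q + 1) / 2) ≤ q + 1 := Nat.mul_div_le _ _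
      have hq : 1 ≤ q := by omega
      nlinarith
    generalize hH : (q + 1) / 2 = H at *
    have key : 2 * (q + 1 + 1) * u + (q + 1) * q + 2 * (q + 1 + 1) + ((q + 1) * 2 + 2 * H + u) +
        u * u + (u + (q + 1) + 2) = (u + (q + 1) + 2) * (u + (q + 1) + 2) + 2 * H := by ring
    omega

end Pool.MP40
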