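import Pool.Agent.Lib.MP_40d15f_co.LowDef

/-!
# MP_40d15f_co : the construction for `i = 6`
-/

set_option autoImplicit false

open Finset

namespace Pool.MP40


section Low6

/-- adjacency of the classes -/
private def low6M : Fin 4 → Fin 4 → Bool :=
  ![![true, true, false, false], ![true, false, true, false], ![false, true, false, true],
    ![false, false, true, true]]

private theorem low6M_symm : ∀ a b, low6M a b = low6M b a := by decide

/-- blow-up of the class graph -/
private def low6G (s : Fin 4 → ℕ) : SimpleGraph (Σ c : Fin 4, Fin (s c)) where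
  Adj v w := v ≠ w ∧ low6M v.1 w.1 = true
  symm := ⟨fun v w h => ⟨h.1.symm, by rw [low6M_symm]; exact h.2⟩⟩
  loopless := ⟨fun v h => h.1 rfl⟩

private theorem low6_card (s : Fin 4 → ℕ) (P : Fin 4 → Bool) :
    (univ.filter fun w : (Σ c : Fin 4, Fin (s c)) => P w.1 = true).card =
      ∑ c, if P c = true then s c else 0 := by
  rw [Finset.card_filter, Fintype.sum_sigma]
  refine Finset.sum_congr rfl fun c _ => ?_
  by_cases h : P c = true
  · simp [h]
  · simp [h]

private theorem low6_nonb (s : Fin 4 → ℕ) (v : Σ c : Fin 4, Fin (s c)) :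
    db (low6G s) v = (∑ c, if (!low6M v.1 c) = true then s c else 0) -
      (if low6M v.1 v.1 = true then 0 else 1) := by
  classical
  rw [← low6_card s (fun c => !low6M v.1 c)]
  unfold db
  by_cases h : low6M v.1 v.1 = true
  · rw [if_pos h, Nat.sub_zero]
    congr 1
    ext w
    rw [mem_nonb]
    simp only [low6G, mem_filter, mem_univ, true_and, Bool.not_eq_true', ne_eq, not_and,
      Bool.not_eq_true]
    constructor
    · rintro ⟨h1, h2⟩
      exact h2 (fun e => h1 e.symm)
    · intro h1
      refine ⟨?_, fun _ => h1⟩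
      rintro rfl
      rw [h] at h1; exact Bool.noConfusion h1
  · rw [if_neg h, ← Finset.card_erase_of_mem (a := v)
      (by simpa [mem_filter] using h)]
    congr 1
    ext w
    rw [mem_nonb]
    simp only [low6G, mem_erase, mem_filter, mem_univ, true_and, Bool.not_eq_true', ne_eq, not_and,
      Bool.not_eq_true]
    constructor
    · rintro ⟨h1, h2⟩
      exact ⟨h1, h2 (fun e => h1 e.symm)⟩
    · rintro ⟨h1, h2⟩
      exact ⟨h1, fun _ => h2⟩

theorem low_6 {n k : ℕ} (hk : 5 ≤ k) (hn : 2 * k + 2 ≤ n) :
    Low n k 6 (2 * ((k + 1) * n - k * (k + 3))) := by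
  classical
  obtain ⟨m, rfl⟩ : ∃ m, k = m + 1 := ⟨k - 1, by omega⟩
  obtain ⟨r, rfl⟩ : ∃ r, n = 2 * (m + 1) + 2 + r := ⟨n - (2 * (m + 1) + 2), by omega⟩
  set s : Fin 4 → ℕ := ![2, m, m, r + 2] with hs
  have hdb : ∀ c : Fin 4, ∀ i : Fin (s c), db (low6G s) ⟨c, i⟩ =
      (![m + r + 2, m + r + 1, m + 1, m + 2] : Fin 4 → ℕ) c := by
    intro c i
    rw [low6_nonb]
    fin_cases c <;> simp [Fin.sum_univ_four, low6M, hs] <;> omega
  have hcard : Fintype.card (Σ c : Fin 4, Fin (s c)) = 2 * (m + 1) + 2 + r := by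
    rw [Fintype.card_sigma]
    simp [Fin.sum_univ_four, hs]
    omega
  refine ⟨Σ c : Fin 4, Fin (s c), inferInstance, low6G s, hcard, ?_, ?_, ?_⟩
  · rintro ⟨c, i⟩
    rw [nb_card_eq, hdb, hcard]
    fin_cases c <;> simp <;> omega
  · unfold te
    rw [Fintype.sum_sigma]
    have : ∀ c ∈ (univ : Finset (Fin 4)), ∑ i : Fin (s c), db (low6G s) ⟨c, i⟩ =
        s c * (![m + r + 2, m + r + 1, m + 1, m + 2] : Fin 4 → ℕ) c := by
      intro c _
      rw [Finset.sum_congr rfl fun i _ => hdb c i]
      simp
    rw [Finset.sum_congr rfl this]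
    simp only [Fin.sum_univ_four, hs]
    simp only [Matrix.cons_val_zero, Matrix.cons_val_one, Matrix.cons_val]
    have e : (m + 1 + 1) * (2 * (m + 1) + 2 + r) - (m + 1) * (m + 1 + 3) =
        m * m + m * r + 3 * m + 2 * r + 4 := by
      have : (m + 1 + 1) * (2 * (m + 1) + 2 + r) =
        m * m + m * r + 3 * m + 2 * r + 4 + (m + 1) * (m + 1 + 3) := by ring
      omega
    rw [e]
    apply le_of_eq
    ring
  · refine ⟨⟨0, (0 : Fin 2)⟩, ⟨0, (1 : Fin 2)⟩, ?_, ?_⟩
    · intro h
      rw [Sigma.mk.injEq] at h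
      have h2 : (0 : Fin 2) = 1 := eq_of_heq h.2
      exact absurd h2 (by decide)
    · rintro ⟨l, hl, hlen⟩
      have h0 : ∀ i : Fin (s 0), i = (0 : Fin 2) ∨ i = (1 : Fin 2) := by
        intro i
        have : ∀ j : Fin 2, j = 0 ∨ j = 1 := by decide
        exact this i
      match l, hlen, hl with
      | [a, p, q, r', t, b], _, hl =>
        obtain ⟨nd, ch, hd, lt⟩ := hl
        simp only [List.head?_cons, Option.some.injEq] at hd
        simp only [List.getLast?_cons_cons, List.getLast?_singleton, Option.some.injEq] at lt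
        simp only [List.isChain_cons_cons, List.isChain_singleton, and_true] at ch
        simp only [List.nodup_cons, List.mem_cons, List.not_mem_nil, or_false, not_or] at nd
        obtain ⟨h1, h2, h3, h4, h5⟩ := ch
        subst hd; subst lt
        obtain ⟨cp, ip⟩ := p
        obtain ⟨cq, iq⟩ := q
        obtain ⟨cr, ir⟩ := r'
        obtain ⟨ct, it⟩ := t
        have hp0 : cp ≠ 0 := by
          rintro rfl
          rcases h0 ip with h | h <;> subst h
          · exact nd.1.1 rfl
          · exact nd.2.1.2.2.2 rfl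
        have hq0 : cq ≠ 0 := by
          rintro rfl
          rcases h0 iq with h | h <;> subst h
          · exact nd.1.2.1 rfl
          · exact nd.2.2.1.2.2 rfl
        have hr0 : cr ≠ 0 := by
          rintro rfl
          rcases h0 ir with h | h <;> subst h
          · exact nd.1.2.2.1 rfl
          · exact nd.2.2.2.1.2 rfl
        have ht0 : ct ≠ 0 := by
          rintro rfl
          rcases h0 it with h | h <;> subst h
          · exact nd.1.2.2.2.1 rfl
          · exact nd.2.2.2.2.1 rfl
        have key : ∀ a b c d : Fin 4, a ≠ 0 → b ≠ 0 → c ≠ 0 → d ≠ 0 → low6M 0 a = true →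
            low6M a b = true → low6M b c = true → low6M c d = true → low6M d 0 = true →
            False := by decide
        exact key cp cq cr ct hp0 hq0 hr0 ht0 h1.2 h2.2 h3.2 h4.2 h5.2

end Low6

end Pool.MP40
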