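import Pool.Agent.Lib.MP_40d15f_co.LowDef

/-!
# MP_40d15f_co : piece C4 (low_bridge, low_cut)
-/

set_option autoImplicit false

open Finset

namespace Pool.MP40


/-- two cliques and a set of edges between them -/
private def lcG (a b : ℕ) (r : Fin a → Fin b → Prop) : SimpleGraph (Fin a ⊕ Fin b) where
  Adj u v := match u, v with
    | .inl x, .inl y => x ≠ y
    | .inr x, .inr y => x ≠ y
    | .inl x, .inr y => r x y
    | .inr y, .inl x => r x y
  symm := ⟨by
    intro u v h
    rcases u with x | x <;> rcases v with y | y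
    · exact fun h' => h h'.symm
    · exact h
    · exact h
    · exact fun h' => h h'.symm⟩
  loopless := ⟨by
    intro u h
    rcases u with x | x
    · exact h rfl
    · exact h rfl⟩

private theorem lcG_ll {a b : ℕ} {r : Fin a → Fin b → Prop} {x y : Fin a} :
    (lcG a b r).Adj (.inl x) (.inl y) ↔ x ≠ y := Iff.rfl

private theorem lcG_rr {a b : ℕ} {r : Fin a → Fin b → Prop} {x y : Fin b} :
    (lcG a b r).Adj (.inr x) (.inr y) ↔ x ≠ y := Iff.rfl

private theorem lcG_lr {a b : ℕ} {r : Fin a → Fin b → Prop} {x : Fin a} {y : Fin b} :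
    (lcG a b r).Adj (.inl x) (.inr y) ↔ r x y := Iff.rfl

private theorem lcG_rl {a b : ℕ} {r : Fin a → Fin b → Prop} {x : Fin a} {y : Fin b} :
    (lcG a b r).Adj (.inr y) (.inl x) ↔ r x y := Iff.rfl

private theorem lcG_nbl {a b : ℕ} {r : Fin a → Fin b → Prop} [∀ x y, Decidable (r x y)]
    (x : Fin a) :
    (nb (lcG a b r) (.inl x)).card = (a - 1) + (univ.filter fun y => r x y).card := by
  have h1 : nb (lcG a b r) (.inl x) =
      ((univ : Finset (Fin a)).erase x).disjSum (univ.filter fun y => r x y) := by
    ext v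
    rcases v with y | y
    · rw [mem_nb, lcG_ll, Finset.inl_mem_disjSum, mem_erase]
      simp [eq_comm]
    · rw [mem_nb, lcG_lr, Finset.inr_mem_disjSum, mem_filter]
      simp
  rw [h1, Finset.card_disjSum, card_erase_of_mem (mem_univ x), card_univ, Fintype.card_fin]

private theorem lcG_nbr {a b : ℕ} {r : Fin a → Fin b → Prop} [∀ x y, Decidable (r x y)]
    (y : Fin b) :
    (nb (lcG a b r) (.inr y)).card = (univ.filter fun x => r x y).card + (b - 1) := by
  have h1 : nb (lcG a b r) (.inr y) =
      (univ.filter fun x => r x y).disjSum ((univ : Finset (Fin b)).erase y) := by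
    ext v
    rcases v with x | x
    · rw [mem_nb, lcG_rl, Finset.inl_mem_disjSum, mem_filter]
      simp
    · rw [mem_nb, lcG_rr, Finset.inr_mem_disjSum, mem_erase]
      simp [eq_comm]
  rw [h1, Finset.card_disjSum, card_erase_of_mem (mem_univ y), card_univ, Fintype.card_fin]

/-- a chain that starts on the left side and avoids the connecting vertex stays there -/
private theorem lcG_stayl {a b : ℕ} {r : Fin a → Fin b → Prop} {z : Fin a}
    (hr : ∀ x y, r x y → x = z) : ∀ (l : List (Fin a ⊕ Fin b)) (x : Fin a),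
    (Sum.inl x :: l).IsChain (lcG a b r).Adj → Sum.inl z ∉ (Sum.inl x :: l) →
    ∀ v ∈ (Sum.inl x :: l : List (Fin a ⊕ Fin b)), v.isLeft
  | [], x, _, _ => by simp
  | .inl y :: l, x, hc, hz => by
    rw [List.isChain_cons_cons] at hc
    have := lcG_stayl hr l y hc.2 (fun h => hz (List.mem_cons_of_mem _ h))
    intro v hv
    rcases List.mem_cons.1 hv with rfl | hv
    · rfl
    · exact this v hv
  | .inr y :: l, x, hc, hz => by
    rw [List.isChain_cons_cons] at hc
    exact absurd (by rw [hr x y hc.1]; simp) hz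

/-- a chain that starts on the right side and avoids the connecting vertex stays there -/
private theorem lcG_stayr {a b : ℕ} {r : Fin a → Fin b → Prop} {z : Fin b}
    (hr : ∀ x y, r x y → y = z) : ∀ (l : List (Fin a ⊕ Fin b)) (y : Fin b),
    (Sum.inr y :: l).IsChain (lcG a b r).Adj → Sum.inr z ∉ (Sum.inr y :: l) →
    ∀ v ∈ (Sum.inr y :: l : List (Fin a ⊕ Fin b)), v.isRight
  | [], x, _, _ => by simp
  | .inr y :: l, x, hc, hz => by
    rw [List.isChain_cons_cons] at hc
    have := lcG_stayr hr l y hc.2 (fun h => hz (List.mem_cons_of_mem _ h))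
    intro v hv
    rcases List.mem_cons.1 hv with rfl | hv
    · rfl
    · exact this v hv
  | .inl y :: l, x, hc, hz => by
    rw [List.isChain_cons_cons] at hc
    exact absurd (by rw [hr y x hc.1]; simp) hz

/-- two cliques joined by one edge -/
theorem low_bridge {n k i : ℕ} (hk : 3 ≤ k) (hn : 2 * k + 2 ≤ n) (hi : 3 ≤ i) :
    Low n k i (2 * ((k + 1) * (n - k - 1) - 1)) := by
  classical
  obtain ⟨m, rfl⟩ : ∃ m, n = k + 1 + (m + 1) := ⟨n - k - 2, by omega⟩
  have hm : k ≤ m := by omega
  set r : Fin (k + 1) → Fin (m + 1) → Prop := fun x y => x = 0 ∧ y = 0 with hr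
  have hcard : Fintype.card (Fin (k + 1) ⊕ Fin (m + 1)) = k + 1 + (m + 1) := by
    rw [Fintype.card_sum, Fintype.card_fin, Fintype.card_fin]
  refine ⟨Fin (k + 1) ⊕ Fin (m + 1), inferInstance, lcG _ _ r, hcard, ?_, ?_, ?_⟩
  · rintro (x | y)
    · rw [lcG_nbl]; omega
    · rw [lcG_nbr]; omega
  · have h1 : ∀ x : Fin (k + 1), (univ.filter fun y => r x y).card = if x = 0 then 1 else 0 := by
      intro x
      by_cases hx : x = 0
      · rw [if_pos hx, Finset.card_eq_one]
        exact ⟨0, by ext y; simp [hr, hx]⟩
      · rw [if_neg hx, Finset.card_eq_zero]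
        ext y; simp [hr, hx]
    have h2 : ∀ y : Fin (m + 1), (univ.filter fun x => r x y).card = if y = 0 then 1 else 0 := by
      intro y
      by_cases hy : y = 0
      · rw [if_pos hy, Finset.card_eq_one]
        exact ⟨0, by ext y; simp [hr, hy]⟩
      · rw [if_neg hy, Finset.card_eq_zero]
        ext y; simp [hr, hy]
    have h3 : ∀ x : Fin (k + 1), db (lcG _ _ r) (.inl x) + (if x = 0 then 1 else 0) = m + 1 := by
      intro x
      have e1 := nb_add_db (G := lcG _ _ r) (.inl x)
      rw [lcG_nbl, h1, hcard] at e1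
      omega
    have h4 : ∀ y : Fin (m + 1), db (lcG _ _ r) (.inr y) + (if y = 0 then 1 else 0) = k + 1 := by
      intro y
      have e1 := nb_add_db (G := lcG _ _ r) (.inr y)
      rw [lcG_nbr, h2, hcard] at e1
      omega
    have h5 := Finset.sum_congr (s₁ := univ) rfl fun x _ => h3 x
    have h6 := Finset.sum_congr (s₁ := univ) rfl fun x _ => h4 x
    rw [sum_add_distrib, Finset.sum_ite_eq' univ (0 : Fin (k + 1)) (fun _ => 1), sum_const,
      card_univ, Fintype.card_fin, smul_eq_mul, if_pos (mem_univ _)] at h5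
    rw [sum_add_distrib, Finset.sum_ite_eq' univ (0 : Fin (m + 1)) (fun _ => 1), sum_const,
      card_univ, Fintype.card_fin, smul_eq_mul, if_pos (mem_univ _)] at h6
    have h7 : te (lcG (k + 1) (m + 1) r) = ∑ x, db (lcG _ _ r) (.inl x) +
        ∑ y, db (lcG _ _ r) (.inr y) := by
      rw [te, Fintype.sum_sum_type]
    have h8 : k + 1 + (m + 1) - k - 1 = m + 1 := by omega
    rw [h7, h8]
    have h9 : (m + 1) * (k + 1) = (k + 1) * (m + 1) := mul_comm _ _
    omega
  · refine ⟨.inl 0, .inr 0, by simp, ?_⟩
    rintro ⟨l, hl, hli⟩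
    obtain ⟨nd, ch, hd, lt⟩ := hl
    match l, nd, ch, hd, lt, hli with
    | [], _, _, hd, _, _ => simp at hd
    | [u], _, _, _, _, hli => simp at hli; omega
    | u :: v :: l, nd, ch, hd, lt, hli =>
      simp at hd
      subst hd
      rw [List.isChain_cons_cons] at ch
      obtain ⟨hadj, ch⟩ := ch
      rcases v with v | v
      · have h1 := lcG_stayl (r := r) (z := 0) (fun x y h => h.1) l v ch (List.nodup_cons.1 nd).1
        have h2 : Sum.inr 0 ∈ (Sum.inl v :: l : List (Fin (k + 1) ⊕ Fin (m + 1))) := by
          rw [List.getLast?_cons_cons] at lt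
          exact List.mem_of_getLast? lt
        have := h1 _ h2
        simp at this
      · have hv : v = 0 := hadj.2
        subst hv
        cases l with
        | nil => simp at hli; omega
        | cons w l =>
          rw [List.getLast?_cons_cons, List.getLast?_cons_cons] at lt
          have h2 := List.mem_of_getLast? lt
          exact (List.nodup_cons.1 (List.nodup_cons.1 nd).2).1 h2

/-- two cliques sharing a vertex -/
theorem low_cut {n k i : ℕ} (hk : 3 ≤ k) (hn : 2 * k + 2 ≤ n) (hi : k + 2 ≤ i) :
    Low n k i (2 * (k * (n - k - 1))) := by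
  classical
  obtain ⟨m, rfl⟩ : ∃ m, n = k + (m + 1) := ⟨n - k - 1, by omega⟩
  have hm : k + 1 ≤ m := by omega
  set r : Fin k → Fin (m + 1) → Prop := fun x y => y = 0 with hr
  have hcard : Fintype.card (Fin k ⊕ Fin (m + 1)) = k + (m + 1) := by
    rw [Fintype.card_sum, Fintype.card_fin, Fintype.card_fin]
  have h1 : ∀ x : Fin k, (univ.filter fun y => r x y).card = 1 := by
    intro x
    rw [Finset.card_eq_one]
    exact ⟨0, by ext y; simp [hr]⟩
  have h2 : ∀ y : Fin (m + 1), (univ.filter fun x => r x y).card = if y = 0 then k else 0 := by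
    intro y
    by_cases hy : y = 0
    · simp [hr, hy]
    · simp [hr, hy]
  refine ⟨Fin k ⊕ Fin (m + 1), inferInstance, lcG _ _ r, hcard, ?_, ?_, ?_⟩
  · rintro (x | y)
    · rw [lcG_nbl, h1 x]; omega
    · rw [lcG_nbr]; omega
  · have h3 : ∀ x : Fin k, db (lcG _ _ r) (.inl x) = m := by
      intro x
      have e1 := nb_add_db (G := lcG _ _ r) (.inl x)
      rw [lcG_nbl, h1 x, hcard] at e1
      omega
    have h4 : ∀ y : Fin (m + 1), db (lcG _ _ r) (.inr y) + (if y = 0 then k else 0) = k := by
      intro y
      have e1 := nb_add_db (G := lcG _ _ r) (.inr y)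
      rw [lcG_nbr, h2, hcard] at e1
      omega
    have h5 := Finset.sum_congr (s₁ := univ) rfl fun x _ => h3 x
    have h6 := Finset.sum_congr (s₁ := univ) rfl fun x _ => h4 x
    rw [sum_const, card_univ, Fintype.card_fin, smul_eq_mul] at h5
    rw [sum_add_distrib, Finset.sum_ite_eq' univ (0 : Fin (m + 1)) (fun _ => k), sum_const,
      card_univ, Fintype.card_fin, smul_eq_mul, if_pos (mem_univ _)] at h6
    have h7 : te (lcG k (m + 1) r) = ∑ x, db (lcG _ _ r) (.inl x) +
        ∑ y, db (lcG _ _ r) (.inr y) := by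
      rw [te, Fintype.sum_sum_type]
    have h8 : k + (m + 1) - k - 1 = m := by omega
    rw [h7, h8, h5]
    have h9 : (m + 1) * k = k * m + k := by ring
    omega
  · refine ⟨.inl ⟨0, by omega⟩, .inl ⟨1, by omega⟩, by simp, ?_⟩
    rintro ⟨l, hl, hli⟩
    -- some vertex outside the first clique
    have h3 : ∃ y : Fin (m + 1), y ≠ 0 ∧ Sum.inr y ∈ l := by
      by_contra hcon
      push Not at hcon
      have h4 : l.toFinset ⊆ insert (Sum.inr 0)
          ((univ : Finset (Fin k)).map Function.Embedding.inl) := by
        intro v hv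
        rw [List.mem_toFinset] at hv
        rcases v with x | y
        · simp
        · by_cases hy : y = 0
          · simp [hy]
          · exact absurd hv (hcon y hy)
      have h5 := card_le_card h4
      rw [List.toFinset_card_of_nodup hl.nd, hli] at h5
      have h6 := (card_insert_le (Sum.inr (0 : Fin (m + 1)))
        ((univ : Finset (Fin k)).map (Function.Embedding.inl (α := Fin k) (β := Fin (m + 1)))))
      rw [card_map, card_univ, Fintype.card_fin] at h6
      omega
    obtain ⟨y, hy, hyl⟩ := h3
    obtain ⟨α, β, rfl⟩ := List.append_of_mem hyl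
    -- the connecting vertex lies in `β` and in `α`
    have key : ∀ (γ : List (Fin k ⊕ Fin (m + 1))) (e : Fin k),
        (Sum.inr y :: γ).IsChain (lcG k (m + 1) r).Adj →
        (Sum.inr y :: γ).getLast? = some (Sum.inl e) → Sum.inr 0 ∈ γ := by
      intro γ e hc hlast
      by_contra hcon
      have h4 := lcG_stayr (r := r) (z := 0) (fun x y h => h) γ y hc (by
        rw [List.mem_cons, not_or]
        exact ⟨fun h => hy (Sum.inr_injective h).symm, hcon⟩)
      have h5 := h4 _ (List.mem_of_getLast? hlast)
      simp at h5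
    have hβ : Sum.inr 0 ∈ β := by
      refine key β ⟨1, by omega⟩ (List.isChain_append.1 hl.ch).2.1 ?_
      have := hl.lt
      rw [List.getLast?_append] at this
      have e : (Sum.inr y :: β).getLast? = some ((Sum.inr y :: β).getLast (by simp)) :=
        List.getLast?_eq_some_getLast _
      rw [e] at this ⊢
      simpa using this
    have hα : Sum.inr 0 ∈ α.reverse := by
      have h4 := hl.reverse
      rw [List.reverse_append, List.reverse_cons, List.append_assoc, List.singleton_append] at h4
      refine key α.reverse ⟨0, by omega⟩ (List.isChain_append.1 h4.ch).2.1 ?_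
      have := h4.lt
      rw [List.getLast?_append] at this
      have e : (Sum.inr y :: α.reverse).getLast? = some ((Sum.inr y :: α.reverse).getLast (by simp)) :=
        List.getLast?_eq_some_getLast _
      rw [e] at this ⊢
      simpa using this
    rw [List.mem_reverse] at hα
    have h4 := (List.nodup_append.1 hl.nd).2.2 _ hα _ (List.mem_cons_of_mem _ hβ)
    exact h4 rfl

end Pool.MP40
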