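import Pool.Agent.Lib.MP_40d15f_co.Count

/-!
# MP_40d15f_co : the definition of `Low`
-/

set_option autoImplicit false

open Finset

namespace Pool.MP40

/-- there is a graph of order `n` and minimum degree at least `k`, with at most `t` ordered pairs
of distinct non-adjacent vertices, that does not satisfy `P_i` -/
def Low (n k i t : ℕ) : Prop :=
  ∃ (V : Type) (_ : Fintype V) (G : SimpleGraph V), Fintype.card V = n ∧
    (∀ v, k ≤ (nb G v).card) ∧ te G ≤ t ∧ ∃ x y, x ≠ y ∧ ¬ HasXY G i x y

end Pool.MP40
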