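import Pool.Agent.Lib.MP_40d15f_co.LowDef

/-!
# MP_40d15f_co : constructions `low_two`, `low_n`
-/

set_option autoImplicit false

open Finset

namespace Pool.MP40


/-- the class of a vertex -/
private def lowTwoCl (A B C : Type) : A ⊕ (B ⊕ C) → Fin 3
  | Sum.inl _ => 0
  | Sum.inr (Sum.inl _) => 1
  | Sum.inr (Sum.inr _) => 2

/-- blow-up of a pattern on three classes -/
private def lowTwoGraph (A B C : Type) (r : Fin 3 → Fin 3 → Bool) (hr : ∀ i j, r i j = r j i) :
    SimpleGraph (A ⊕ (B ⊕ C)) where
  Adj u v := u ≠ v ∧ r (lowTwoCl A B C u) (lowTwoCl A B C v) = true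
  symm := ⟨fun _ _ h => ⟨h.1.symm, (hr _ _).trans h.2⟩⟩
  loopless := ⟨fun _ h => h.1 rfl⟩

private theorem lowTwo_db {a b c : ℕ} (r : Fin 3 → Fin 3 → Bool) (hr : ∀ i j, r i j = r j i)
    (v : Fin a ⊕ (Fin b ⊕ Fin c)) :
    db (lowTwoGraph (Fin a) (Fin b) (Fin c) r hr) v +
      (if r (lowTwoCl _ _ _ v) (lowTwoCl _ _ _ v) = true then 0 else 1) =
    (if r (lowTwoCl _ _ _ v) 0 = true then 0 else a) +
      ((if r (lowTwoCl _ _ _ v) 1 = true then 0 else b) +
        (if r (lowTwoCl _ _ _ v) 2 = true then 0 else c)) := by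
  classical
  have h1 : db (lowTwoGraph (Fin a) (Fin b) (Fin c) r hr) v +
      (if r (lowTwoCl _ _ _ v) (lowTwoCl _ _ _ v) = true then 0 else 1) =
      (univ.filter fun w : Fin a ⊕ (Fin b ⊕ Fin c) =>
        r (lowTwoCl _ _ _ v) (lowTwoCl _ _ _ w) = false).card := by
    unfold db
    by_cases hv : r (lowTwoCl _ _ _ v) (lowTwoCl _ _ _ v) = true
    · rw [if_pos hv, add_zero]
      refine congrArg Finset.card (Finset.ext fun w => ?_)
      rw [mem_nonb]
      simp only [mem_filter, mem_univ, true_and, lowTwoGraph]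
      constructor
      · rintro ⟨h1, h2⟩
        by_contra h3
        exact h2 ⟨h1.symm, by simpa using h3⟩
      · intro h1
        refine ⟨?_, fun h => by simp [h1] at h⟩
        rintro rfl
        simp [hv] at h1
    · rw [if_neg hv]
      have h2 : (univ.filter fun w : Fin a ⊕ (Fin b ⊕ Fin c) =>
          r (lowTwoCl _ _ _ v) (lowTwoCl _ _ _ w) = false) = insert v
          (nonb (lowTwoGraph (Fin a) (Fin b) (Fin c) r hr) v) := by
        refine Finset.ext fun w => ?_
        rw [mem_insert, mem_nonb]
        simp only [mem_filter, mem_univ, true_and, lowTwoGraph]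
        constructor
        · intro h
          by_cases hw : w = v
          · exact Or.inl hw
          · exact Or.inr ⟨hw, fun h' => by simp [h] at h'⟩
        · rintro (rfl | ⟨h1, h2⟩)
          · simpa using hv
          · by_contra h3
            exact h2 ⟨fun h => h1 h.symm, by simpa using h3⟩
      rw [h2, Finset.card_insert_of_notMem (by simp [mem_nonb])]
  rw [h1, Finset.card_filter, Fintype.sum_sum_type, Fintype.sum_sum_type]
  generalize lowTwoCl _ _ _ v = i
  have e0 : ∀ x : Fin a, lowTwoCl (Fin a) (Fin b) (Fin c) (Sum.inl x) = 0 := fun _ => rfl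
  have e1 : ∀ x : Fin b, lowTwoCl (Fin a) (Fin b) (Fin c) (Sum.inr (Sum.inl x)) = 1 := fun _ => rfl
  have e2 : ∀ x : Fin c, lowTwoCl (Fin a) (Fin b) (Fin c) (Sum.inr (Sum.inr x)) = 2 := fun _ => rfl
  simp only [e0, e1, e2]
  refine congrArg₂ (· + ·) ?_ (congrArg₂ (· + ·) ?_ ?_)
  · cases r i 0 <;> simp
  · cases r i 1 <;> simp
  · cases r i 2 <;> simp

/-! ### two cliques sharing two vertices -/

private def lowTwoR : Fin 3 → Fin 3 → Bool := fun i j => !(i == 0 && j == 1) && !(i == 1 && j == 0)

private theorem lowTwo_r (i j : Fin 3) : lowTwoR i j = lowTwoR j i := by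
  revert i j; decide

/-- a chain that avoids class 2 stays in the class of its head -/
private theorem lowTwo_stay {a b c : ℕ} :
    ∀ (l : List (Fin a ⊕ (Fin b ⊕ Fin c))) (i : Fin 3),
      l.IsChain (lowTwoGraph (Fin a) (Fin b) (Fin c) lowTwoR lowTwo_r).Adj →
      (∀ v ∈ l, lowTwoCl _ _ _ v ≠ 2) → (∀ v, l.head? = some v → lowTwoCl _ _ _ v = i) →
      ∀ v ∈ l, lowTwoCl _ _ _ v = i
  | [], _, _, _, _ => by simp
  | [u], i, _, _, h => by
    intro v hv
    simp at hv
    subst hv
    exact h v rfl
  | u :: w :: l, i, hc, h2, h => by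
    rw [List.isChain_cons_cons] at hc
    have hu : lowTwoCl _ _ _ u = i := h u rfl
    have hw : lowTwoCl _ _ _ w = i := by
      have h3 := hc.1.2
      have h4 := h2 u (by simp)
      have h5 := h2 w (by simp)
      rw [← hu]
      revert h3 h4 h5
      generalize lowTwoCl _ _ _ u = p
      generalize lowTwoCl _ _ _ w = q
      revert p q
      decide
    have ih := lowTwo_stay (w :: l) i hc.2 (fun v hv => h2 v (List.mem_cons_of_mem _ hv))
      (fun v hv => by simp at hv; rw [← hv]; exact hw)
    intro v hv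
    rcases List.mem_cons.1 hv with rfl | hv
    · exact hu
    · exact ih v hv

private theorem lowTwo_len {V : Type} [Fintype V] [DecidableEq V] {l : List V} (hl : l.Nodup)
    (P : V → Prop) [DecidablePred P] (h : ∀ v ∈ l, P v) : l.length ≤ (univ.filter P).card := by
  rw [← List.toFinset_card_of_nodup hl]
  refine Finset.card_le_card fun v hv => ?_
  rw [mem_filter]
  exact ⟨mem_univ _, h v (List.mem_toFinset.1 hv)⟩

private theorem lowTwo_card0 (a b c : ℕ) :
    (univ.filter fun v : Fin a ⊕ (Fin b ⊕ Fin c) => lowTwoCl _ _ _ v = 0).card = a := by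
  rw [Finset.card_filter, Fintype.sum_sum_type, Fintype.sum_sum_type]
  simp [lowTwoCl]

private theorem lowTwo_card1 (a b c : ℕ) :
    (univ.filter fun v : Fin a ⊕ (Fin b ⊕ Fin c) => lowTwoCl _ _ _ v = 1).card = b := by
  rw [Finset.card_filter, Fintype.sum_sum_type, Fintype.sum_sum_type]
  simp [lowTwoCl]

private theorem lowTwo_card2 (a b c : ℕ) :
    (univ.filter fun v : Fin a ⊕ (Fin b ⊕ Fin c) => lowTwoCl _ _ _ v = 2).card = c := by
  rw [Finset.card_filter, Fintype.sum_sum_type, Fintype.sum_sum_type]
  simp [lowTwoCl]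

/-- two cliques sharing two vertices -/
theorem low_two {n k q i : ℕ} (hk : 3 ≤ k) (hq : k ≤ q + 1) (hn : q + k + 2 ≤ n) (hi : q + 3 ≤ i)
    (hi' : n - q + 1 ≤ i) : Low n k i (2 * (q * (n - q - 2))) := by
  classical
  obtain ⟨m, rfl⟩ : ∃ m, n = q + m + 2 := ⟨n - q - 2, by omega⟩
  have hm : q + m + 2 - q - 2 = m := by omega
  rw [hm]
  set G := lowTwoGraph (Fin q) (Fin m) (Fin 2) lowTwoR lowTwo_r with hG
  have hdb := lowTwo_db (a := q) (b := m) (c := 2) lowTwoR lowTwo_r
  rw [← hG] at hdb
  have hA : ∀ v : Fin q, db G (Sum.inl v) = m := by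
    intro v
    have := hdb (Sum.inl v)
    simpa [lowTwoCl, lowTwoR] using this
  have hB : ∀ v : Fin m, db G (Sum.inr (Sum.inl v)) = q := by
    intro v
    have := hdb (Sum.inr (Sum.inl v))
    simpa [lowTwoCl, lowTwoR] using this
  have hC : ∀ v : Fin 2, db G (Sum.inr (Sum.inr v)) = 0 := by
    intro v
    have := hdb (Sum.inr (Sum.inr v))
    simpa [lowTwoCl, lowTwoR] using this
  refine ⟨Fin q ⊕ (Fin m ⊕ Fin 2), inferInstance, G, by simp; omega, ?_, ?_,
    Sum.inr (Sum.inr 0), Sum.inr (Sum.inr 1), by simp, ?_⟩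
  · intro v
    have h := nb_add_db (G := G) v
    simp only [Fintype.card_sum, Fintype.card_fin] at h
    rcases v with v | v | v
    · rw [hA] at h; omega
    · rw [hB] at h; omega
    · rw [hC] at h; omega
  · unfold te
    rw [Fintype.sum_sum_type, Fintype.sum_sum_type]
    simp only [hA, hB, hC, Finset.sum_const, Finset.card_univ, Fintype.card_fin, smul_eq_mul]
    apply le_of_eq
    ring
  · rintro ⟨l, hl, hli⟩
    obtain ⟨nd, ch, hd, lt⟩ := hl
    -- remove the first and the last vertex
    cases l with
    | nil => simp at hd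
    | cons x l =>
      simp at hd
      subst hd
      rw [List.nodup_cons] at nd
      have hl0 : l ≠ [] := by
        rintro rfl
        simp at lt
      obtain ⟨l', y, rfl⟩ : ∃ l' y, l = l' ++ [y] :=
        ⟨l.dropLast, l.getLast hl0, (List.dropLast_append_getLast hl0).symm⟩
      have hy : y = Sum.inr (Sum.inr 1) := by
        simpa [List.getLast?_cons, List.getLast?_append] using lt
      subst hy
      have nd2 := nd.2
      rw [List.nodup_append] at nd2
      have ch2 : l'.IsChain G.Adj := by
        have := ch.tail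
        rw [List.tail_cons, List.isChain_append] at this
        exact this.1
      have h2 : ∀ v ∈ l', lowTwoCl _ _ _ v ≠ 2 := by
        intro v hv h
        rcases v with v | v | v
        · simp [lowTwoCl] at h
        · simp [lowTwoCl] at h
        · fin_cases v
          · exact nd.1 (List.mem_append_left _ hv)
          · exact nd2.2.2 _ hv _ (by simp) rfl
      have hlen : l'.length + 2 = i := by
        rw [← hli]; simp
      cases h0 : l'.head? with
      | none =>
        rw [List.head?_eq_none_iff] at h0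
        rw [h0] at hlen
        simp at hlen
        omega
      | some z =>
        have h3 := lowTwo_stay l' (lowTwoCl _ _ _ z) ch2 h2 (fun v hv => by
          rw [h0] at hv
          simp at hv
          rw [hv])
        have hz : z ∈ l' := List.mem_of_mem_head? (by rw [h0]; rfl)
        have hz2 := h2 z hz
        have hz3 : lowTwoCl _ _ _ z = 0 ∨ lowTwoCl _ _ _ z = 1 := by
          revert hz2
          generalize lowTwoCl _ _ _ z = p
          revert p
          decide
        rcases hz3 with h4 | h4
        · rw [h4] at h3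
          have := lowTwo_len nd2.1 _ h3
          rw [lowTwo_card0] at this
          omega
        · rw [h4] at h3
          have := lowTwo_len nd2.1 _ h3
          rw [lowTwo_card1] at this
          omega

/-! ### the graph with no Hamilton path -/

private def lowNR : Fin 3 → Fin 3 → Bool := fun i j => i == 1 || j == 1 || (i == 2 && j == 2)

private theorem lowN_r (i j : Fin 3) : lowNR i j = lowNR j i := by
  revert i j; decide

private def lowNe {a b c : ℕ} (i : Fin 3) : List (Fin a ⊕ (Fin b ⊕ Fin c)) → ℕ
  | [] => 0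
  | u :: l => if lowTwoCl _ _ _ u = i then 1 else lowNe i l

private def lowNh {a b c : ℕ} (i : Fin 3) : List (Fin a ⊕ (Fin b ⊕ Fin c)) → ℕ
  | [] => 0
  | u :: _ => if lowTwoCl _ _ _ u = i then 1 else 0

private theorem lowNe_eq {a b c : ℕ} (i : Fin 3) : ∀ l : List (Fin a ⊕ (Fin b ⊕ Fin c)),
    0 < l.countP (fun v => lowTwoCl _ _ _ v = i) → lowNe i l = 1
  | [], h => by simp at h
  | u :: l, h => by
    unfold lowNe
    split_ifs with hu
    · rfl
    · refine lowNe_eq i l ?_
      rw [List.countP_cons] at h
      simpa [hu] using h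

/-- class 0: independent set, class 1: joined to everything, class 2: clique -/
private theorem lowN_count {a b c : ℕ} :
    ∀ (l : List (Fin a ⊕ (Fin b ⊕ Fin c))),
      l.IsChain (lowTwoGraph (Fin a) (Fin b) (Fin c) lowNR lowN_r).Adj →
      (∀ v, l.getLast? = some v → lowTwoCl _ _ _ v = 1) →
      l.countP (fun v => lowTwoCl _ _ _ v = 0) + lowNe 2 l + lowNh 1 l ≤
      l.countP (fun v => lowTwoCl _ _ _ v = 1)
  | [], _, _ => by simp [lowNe, lowNh]
  | [u], _, h => by
    have := h u rfl
    simp [lowNe, lowNh, this]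
  | u :: w :: l, hc, h => by
    rw [List.isChain_cons_cons] at hc
    have ih := lowN_count (w :: l) hc.2 (fun v hv => h v (by rw [List.getLast?_cons_cons]; exact hv))
    have hc1 := hc.1.2
    rw [List.countP_cons (l := w :: l), List.countP_cons (l := w :: l)]
    have h012 : lowTwoCl _ _ _ u = 0 ∨ lowTwoCl _ _ _ u = 1 ∨ lowTwoCl _ _ _ u = 2 := by
      generalize lowTwoCl _ _ _ u = p
      revert p
      decide
    rcases h012 with h0 | h0 | h0
    · -- class 0
      have hw : lowTwoCl _ _ _ w = 1 := by
        rw [h0] at hc1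
        revert hc1
        generalize lowTwoCl _ _ _ w = p
        revert p
        decide
      have e1 : lowNh 1 (w :: l) = 1 := by simp [lowNh, hw]
      have e2 : lowNe 2 (u :: w :: l) = lowNe 2 (w :: l) := by
        rw [lowNe, if_neg (by rw [h0]; decide)]
      have e3 : lowNh 1 (u :: w :: l) = 0 := by simp [lowNh, h0]
      have e4 : (if decide (lowTwoCl _ _ _ u = 0) = true then 1 else 0) = 1 := by simp [h0]
      have e5 : (if decide (lowTwoCl _ _ _ u = 1) = true then 1 else 0) = 0 := by simp [h0]
      rw [e2, e3, e4, e5]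
      rw [e1] at ih
      omega
    · -- class 1
      have e2 : lowNe 2 (u :: w :: l) = lowNe 2 (w :: l) := by
        rw [lowNe, if_neg (by rw [h0]; decide)]
      have e3 : lowNh 1 (u :: w :: l) = 1 := by simp [lowNh, h0]
      have e4 : (if decide (lowTwoCl _ _ _ u = 0) = true then 1 else 0) = 0 := by simp [h0]
      have e5 : (if decide (lowTwoCl _ _ _ u = 1) = true then 1 else 0) = 1 := by simp [h0]
      rw [e2, e3, e4, e5]
      omega
    · -- class 2
      have hw : lowTwoCl _ _ _ w = 1 ∨ lowTwoCl _ _ _ w = 2 := by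
        rw [h0] at hc1
        revert hc1
        generalize lowTwoCl _ _ _ w = p
        revert p
        decide
      have e2 : lowNe 2 (u :: w :: l) = 1 := by
        rw [lowNe, if_pos h0]
      have e3 : lowNh 1 (u :: w :: l) = 0 := by simp [lowNh, h0]
      have e4 : (if decide (lowTwoCl _ _ _ u = 0) = true then 1 else 0) = 0 := by simp [h0]
      have e5 : (if decide (lowTwoCl _ _ _ u = 1) = true then 1 else 0) = 0 := by simp [h0]
      rw [e2, e3, e4, e5]
      rcases hw with hw | hw
      · have e1 : lowNh 1 (w :: l) = 1 := by simp [lowNh, hw]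
        rw [e1] at ih
        omega
      · have e1 : lowNe 2 (w :: l) = 1 := by simp [lowNe, hw]
        rw [e1] at ih
        omega

private theorem lowN_countP {V : Type} [Fintype V] [DecidableEq V] {l : List V} (hl : l.Nodup)
    (hlen : l.length = Fintype.card V) (P : V → Prop) [DecidablePred P] :
    l.countP (fun v => P v) = (univ.filter P).card := by
  have h1 : l.toFinset = univ := by
    apply Finset.eq_univ_of_card
    rw [List.toFinset_card_of_nodup hl, hlen]
  have h2 : (univ.filter P) = (l.filter fun v => decide (P v)).toFinset := by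
    rw [← h1]
    ext v
    simp
  rw [h2, List.toFinset_card_of_nodup (hl.filter _), List.countP_eq_length_filter]

/-- `k-1` independent vertices joined to `k` vertices -/
theorem low_n {n k : ℕ} (hk : 3 ≤ k) (hn : 2 * k ≤ n) :
    Low n k n ((k - 1) * (2 * n - 3 * k)) := by
  classical
  obtain ⟨j, rfl⟩ : ∃ j, k = j + 1 := ⟨k - 1, by omega⟩
  obtain ⟨m, rfl⟩ : ∃ m, n = 2 * (j + 1) + m := ⟨n - 2 * (j + 1), by omega⟩
  set G := lowTwoGraph (Fin j) (Fin (j + 1)) (Fin (m + 1)) lowNR lowN_r with hG
  have hdb := lowTwo_db (a := j) (b := j + 1) (c := m + 1) lowNR lowN_r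
  rw [← hG] at hdb
  have hA : ∀ v : Fin j, db G (Sum.inl v) = j + m := by
    intro v
    have := hdb (Sum.inl v)
    simp [lowTwoCl, lowNR] at this
    omega
  have hB : ∀ v : Fin (j + 1), db G (Sum.inr (Sum.inl v)) = 0 := by
    intro v
    have := hdb (Sum.inr (Sum.inl v))
    simpa [lowTwoCl, lowNR] using this
  have hC : ∀ v : Fin (m + 1), db G (Sum.inr (Sum.inr v)) = j := by
    intro v
    have := hdb (Sum.inr (Sum.inr v))
    simpa [lowTwoCl, lowNR] using this
  refine ⟨Fin j ⊕ (Fin (j + 1) ⊕ Fin (m + 1)), inferInstance, G, by simp; omega, ?_, ?_,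
    Sum.inr (Sum.inl ⟨0, by omega⟩), Sum.inr (Sum.inl ⟨1, by omega⟩), by simp, ?_⟩
  · intro v
    have h := nb_add_db (G := G) v
    simp only [Fintype.card_sum, Fintype.card_fin] at h
    rcases v with v | v | v
    · rw [hA] at h; omega
    · rw [hB] at h; omega
    · rw [hC] at h; omega
  · unfold te
    rw [Fintype.sum_sum_type, Fintype.sum_sum_type]
    simp only [hA, hB, hC, Finset.sum_const, Finset.card_univ, Fintype.card_fin, smul_eq_mul]
    have e1 : j + 1 - 1 = j := by omega
    have e2 : 2 * (2 * (j + 1) + m) - 3 * (j + 1) = j + 1 + 2 * m := by omega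
    rw [e1, e2]
    apply le_of_eq
    ring
  · rintro ⟨l, hl, hli⟩
    obtain ⟨nd, ch, hd, lt⟩ := hl
    have hcard : Fintype.card (Fin j ⊕ (Fin (j + 1) ⊕ Fin (m + 1))) = 2 * (j + 1) + m := by
      simp; omega
    have h1 := lowN_count l ch (fun v hv => by
      rw [lt] at hv
      simp at hv
      rw [← hv]
      rfl)
    rw [lowN_countP nd (by rw [hcard, hli]), lowN_countP nd (by rw [hcard, hli]), lowTwo_card0,
      lowTwo_card1] at h1
    have h2 : l.countP (fun v => lowTwoCl _ _ _ v = 2) = m + 1 := by
      rw [lowN_countP nd (by rw [hcard, hli]), lowTwo_card2]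
    have h3 := lowNe_eq 2 l (by rw [h2]; omega)
    have h4 : lowNh 1 l = 1 := by
      cases l with
      | nil => simp at hd
      | cons u l =>
        simp at hd
        subst hd
        simp [lowNh, lowTwoCl]
    omega

end Pool.MP40
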