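import Pool.Agent.Lib.MP_40d15f_co.Close

/-!
# MP_40d15f_co : R4
-/

set_option autoImplicit false

open Finset

namespace Pool.MP40

variable {V : Type} [Fintype V] {G : SimpleGraph V} {k : ℕ} {x y : V}

omit [Fintype V] in
theorem R4_weave {C : List V} {c : V} (hC : PathL G c y C) : ∀ (σ : List V) (A : List V) (a : V)
    (T : Finset V), PathL G x a A → σ ≠ [] → (∀ v ∈ σ, G.Adj a v) → σ.Pairwise G.Adj →
    (∀ v ∈ σ, G.Adj v c) → (∀ v ∈ σ, ∀ t ∈ T, G.Adj v t) → T.card + 1 ≤ σ.length →
    (∀ v ∈ A, v ∉ σ ∧ v ∉ T ∧ v ∉ C) → (∀ v ∈ σ, v ∉ C) → (∀ t ∈ T, t ∉ C) →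
    HasXY G (A.length + σ.length + T.card + C.length) x y
  | [], A, a, T, _, h, _, _, _, _, _, _, _, _ => absurd rfl h
  | [s], A, a, T, hA, _, ha, hp, hc, ht, hl, hd, hs, hT => by
    have hT0 : T.card = 0 := by simpa using hl
    have h1 : PathL G x y (A ++ ([s] ++ C)) :=
      hA.append ((PathL.single s).append hC (hc s (by simp)) (by simpa using hs)) (ha s (by simp))
        (fun v hv hv' => by
          have := hd v hv
          simp at this hv'
          tauto)
    exact ⟨_, h1, by simp; omega⟩
  | s :: s' :: σ, A, a, T, hA, _, ha, hp, hc, ht, hl, hd, hs, hT => by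
    classical
    have hp' := List.pairwise_cons.1 hp
    have hA' : PathL G x s (A ++ [s]) := hA.append (PathL.single s) (ha s (by simp))
      (fun v hv hv' => (hd v hv).1 (by simp at hv'; simp [hv']))
    have hsT : s ∉ T := fun h => G.loopless.irrefl s (ht s (by simp) s h)
    have hsσ : s ∉ s' :: σ := fun h => G.loopless.irrefl s (hp'.1 s h)
    by_cases h0 : T.card + 1 ≤ (s' :: σ).length
    · have := R4_weave hC (s' :: σ) (A ++ [s]) s T hA' (by simp) hp'.1 hp'.2
        (fun v hv => hc v (List.mem_cons_of_mem _ hv)) (fun v hv => ht v (List.mem_cons_of_mem _ hv))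
        h0 (fun v hv => by
          rcases List.mem_append.1 hv with h | h
          · exact ⟨fun h' => (hd v h).1 (List.mem_cons_of_mem _ h'), (hd v h).2⟩
          · simp only [List.mem_singleton] at h
            subst h
            exact ⟨hsσ, hsT, hs v (by simp)⟩)
        (fun v hv => hs v (List.mem_cons_of_mem _ hv)) hT
      have e : (A ++ [s]).length + (s' :: σ).length + T.card + C.length
        = A.length + (s :: s' :: σ).length + T.card + C.length := by
        simp; omega
      rwa [e] at this
    · have hTn : T.Nonempty := by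
        rw [← Finset.card_pos]; simp at h0; omega
      obtain ⟨t, htT⟩ := hTn
      have hAt : PathL G x t (A ++ [s] ++ [t]) := hA'.append (PathL.single t)
        (ht s (by simp) t htT) (fun v hv hv' => by
          simp only [List.mem_singleton] at hv'
          subst hv'
          rcases List.mem_append.1 hv with h | h
          · exact (hd v h).2.1 htT
          · simp only [List.mem_singleton] at h
            exact hsT (h ▸ htT))
      have htσ : t ∉ s' :: σ := fun h => G.loopless.irrefl t (ht t (List.mem_cons_of_mem _ h) t htT)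
      have hcard : (T.erase t).card = T.card - 1 := Finset.card_erase_of_mem htT
      have hTp : 0 < T.card := Finset.card_pos.2 ⟨t, htT⟩
      have := R4_weave hC (s' :: σ) (A ++ [s] ++ [t]) t (T.erase t) hAt (by simp)
        (fun v hv => (ht v (List.mem_cons_of_mem _ hv) t htT).symm) hp'.2
        (fun v hv => hc v (List.mem_cons_of_mem _ hv))
        (fun v hv t' ht' => ht v (List.mem_cons_of_mem _ hv) t' (Finset.mem_of_mem_erase ht'))
        (by simp at hl ⊢; omega) (fun v hv => by
          rcases List.mem_append.1 hv with h | h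
          · rcases List.mem_append.1 h with h | h
            · exact ⟨fun h' => (hd v h).1 (List.mem_cons_of_mem _ h'),
                fun h' => (hd v h).2.1 (Finset.mem_of_mem_erase h'), (hd v h).2.2⟩
            · simp only [List.mem_singleton] at h
              subst h
              exact ⟨hsσ, fun h' => hsT (Finset.mem_of_mem_erase h'), hs v (by simp)⟩
          · simp only [List.mem_singleton] at h
            subst h
            exact ⟨htσ, Finset.notMem_erase _ _, hT v htT⟩)
        (fun v hv => hs v (List.mem_cons_of_mem _ hv))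
        (fun t' ht' => hT t' (Finset.mem_of_mem_erase ht'))
      have e : (A ++ [s] ++ [t]).length + (s' :: σ).length + (T.erase t).card + C.length
        = A.length + (s :: s' :: σ).length + T.card + C.length := by
        rw [hcard]; simp; omega
      rwa [e] at this

omit [Fintype V] in
/-- greedy path in a set where every vertex has at least `r` neighbours -/
theorem R4_greedy {L : Finset V} [DecidableEq V] [DecidableRel G.Adj] {r : ℕ}
    (h : ∀ l ∈ L, r ≤ (L.filter fun w => G.Adj l w).card) {x0 : V} (hx : x0 ∈ L) :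
    ∀ j ≤ r, ∃ a Q, PathL G x0 a Q ∧ (∀ v ∈ Q, v ∈ L) ∧ Q.length = j + 1 := by
  intro j
  induction j with
  | zero =>
    intro _
    exact ⟨x0, [x0], PathL.single x0, by simpa using hx, by simp⟩
  | succ j ih =>
    intro hj
    obtain ⟨a, Q, hQ, hQL, hQl⟩ := ih (by omega)
    have haQ : a ∈ Q := List.mem_of_getLast? hQ.lt
    have h1 := h a (hQL a haQ)
    have h2 : ((Q.toFinset).erase a).card = j := by
      rw [Finset.card_erase_of_mem (by simpa using haQ), List.toFinset_card_of_nodup hQ.nd, hQl]
      rfl
    have h3 : ∃ w ∈ L.filter (fun w => G.Adj a w), w ∉ (Q.toFinset).erase a := by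
      by_contra hcon
      push Not at hcon
      have := Finset.card_le_card (s := L.filter (fun w => G.Adj a w)) (t := (Q.toFinset).erase a)
        hcon
      omega
    obtain ⟨w, hw, hwQ⟩ := h3
    rw [Finset.mem_filter] at hw
    have hwQ' : w ∉ Q := by
      intro h'
      apply hwQ
      rw [Finset.mem_erase]
      exact ⟨fun he => G.loopless.irrefl a (he ▸ hw.2), by simpa using h'⟩
    refine ⟨w, Q ++ [w], hQ.append (PathL.single w) hw.2 ?_, ?_, by simp [hQl]⟩
    · intro v hv hv'
      simp only [List.mem_singleton] at hv'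
      exact hwQ' (hv' ▸ hv)
    · intro v hv
      rcases List.mem_append.1 hv with h' | h'
      · exact hQL v h'
      · simp only [List.mem_singleton] at h'
        exact h' ▸ hw.1

theorem R4_fin [DecidableEq V] {L S : Finset V}
    (hWc : ∀ u v, u ∉ L → v ∉ L → u ≠ v → G.Adj u v) (hSL : ∀ v ∈ S, v ∉ L)
    (hS : ∀ v ∈ S, ∀ l ∈ L, G.Adj v l) {A D : List V} {a z : V} (hA : PathL G x a A)
    (hD : PathL G z y D) (hz : z ∉ L) (hAD : ∀ v ∈ A, v ∉ D)
    (ha : ∀ v ∈ S, v ∉ A → G.Adj a v) (hσ : 1 ≤ (S \ (A ++ D).toFinset).card)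
    (hU : (L \ (A ++ D).toFinset).card ≤ (S \ (A ++ D).toFinset).card) {i : ℕ}
    (hi : A.length + D.length + S.card + L.card ≤ i) (hi' : i < Fintype.card V) :
    HasXY G i x y := by
  set σ := S \ (A ++ D).toFinset with hσdef
  set U := L \ (A ++ D).toFinset with hUdef
  obtain ⟨T, hTU, hTc⟩ : ∃ T ⊆ U, T.card = min U.card (σ.card - 1) :=
    Finset.exists_subset_card_eq (min_le_left _ _)
  set R' := univ \ ((A ++ D).toFinset ∪ (L ∪ S)) with hR'
  have hnd : (A ++ D).Nodup := by
    rw [List.nodup_append]
    exact ⟨hA.nd, hD.nd, fun v hv w hw hvw => hAD v hv (hvw ▸ hw)⟩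
  have hcAD : (A ++ D).toFinset.card = A.length + D.length := by
    rw [List.toFinset_card_of_nodup hnd, List.length_append]
  have hcount : Fintype.card V = A.length + D.length + U.card + σ.card + R'.card := by
    have e1 : (univ : Finset V) = ((A ++ D).toFinset ∪ (U ∪ σ)) ∪ R' := by
      ext v
      simp only [mem_univ, hR', hUdef, hσdef, mem_union, mem_sdiff, true_iff, true_and]
      tauto
    have d1 : Disjoint ((A ++ D).toFinset ∪ (U ∪ σ)) R' := by
      rw [Finset.disjoint_left]; intro v
      simp only [hR', hUdef, hσdef, mem_union, mem_sdiff, mem_univ, true_and]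
      tauto
    have d2 : Disjoint (A ++ D).toFinset (U ∪ σ) := by
      rw [Finset.disjoint_left]; intro v
      simp only [hUdef, hσdef, mem_union, mem_sdiff]
      tauto
    have d3 : Disjoint U σ := by
      rw [Finset.disjoint_left]; intro v h1 h2
      exact hSL v (mem_sdiff.1 h2).1 (mem_sdiff.1 h1).1
    rw [← Finset.card_univ, e1, Finset.card_union_of_disjoint d1, Finset.card_union_of_disjoint d2,
      Finset.card_union_of_disjoint d3, hcAD]
    ring
  have hσS : σ.card ≤ S.card := Finset.card_le_card Finset.sdiff_subset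
  have hUL : U.card ≤ L.card := Finset.card_le_card Finset.sdiff_subset
  obtain ⟨R, hRR, hRc⟩ : ∃ R ⊆ R', R.card = i - (A.length + D.length + σ.card + T.card) :=
    Finset.exists_subset_card_eq (by omega)
  -- the last part
  have hRfacts : ∀ v ∈ R, v ∉ A ∧ v ∉ D ∧ v ∉ L ∧ v ∉ S := by
    intro v hv
    have := hRR hv
    simp only [hR', mem_sdiff, mem_univ, true_and, mem_union, List.mem_toFinset,
      List.mem_append] at this
    tauto
  obtain ⟨c, hcL, hcC, hC⟩ : ∃ c, c ∉ L ∧ c ∈ R.toList ++ D ∧ PathL G c y (R.toList ++ D) := by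
    rcases R.eq_empty_or_nonempty with h0 | h0
    · refine ⟨z, hz, ?_, ?_⟩
      · have : z ∈ D := List.mem_of_head? hD.hd
        simp [this]
      · simpa [h0] using hD
    · have hne : R.toList ≠ [] := by
        intro h; rw [Finset.toList_eq_nil] at h; rw [h] at h0; simp at h0
      have hp : PathL G (R.toList.head hne) (R.toList.getLast hne) R.toList := by
        refine ⟨Finset.nodup_toList _, ?_, List.head?_eq_some_head hne,
          List.getLast?_eq_some_getLast hne⟩
        apply List.Pairwise.isChain
        refine (Finset.nodup_toList R).imp_of_mem ?_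
        intro u v hu hv huv
        exact hWc u v (hRfacts u (by simpa using hu)).2.2.1 (hRfacts v (by simpa using hv)).2.2.1
          huv
      have h1 : R.toList.getLast hne ∈ R := by
        exact Finset.mem_toList.1 (List.getLast_mem hne)
      have h2 : R.toList.head hne ∈ R := by
        exact Finset.mem_toList.1 (List.head_mem hne)
      have hzD : z ∈ D := List.mem_of_head? hD.hd
      refine ⟨R.toList.head hne, (hRfacts _ h2).2.2.1, by simp, ?_⟩
      refine hp.append hD (hWc _ _ (hRfacts _ h1).2.2.1 hz ?_) ?_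
      · intro he; exact (hRfacts _ h1).2.1 (he ▸ hzD)
      · intro v hv; exact (hRfacts v (by simpa using hv)).2.1
  have hσf : ∀ v ∈ σ, v ∈ S ∧ v ∉ A ∧ v ∉ D := by
    intro v hv
    simp only [hσdef, mem_sdiff, List.mem_toFinset, List.mem_append] at hv
    tauto
  have hTf : ∀ v ∈ T, v ∈ L ∧ v ∉ A ∧ v ∉ D := by
    intro v hv
    have := hTU hv
    simp only [hUdef, mem_sdiff, List.mem_toFinset, List.mem_append] at this
    tauto
  have hσl : σ.toList.length = σ.card := Finset.length_toList σ
  have hmain := R4_weave (x := x) hC σ.toList A a T hA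
    (by intro h; rw [Finset.toList_eq_nil] at h; rw [h] at hσ; simp at hσ)
    (by intro v hv; have := hσf v (by simpa using hv); exact ha v this.1 this.2.1)
    (by
      refine (Finset.nodup_toList σ).imp_of_mem ?_
      intro u v hu hv huv
      exact hWc u v (hSL u (hσf u (by simpa using hu)).1) (hSL v (hσf v (by simpa using hv)).1)
        huv)
    (by
      intro v hv
      have h1 := hσf v (by simpa using hv)
      refine hWc v c (hSL v h1.1) hcL ?_
      rintro rfl
      rcases List.mem_append.1 hcC with h2 | h2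
      · exact (hRfacts v (by simpa using h2)).2.2.2 h1.1
      · exact h1.2.2 h2)
    (by
      intro v hv t ht
      exact hS v (hσf v (by simpa using hv)).1 t (hTf t ht).1)
    (by rw [hσl, hTc]; omega)
    (by
      intro v hv
      refine ⟨?_, ?_, ?_⟩
      · intro h; exact (hσf v (by simpa using h)).2.1 hv
      · intro h; exact (hTf v h).2.1 hv
      · intro h
        rcases List.mem_append.1 h with h2 | h2
        · exact (hRfacts v (by simpa using h2)).1 hv
        · exact hAD v hv h2)
    (by
      intro v hv h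
      have h1 := hσf v (by simpa using hv)
      rcases List.mem_append.1 h with h2 | h2
      · exact (hRfacts v (by simpa using h2)).2.2.2 h1.1
      · exact h1.2.2 h2)
    (by
      intro v hv h
      have h1 := hTf v hv
      rcases List.mem_append.1 h with h2 | h2
      · exact (hRfacts v (by simpa using h2)).2.2.1 h1.1
      · exact h1.2.2 h2)
  have e : A.length + σ.toList.length + T.card + (R.toList ++ D).length = i := by
    rw [List.length_append, Finset.length_toList, Finset.length_toList, hRc]
    omega
  rwa [e] at hmain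

theorem R4_core [DecidableEq V] {L S : Finset V} [DecidableRel G.Adj]
    (hWc : ∀ u v, u ∉ L → v ∉ L → u ≠ v → G.Adj u v) (hSL : ∀ v ∈ S, v ∉ L)
    (hS : ∀ v ∈ S, ∀ l ∈ L, G.Adj v l) (hk : 3 ≤ k) (hLk : L.card = k - 1)
    (hS3 : 3 ≤ S.card) (hSk : S.card ≤ k)
    (hdeg : ∀ l ∈ L, k ≤ S.card + (L.filter fun w => G.Adj l w).card) (hxy : x ≠ y)
    {i : ℕ} (hi : 4 * k ≤ i) (hi' : i < Fintype.card V) : HasXY G i x y := by
  -- a path in `L` starting at a given vertex
  have hgr : ∀ x0 ∈ L, ∃ a Q, PathL G x0 a Q ∧ (∀ v ∈ Q, v ∈ L) ∧ Q.length = k - S.card + 1 := by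
    intro x0 hx0
    exact R4_greedy (r := k - S.card) (fun l hl => by have := hdeg l hl; omega) hx0 _ le_rfl
  have cU : ∀ (X : Finset V) (Q : List V), Q.Nodup → (∀ v ∈ Q, v ∈ L) → Q.toFinset ⊆ X →
      (L \ X).card ≤ L.card - Q.length := by
    intro X Q hQ hQL hX
    have h1 : L \ X ⊆ L \ Q.toFinset := Finset.sdiff_subset_sdiff le_rfl hX
    have h2 : (L \ Q.toFinset).card = L.card - Q.length := by
      rw [Finset.card_sdiff_of_subset (by intro v hv; exact hQL v (by simpa using hv)),
        List.toFinset_card_of_nodup hQ]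
    exact (Finset.card_le_card h1).trans h2.le
  -- case B
  have caseB : ∀ x' y' : V, x' ∈ L → y' ∉ L → HasXY G i x' y' := by
    intro x' y' hx hy
    obtain ⟨a, Q, hQ, hQL, hQl⟩ := hgr x' hx
    have haL : a ∈ L := hQL a (List.mem_of_getLast? hQ.lt)
    have c1 : S.card - 1 ≤ (S \ (Q ++ [y']).toFinset).card := by
      have h1 : S.erase y' ⊆ S \ (Q ++ [y']).toFinset := by
        intro v hv
        rw [mem_erase] at hv
        simp only [mem_sdiff, List.mem_toFinset, List.mem_append, List.mem_singleton, not_or]
        exact ⟨hv.2, fun h => hSL v hv.2 (hQL v h), hv.1⟩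
      exact (Finset.pred_card_le_card_erase).trans (Finset.card_le_card h1)
    have c2 := cU (Q ++ [y']).toFinset Q hQ.nd hQL (by
      intro v hv; simp only [List.mem_toFinset, List.mem_append] at hv ⊢; exact Or.inl hv)
    refine R4_fin hWc hSL hS hQ (PathL.single y') hy ?_ ?_ (by omega) (by omega) ?_ hi'
    · intro v hv hv'
      simp only [List.mem_singleton] at hv'
      exact hy (hv' ▸ hQL v hv)
    · intro v hv _; exact (hS v hv a haL).symm
    · simp; omega
  by_cases hx : x ∈ L
  · by_cases hy : y ∈ L
    · -- case C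
      obtain ⟨a, Q, hQ, hQL, hQl⟩ := R4_greedy (G := G) (L := L.erase y) (r := k - S.card - 1)
        (fun l hl => by
          have h1 := hdeg l (Finset.mem_of_mem_erase hl)
          have h2 : (L.filter fun w => G.Adj l w).erase y ⊆ (L.erase y).filter fun w => G.Adj l w := by
            intro v hv
            simp only [mem_erase, mem_filter] at hv ⊢
            tauto
          have h3 := (Finset.pred_card_le_card_erase).trans (Finset.card_le_card h2)
          omega) (Finset.mem_erase.2 ⟨hxy, hx⟩) _ le_rfl
      have haL : a ∈ L := Finset.mem_of_mem_erase (hQL a (List.mem_of_getLast? hQ.lt))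
      obtain ⟨b, hb⟩ : S.Nonempty := by rw [← Finset.card_pos]; omega
      have hby : b ≠ y := fun h => hSL b hb (h ▸ hy)
      have hD : PathL G b y ([b] ++ [y]) := (PathL.single b).append (PathL.single y) (hS b hb y hy)
        (by intro v hv hv'; simp only [List.mem_singleton] at hv hv'; exact hby (hv ▸ hv'))
      have c1 : S.card - 1 ≤ (S \ (Q ++ ([b] ++ [y])).toFinset).card := by
        have h1 : S.erase b ⊆ S \ (Q ++ ([b] ++ [y])).toFinset := by
          intro v hv
          rw [mem_erase] at hv
          simp only [mem_sdiff, List.mem_toFinset, List.mem_append, List.mem_singleton, not_or]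
          refine ⟨hv.2, fun h => hSL v hv.2 (Finset.mem_of_mem_erase (hQL v h)), hv.1, ?_⟩
          rintro rfl; exact hSL _ hv.2 hy
        exact (Finset.pred_card_le_card_erase).trans (Finset.card_le_card h1)
      have c2 := cU (Q ++ ([b] ++ [y])).toFinset (Q ++ [y])
        (by
          rw [List.nodup_append]
          refine ⟨hQ.nd, by simp, ?_⟩
          intro v hv w hw hvw
          simp only [List.mem_singleton] at hw
          subst hw; subst hvw
          exact Finset.notMem_erase _ _ (hQL _ hv))
        (by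
          intro v hv
          rcases List.mem_append.1 hv with h | h
          · exact Finset.mem_of_mem_erase (hQL v h)
          · simp only [List.mem_singleton] at h; exact h ▸ hy)
        (by
          intro v hv; simp only [List.mem_toFinset, List.mem_append] at hv ⊢; tauto)
      rw [List.length_append] at c2
      simp only [List.length_singleton] at c2
      refine R4_fin hWc hSL hS hQ hD (hSL b hb) ?_ ?_ (by omega) (by omega) ?_ hi'
      · intro v hv hv'
        simp only [List.mem_append, List.mem_singleton] at hv'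
        rcases hv' with h | h
        · exact hSL b hb (h ▸ Finset.mem_of_mem_erase (hQL v hv))
        · exact Finset.notMem_erase _ _ (h ▸ hQL v hv)
      · intro v hv _; exact (hS v hv a haL).symm
      · simp; omega
    · exact caseB x y hx hy
  · by_cases hy : y ∈ L
    · exact (caseB y x hy hx).symm
    · -- case A
      obtain ⟨x0, hx0⟩ : L.Nonempty := by rw [← Finset.card_pos]; omega
      obtain ⟨a, Q, hQ, hQL, hQl⟩ := hgr x0 hx0
      have haL : a ∈ L := hQL a (List.mem_of_getLast? hQ.lt)
      -- the first part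
      obtain ⟨b, P, hP, hbS, hPxb, hPl, hyP⟩ : ∃ b P, PathL G x b P ∧ b ∈ S ∧
          (∀ v ∈ P, v = b ∨ (v = x ∧ x ∉ S)) ∧ P.length ≤ 2 ∧ y ∉ P := by
        by_cases hxS : x ∈ S
        · exact ⟨x, [x], PathL.single x, hxS, by simp, by simp, by simpa using hxy.symm⟩
        · obtain ⟨b, hb⟩ : (S.erase y).Nonempty := by
            rw [← Finset.card_pos]
            have := Finset.pred_card_le_card_erase (s := S) (a := y)
            omega
          rw [mem_erase] at hb
          have hxb : x ≠ b := fun h => hxS (h ▸ hb.2)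
          refine ⟨b, [x] ++ [b], (PathL.single x).append (PathL.single b)
            (hWc x b hx (hSL b hb.2) hxb) ?_, hb.2, ?_, by simp, ?_⟩
          · intro v hv hv'; simp only [List.mem_singleton] at hv hv'; exact hxb (hv ▸ hv')
          · intro v hv
            simp only [List.mem_append, List.mem_singleton] at hv
            tauto
          · simp only [List.mem_append, List.mem_singleton, not_or]
            exact ⟨hxy.symm, hb.1.symm⟩
      have hA : PathL G x a (P ++ Q) := hP.append hQ (hS b hbS x0 hx0) (by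
        intro v hv hv'
        rcases hPxb v hv with h | h
        · exact hSL b hbS (h ▸ hQL v hv')
        · exact hx (h.1 ▸ hQL v hv'))
      have c1 : S.card - 2 ≤ (S \ (P ++ Q ++ [y]).toFinset).card := by
        have h1 : (S.erase y).erase b ⊆ S \ (P ++ Q ++ [y]).toFinset := by
          intro v hv
          rw [mem_erase, mem_erase] at hv
          simp only [mem_sdiff, List.mem_toFinset, List.mem_append, List.mem_singleton, not_or]
          refine ⟨hv.2.2, ⟨fun h => ?_, fun h => hSL v hv.2.2 (hQL v h)⟩, hv.2.1⟩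
          rcases hPxb v h with h | h
          · exact hv.1 h
          · exact h.2 (h.1 ▸ hv.2.2)
        have h2 := Finset.card_le_card h1
        have h3 := Finset.pred_card_le_card_erase (s := S) (a := y)
        have h4 := Finset.pred_card_le_card_erase (s := S.erase y) (a := b)
        omega
      have c2 := cU (P ++ Q ++ [y]).toFinset Q hQ.nd hQL (by
        intro v hv; simp only [List.mem_toFinset, List.mem_append] at hv ⊢; tauto)
      refine R4_fin hWc hSL hS hA (PathL.single y) hy ?_ ?_ (by omega) (by omega) ?_ hi'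
      · intro v hv hv'
        simp only [List.mem_singleton] at hv'
        subst hv'
        rcases List.mem_append.1 hv with h | h
        · exact hyP h
        · exact hy (hQL _ h)
      · intro v hv _; exact (hS v hv a haL).symm
      · simp; omega

theorem R4_nb_mono {G' : SimpleGraph V} (h : G ≤ G') (v : V) : nb G v ⊆ nb G' v := by
  intro w hw
  rw [mem_nb] at hw ⊢
  exact h hw

theorem R4_te_mono {G' : SimpleGraph V} (h : G ≤ G') : te G' ≤ te G := by
  unfold te db
  refine Finset.sum_le_sum fun v _ => Finset.card_le_card ?_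
  intro w hw
  rw [mem_nonb] at hw ⊢
  exact ⟨hw.1, fun h' => hw.2 (h h')⟩

theorem up_R4 (hk : 3 ≤ k) (hn : 100 * (k + 2) ^ 3 ≤ Fintype.card V)
    (hδ : ∀ v, k ≤ (nb G v).card) (hxy : x ≠ y) {i : ℕ} (hi : Fintype.card V ≤ i + k - 2)
    (hin : i < Fintype.card V)
    (he : te G < 2 * ((k - 1) * (Fintype.card V - k - 1))) : HasXY G i x y := by
  classical
  by_contra hcon
  obtain ⟨G', hle, hm⟩ := exists_maxNo hcon
  replace he : te G' < 2 * ((k - 1) * (Fintype.card V - k - 1)) := (R4_te_mono hle).trans_lt he
  replace hδ : ∀ v, k ≤ (nb G' v).card := fun v =>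
    (hδ v).trans (Finset.card_le_card (R4_nb_mono hle v))
  obtain ⟨hno, hmax⟩ := id hm
  clear hcon hle
  set n := Fintype.card V with hndef
  have hk3 : (k + 2) * (k + 2) * 100 * 5 ≤ n := by nlinarith [hn, hk]
  obtain ⟨K, rfl⟩ : ∃ K, k = K + 1 := ⟨k - 1, by omega⟩
  simp only [Nat.add_sub_cancel] at he
  have he2 : te G' < 2 * ((K + 1 + 1) * n) := by
    refine he.trans_le ?_
    refine Nat.mul_le_mul_left 2 (Nat.mul_le_mul (by omega) (by omega))
  obtain ⟨d, u, v, huv, hnadj, hkd, h2d, hud, hvd, hall, hcount⟩ :=
    maxNo_count hk hn hδ hxy he2 (i := i) (by omega) hin.le hm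
  have hKn : K * K + 2 * K ≤ n := by nlinarith
  -- `d = k`
  have hd : d = K + 1 := by
    by_contra hne
    obtain ⟨e, rfl⟩ : ∃ e, d = K + 2 + e := ⟨d - (K + 2), by omega⟩
    have h1 : (K + 2 + e - 1) * (2 * n - 3 * (K + 2 + e)) < 2 * (K * (n - (K + 1) - 1)) :=
      hcount.trans_lt he
    obtain ⟨N, hN⟩ : ∃ N, n = 2 * (K + 2 + e) + N := ⟨n - 2 * (K + 2 + e), by omega⟩
    have e1 : 2 * n - 3 * (K + 2 + e) = n - (K + 2 + e) + N := by omega
    have e2 : n - (K + 1) - 1 = n - (K + 2 + e) + e := by omega
    have e3 : K + 2 + e - 1 = K + 1 + e := by omega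
    rw [e1, e2, e3] at h1
    obtain ⟨M, hM⟩ : ∃ M, n - (K + 2 + e) = M := ⟨_, rfl⟩
    rw [hM] at h1
    have hMN : M = K + 2 + e + N := by omega
    nlinarith
  subst hd
  clear hcount h2d hkd
  have hnb : ∀ w, (nb G' w).card + db G' w + 1 = n := fun w => nb_add_db w
  set L : Finset V := univ.filter fun w => (nb G' w).card = K + 1 with hLdef
  have memL : ∀ w, w ∈ L ↔ (nb G' w).card = K + 1 := by intro w; simp [hLdef]
  have hL1 : nonb G' v ⊆ L := by
    intro w hw
    rw [mem_nonb] at hw
    rw [memL]
    exact le_antisymm (hall w hw.1 hw.2) (hδ w)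
  have hL2 : K ≤ L.card := by
    have h1 := Finset.card_le_card hL1
    have h2 : (nonb G' v).card = db G' v := rfl
    have h3 := hnb v
    omega
  have hdb : ∀ w ∈ L, db G' w = n - K - 2 := by
    intro w hw
    have h1 := hnb w
    rw [(memL w).1 hw] at h1
    omega
  have hL3 : L.card = K := by
    by_contra hne
    obtain ⟨T, hTL, hTc⟩ : ∃ T ⊆ L, T.card = K + 1 := Finset.exists_subset_card_eq (by omega)
    have h1 := te_ge G' T
    rw [Finset.sum_congr rfl (fun w hw => hdb w (hTL hw)), Finset.sum_const, hTc, smul_eq_mul] at h1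
    have e1 : n - (K + 1) - 1 = n - K - 2 := by omega
    rw [e1] at he
    obtain ⟨M, hM⟩ : ∃ M, n - K - 2 = M := ⟨_, rfl⟩
    rw [hM] at h1 he
    have h2 : K * K + K ≤ M := by
      have : K * K + K + K + 2 ≤ n := by nlinarith
      omega
    simp only [Nat.add_sub_cancel] at h1
    nlinarith
  have hnp : np G' Lᶜ Lᶜ < np G' L L := by
    have h1 := te_add G' L
    rw [Finset.sum_congr rfl (fun w hw => hdb w hw), Finset.sum_const, hL3, smul_eq_mul] at h1
    have e1 : n - (K + 1) - 1 = n - K - 2 := by omega
    rw [e1] at he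
    omega
  have hnp2 : np G' L L ≤ K * (K - 1) := by
    have := np_self_le G' (S := L)
    rwa [hL3] at this
  have hKK : K * (K - 1) + K = K * K := by
    obtain ⟨J, rfl⟩ : ∃ J, K = J + 1 := ⟨K - 1, by omega⟩
    simp only [Nat.add_sub_cancel]; ring
  -- the complement of `L` is complete
  have hdbW : ∀ w, w ∉ L → db G' w ≤ K * K := by
    intro w hw
    have h1 : nonb G' w ⊆ L ∪ (Lᶜ.filter fun t => t ≠ w ∧ ¬ G'.Adj w t) := by
      intro t ht
      rw [mem_nonb] at ht
      simp only [mem_union, mem_filter, mem_compl]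
      tauto
    have h2 : (Lᶜ.filter fun t => t ≠ w ∧ ¬ G'.Adj w t).card ≤ np G' Lᶜ Lᶜ := by
      unfold np
      exact Finset.single_le_sum (f := fun s => (Lᶜ.filter fun t => t ≠ s ∧ ¬ G'.Adj s t).card)
        (fun _ _ => Nat.zero_le _) (mem_compl.2 hw)
    have h3 : db G' w ≤ _ := (Finset.card_le_card h1).trans (Finset.card_union_le _ _)
    omega
  have hWc : ∀ a b, a ∉ L → b ∉ L → a ≠ b → G'.Adj a b := by
    intro a b ha hb hab
    by_contra hnot
    have h1 := deg_sum_le hn he2 (i := i) (by omega) hin.le hm hab hnot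
    have h2 := hnb a
    have h3 := hnb b
    have h4 := hdbW a ha
    have h5 := hdbW b hb
    have h6 : 2 * (K * K) + 2 < n := by nlinarith
    omega
  have hcL : Lᶜ.card = n - K := by rw [Finset.card_compl, hL3]
  set S : Finset V := univ.filter fun w => w ∉ L ∧ ∀ l ∈ L, G'.Adj w l with hSdef
  have memS : ∀ w, w ∈ S ↔ w ∉ L ∧ ∀ l ∈ L, G'.Adj w l := by intro w; simp [hSdef]
  have hWS : ∀ w, w ∉ L → ∀ l ∈ L, G'.Adj w l → w ∈ S := by
    intro w hw l hl hwl
    rw [memS]
    refine ⟨hw, fun l' hl' => ?_⟩
    by_contra hnot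
    have hne : w ≠ l' := fun h => hw (h ▸ hl')
    have h1 := deg_sum_le hn he2 (i := i) (by omega) hin.le hm hne hnot
    rw [(memL l').1 hl'] at h1
    have h2 : insert l (Lᶜ.erase w) ⊆ nb G' w := by
      intro t ht
      rw [mem_nb]
      rcases Finset.mem_insert.1 ht with h | h
      · exact h ▸ hwl
      · rw [mem_erase, mem_compl] at h
        exact hWc w t hw h.2 h.1.symm
    have h3 := Finset.card_le_card h2
    rw [Finset.card_insert_of_notMem (by
      rw [mem_erase, mem_compl]; exact fun h => h.2 hl), Finset.card_erase_of_mem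
      (mem_compl.2 hw), hcL] at h3
    omega
  have hnbL : ∀ l ∈ L, nb G' l ⊆ S ∪ L.filter fun w => G'.Adj l w := by
    intro l hl t ht
    rw [mem_nb] at ht
    refine Finset.mem_union.2 ?_
    by_cases htL : t ∈ L
    · exact Or.inr (mem_filter.2 ⟨htL, ht⟩)
    · exact Or.inl (hWS t htL l hl ht.symm)
  have hdeg : ∀ l ∈ L, K + 1 ≤ S.card + (L.filter fun w => G'.Adj l w).card := by
    intro l hl
    have h1 := (Finset.card_le_card (hnbL l hl)).trans (Finset.card_union_le _ _)
    rwa [(memL l).1 hl] at h1
  obtain ⟨l, hl, l', hl', hll, hnl⟩ : ∃ l ∈ L, ∃ l' ∈ L, l' ≠ l ∧ ¬ G'.Adj l l' := by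
    have h1 : 0 < np G' L L := by omega
    unfold np at h1
    obtain ⟨l, hl, h2⟩ : ∃ l ∈ L, 0 < (L.filter fun t => t ≠ l ∧ ¬ G'.Adj l t).card := by
      by_contra hcon
      push Not at hcon
      have : ∑ s ∈ L, (L.filter fun t => t ≠ s ∧ ¬ G'.Adj s t).card = 0 :=
        Finset.sum_eq_zero fun s hs => Nat.le_zero.1 (hcon s hs)
      omega
    obtain ⟨l', hl'⟩ := Finset.card_pos.1 h2
    rw [mem_filter] at hl'
    exact ⟨l, hl, l', hl'.1, hl'.2.1, hl'.2.2⟩
  have hS3 : 3 ≤ S.card := by
    have h1 := hdeg l hl
    have h2 : (L.filter fun w => G'.Adj l w) ⊆ (L.erase l).erase l' := by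
      intro t ht
      rw [mem_filter] at ht
      rw [mem_erase, mem_erase]
      exact ⟨fun h => hnl (h ▸ ht.2), fun h => G'.loopless.irrefl l (by
        have := ht.2; rw [h] at this; exact this), ht.1⟩
    have h3 := Finset.card_le_card h2
    rw [Finset.card_erase_of_mem (mem_erase.2 ⟨hll, hl'⟩), Finset.card_erase_of_mem hl, hL3] at h3
    omega
  have hSk : S.card ≤ K + 1 := by
    have h1 : S ⊆ nb G' l := by
      intro t ht
      rw [mem_nb]
      exact (((memS t).1 ht).2 l hl).symm
    have h2 := Finset.card_le_card h1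
    rwa [(memL l).1 hl] at h2
  refine hno (R4_core hWc (fun w hw => ((memS w).1 hw).1) (fun w hw => ((memS w).1 hw).2) hk
    (by omega) hS3 hSk hdeg hxy ?_ hin)
  have : 5 * K + 10 ≤ n := by nlinarith
  omega

end Pool.MP40
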