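import Pool.Agent.Lib.MP_40d15f_co.Count

/-!
# MP_40d15f_co : paths with six vertices, special case
-/

set_option autoImplicit false
set_option linter.unusedSectionVars false

open Finset

namespace Pool.MP40

variable {V : Type} [Fintype V] {G : SimpleGraph V} {k : ℕ} {x y : V}

private theorem Six_np_of_not_adj {S T : Finset V} (h : Disjoint S T)
    (hn : ∀ s ∈ S, ∀ t ∈ T, ¬ G.Adj s t) : np G S T = S.card * T.card := by
  classical
  have h1 := np_add_ep G h
  have h2 : ep G S T = 0 := by
    unfold ep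
    refine Finset.sum_eq_zero fun s hs => ?_
    rw [Finset.card_eq_zero, Finset.filter_eq_empty_iff]
    intro t ht
    exact hn s hs t ht
  omega

private theorem Six_np_self_of_not_adj {S : Finset V}
    (hn : ∀ s ∈ S, ∀ t ∈ S, ¬ G.Adj s t) : np G S S = S.card * (S.card - 1) := by
  classical
  have h1 := np_add_ep_self G (S := S)
  have h2 : ep G S S = 0 := by
    unfold ep
    refine Finset.sum_eq_zero fun s hs => ?_
    rw [Finset.card_eq_zero, Finset.filter_eq_empty_iff]
    intro t ht
    exact hn s hs t ht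
  omega

private theorem Six_np_two [DecidableEq V] {S T : Finset V} (h : Disjoint S T) :
    np G (S ∪ T) (S ∪ T) = np G S S + 2 * np G S T + np G T T := by
  rw [np_union_left G h, np_union_right G h, np_union_right G h, np_symm G T S]
  ring

/-- arithmetic: `2hμ - h(h-1) ≤ μ(μ+1)` -/
private theorem Six_arith (h μ : ℕ) : 2 * (h * μ) ≤ h * (h - 1) + μ * (μ + 1) := by
  rcases Nat.eq_zero_or_pos h with h0 | h0
  · subst h0; simp
  obtain ⟨j, rfl⟩ : ∃ j, h = j + 1 := ⟨h - 1, by omega⟩
  simp only [Nat.add_sub_cancel]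
  rcases Nat.le_total μ j with h1 | h1
  · obtain ⟨i, rfl⟩ := Nat.exists_eq_add_of_le h1
    nlinarith [Nat.zero_le (i * i), Nat.zero_le i]
  · obtain ⟨i, rfl⟩ := Nat.exists_eq_add_of_le h1
    rcases Nat.eq_zero_or_pos i with h2 | h2
    · subst h2; nlinarith
    · obtain ⟨e, rfl⟩ : ∃ e, i = e + 1 := ⟨i - 1, by omega⟩
      nlinarith [Nat.zero_le (e * e), Nat.zero_le e]

theorem six (hk : 5 ≤ k) (hδ : ∀ v, k ≤ (nb G v).card) (hxy : G.Adj x y) {Λ : Finset V}
    (hΛ : Λ.card = k - 1) (hx : x ∉ Λ) (hy : y ∉ Λ) (hxΛ : ∀ v, G.Adj x v ↔ v = y ∨ v ∈ Λ)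
    (hyΛ : ∀ v, G.Adj y v ↔ v = x ∨ v ∈ Λ)
    (he : te G < 2 * ((k + 1) * Fintype.card V - k * (k + 3))) : HasXY G 6 x y := by
  classical
  by_contra hno
  obtain ⟨m, rfl⟩ : ∃ m, k = m + 1 := ⟨k - 1, by omega⟩
  simp only [Nat.add_sub_cancel] at hΛ
  have hm : 4 ≤ m := by omega
  have hne : x ≠ y := hxy.ne
  have hP : ∀ p q r s, p ∈ Λ → s ∈ Λ → q ≠ x → q ≠ y → r ≠ x → r ≠ y → p ≠ r → p ≠ s →
      q ≠ s → G.Adj p q → G.Adj q r → G.Adj r s → False := by
    intro p q r s hp hs hqx hqy hrx hry hpr hps hqs h1 h2 h3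
    have hpx : p ≠ x := fun h => hx (h ▸ hp)
    have hpy : p ≠ y := fun h => hy (h ▸ hp)
    have hsx : s ≠ x := fun h => hx (h ▸ hs)
    have hsy : s ≠ y := fun h => hy (h ▸ hs)
    refine hno ⟨[x, p, q, r, s, y], ⟨?_, ?_, rfl, rfl⟩, rfl⟩
    · have := h1.ne
      have := h2.ne
      have := h3.ne
      simp only [List.nodup_cons, List.mem_cons, List.not_mem_nil, or_false, not_or,
        not_false_eq_true, List.nodup_nil, and_true]
      refine ⟨⟨hpx.symm, hqx.symm, hrx.symm, hsx.symm, hne⟩, ⟨?_, ?_, ?_, ?_⟩, ⟨?_, ?_, ?_⟩,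
        ⟨?_, ?_⟩, ?_⟩ <;> assumption
    · simp only [List.isChain_cons_cons, List.isChain_singleton, and_true]
      exact ⟨(hxΛ p).2 (Or.inr hp), h1, h2, h3, ((hyΛ s).2 (Or.inr hs)).symm⟩
  -- the sets
  set U : Finset V := univ.filter (fun w => w ∉ Λ ∧ w ≠ x ∧ w ≠ y) with hU
  have hmU : ∀ w, w ∈ U ↔ w ∉ Λ ∧ w ≠ x ∧ w ≠ y := fun w => by simp [hU]
  set S : Finset V := {x, y} with hS
  have hSc : Sᶜ = Λ ∪ U := by
    ext w
    simp only [hS, mem_compl, mem_insert, mem_singleton, mem_union, hmU, not_or]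
    constructor
    · intro h; tauto
    · rintro (h | h)
      · exact ⟨fun h' => hx (h' ▸ h), fun h' => hy (h' ▸ h)⟩
      · exact h.2
  have hScard : S.card = 2 := by rw [hS]; exact Finset.card_pair hne
  have hdΛU : Disjoint Λ U := by
    rw [Finset.disjoint_left]; intro w hw hw'
    exact ((hmU w).1 hw').1 hw
  have hdSU : Disjoint S U := by
    rw [Finset.disjoint_left]; intro w hw hw'
    rw [hS] at hw
    simp only [mem_insert, mem_singleton] at hw
    rcases hw with h | h
    · exact ((hmU w).1 hw').2.1 h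
    · exact ((hmU w).1 hw').2.2 h
  have hcard : Fintype.card V = U.card + m + 2 := by
    have h1 := Finset.card_add_card_compl S
    rw [hSc, Finset.card_union_of_disjoint hdΛU, hΛ, hScard] at h1
    omega
  have hte : 2 * (2 * U.card) + np G Λ Λ + 2 * np G U Λ + np G U U ≤ te G := by
    have h1 := te_split G S
    rw [hSc, Six_np_two hdΛU] at h1
    have h2 : np G S U ≤ np G S (Λ ∪ U) := np_mono_right G (Finset.subset_union_right)
    have h3 : np G S U = 2 * U.card := by
      rw [← hScard]
      refine Six_np_of_not_adj hdSU ?_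
      intro s hs t ht hst
      rw [hS] at hs
      simp only [mem_insert, mem_singleton] at hs
      rw [hmU] at ht
      rcases hs with rfl | rfl
      · rcases (hxΛ t).1 hst with h | h
        · exact ht.2.2 h
        · exact ht.1 h
      · rcases (hyΛ t).1 hst with h | h
        · exact ht.2.1 h
        · exact ht.1 h
    rw [np_symm G Λ U] at h1
    omega
  set N : V → Finset V := fun w => Λ.filter (fun l => G.Adj w l) with hN
  have hmN : ∀ w l, l ∈ N w ↔ l ∈ Λ ∧ G.Adj w l := fun w l => by simp [hN]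
  have hΛΛ := np_add_ep_self G (S := Λ)
  have hUΛ := np_add_ep G hdΛU.symm
  rw [hΛ] at hΛΛ hUΛ
  have hF : ep G U Λ = ∑ w ∈ U, (N w).card := by
    unfold ep; rfl
  -- key inequality suffices
  suffices hkey : ep G Λ Λ + 2 * ep G U Λ ≤ np G U U + m * (m + 1) by
    have h1 : 2 * ((m + 1 + 1) * Fintype.card V - (m + 1) * (m + 1 + 3)) + 2 * m ≤
        2 * ((m + 2) * U.card) ∨
        (m + 1 + 1) * Fintype.card V - (m + 1) * (m + 1 + 3) = 0 := by
      rcases Nat.le_total ((m + 1 + 1) * Fintype.card V) ((m + 1) * (m + 1 + 3)) with h | h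
      · right; omega
      · left
        have h2 : (m + 1 + 1) * Fintype.card V + m = (m + 2) * U.card + (m + 1) * (m + 1 + 3) := by
          rw [hcard]; ring
        omega
    rcases h1 with h1 | h1
    · have h3 : m * (m + 1) = m * (m - 1) + 2 * m := by
        obtain ⟨j, rfl⟩ : ∃ j, m = j + 1 := ⟨m - 1, by omega⟩
        simp only [Nat.add_sub_cancel]; ring
      have h4 : 2 * ((m + 2) * U.card) = 2 * (U.card * m) + 4 * U.card := by ring
      omega
    · rw [h1] at he; omega
  -- adjacency between vertices of `U`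
  have hUU : ∀ w ∈ U, ∀ w' ∈ U, G.Adj w w' → ∀ p ∈ N w, ∀ s ∈ N w', p = s := by
    intro w hw w' hw' hww p hp s hs
    by_contra hps
    rw [hmU] at hw hw'
    rw [hmN] at hp hs
    exact hP p w w' s hp.1 hs.1 hw.2.1 hw.2.2 hw'.2.1 hw'.2.2 (fun h => hw'.1 (h ▸ hp.1)) hps
      (fun h => hw.1 (h ▸ hs.1)) hp.2.symm hww hs.2
  set H : Finset V := U.filter (fun w => 2 ≤ (N w).card) with hH
  set G1 : Finset V := U.filter (fun w => (N w).card = 1) with hG1
  have hHU : H ⊆ U := Finset.filter_subset _ _
  have hGU : G1 ⊆ U := Finset.filter_subset _ _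
  have hdHG : Disjoint H G1 := by
    rw [Finset.disjoint_left]; intro w hw hw'
    rw [hH, mem_filter] at hw
    rw [hG1, mem_filter] at hw'
    omega
  have hsum : ∑ w ∈ U, (N w).card = ∑ w ∈ H, (N w).card + G1.card := by
    have h1 : ∑ w ∈ U, (N w).card = ∑ w ∈ H ∪ G1, (N w).card := by
      symm
      refine Finset.sum_subset (Finset.union_subset hHU hGU) ?_
      intro w hw hw'
      rw [mem_union, not_or] at hw'
      have h1 : ¬ (2 ≤ (N w).card) := fun h => hw'.1 (Finset.mem_filter.2 ⟨hw, h⟩)
      have h2 : ¬ ((N w).card = 1) := fun h => hw'.2 (Finset.mem_filter.2 ⟨hw, h⟩)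
      omega
    rw [h1, Finset.sum_union hdHG]
    congr 1
    rw [Finset.card_eq_sum_ones]
    refine Finset.sum_congr rfl fun w hw => ?_
    rw [hG1, mem_filter] at hw
    exact hw.2
  have hHadj : ∀ w ∈ H, ∀ w' ∈ U, 1 ≤ (N w').card → ¬ G.Adj w w' := by
    intro w hw w' hw' h1 hadj
    rw [hH, mem_filter] at hw
    obtain ⟨s, hs⟩ := Finset.card_pos.1 (show 0 < (N w').card by omega)
    obtain ⟨a, b, ha, hb, hab⟩ := Finset.one_lt_card_iff.1 (show 1 < (N w).card by omega)
    have h2 := hUU w hw.1 w' hw' hadj a ha s hs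
    have h3 := hUU w hw.1 w' hw' hadj b hb s hs
    exact hab (h2.trans h3.symm)
  rcases Finset.eq_empty_or_nonempty H with hH0 | hH0
  · -- `h = 0`
    rw [hH0, Finset.sum_empty, Nat.zero_add] at hsum
    have hEle : ep G Λ Λ ≤ m * (m - 1) := by omega
    have h3 : m * (m + 1) = m * (m - 1) + 2 * m := by
      obtain ⟨j, rfl⟩ : ∃ j, m = j + 1 := ⟨m - 1, by omega⟩
      simp only [Nat.add_sub_cancel]; ring
    by_cases hall : ∀ w ∈ G1, ∀ w' ∈ G1, N w = N w'
    · exfalso
      obtain ⟨p, hpΛ, hp⟩ : ∃ p ∈ Λ, ∀ w ∈ G1, N w = {p} := by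
        rcases Finset.eq_empty_or_nonempty G1 with h0 | ⟨w0, hw0⟩
        · obtain ⟨p, hp⟩ := Finset.card_pos.1 (show 0 < Λ.card by omega)
          exact ⟨p, hp, by rw [h0]; simp⟩
        · have h1 : (N w0).card = 1 := by
            rw [hG1, mem_filter] at hw0; exact hw0.2
          obtain ⟨p, hp⟩ := Finset.card_eq_one.1 h1
          refine ⟨p, ?_, fun w hw => by rw [hall w hw w0 hw0, hp]⟩
          have : p ∈ N w0 := by rw [hp]; simp
          exact ((hmN w0 p).1 this).1
      have hfull : ∀ l ∈ Λ, l ≠ p → ∀ l' ∈ Λ, l' ≠ l → G.Adj l l' := by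
        intro l hl hlp
        have hsub : nb G l ⊆ S ∪ Λ.erase l := by
          intro w hw
          rw [mem_nb] at hw
          by_cases hwU : w ∈ U
          · exfalso
            have h1 : l ∈ N w := by rw [hmN]; exact ⟨hl, hw.symm⟩
            have h2 : w ∉ H := by rw [hH0]; simp
            have h4 : w ∈ G1 := by
              rw [hG1, mem_filter]
              rw [hH, mem_filter] at h2
              push Not at h2
              have h5 := h2 hwU
              have h6 := Finset.card_pos.2 ⟨l, h1⟩
              exact ⟨hwU, by omega⟩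
            rw [hp w h4, mem_singleton] at h1
            exact hlp h1
          · rw [mem_union, mem_erase, hS, mem_insert, mem_singleton]
            rw [hmU] at hwU
            have := hw.ne
            by_cases h1 : w ∈ Λ
            · exact Or.inr ⟨fun h => this h.symm, h1⟩
            · left; by_contra h2; push Not at h2
              exact hwU ⟨h1, h2.1, h2.2⟩
        have hcle : (S ∪ Λ.erase l).card ≤ m + 1 := by
          refine (Finset.card_union_le _ _).trans ?_
          rw [hScard, Finset.card_erase_of_mem hl, hΛ]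
          omega
        have heq : nb G l = S ∪ Λ.erase l :=
          Finset.eq_of_subset_of_card_le hsub (hcle.trans (hδ l))
        intro l' hl' hne'
        rw [← mem_nb, heq, mem_union, mem_erase]
        exact Or.inr ⟨hne', hl'⟩
      have h2 : 2 < (Λ.erase p).card := by
        rw [Finset.card_erase_of_mem hpΛ, hΛ]; omega
      obtain ⟨a, b, c, ha, hb, hc, hab, hac, hbc⟩ := Finset.two_lt_card_iff.1 h2
      rw [mem_erase] at ha hb hc
      exact hP a b c p ha.2 hpΛ (fun h => hx (h ▸ hb.2)) (fun h => hy (h ▸ hb.2))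
        (fun h => hx (h ▸ hc.2)) (fun h => hy (h ▸ hc.2)) hac ha.1 hb.1
        (hfull a ha.2 ha.1 b hb.2 hab.symm) (hfull b hb.2 hb.1 c hc.2 hbc.symm)
        (hfull c hc.2 hc.1 p hpΛ hc.1.symm)
    · push Not at hall
      obtain ⟨w0, hw0, w1, hw1, h01⟩ := hall
      set A := G1.filter (fun w => N w = N w0) with hA
      set B := G1.filter (fun w => N w ≠ N w0) with hB
      have hAB : G1 = A ∪ B := by
        rw [hA, hB]; exact (Finset.filter_union_filter_not_eq _ _).symm
      have hdAB : Disjoint A B := Finset.disjoint_filter_filter_not _ _ _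
      have hApos : 0 < A.card := Finset.card_pos.2 ⟨w0, by rw [hA, mem_filter]; exact ⟨hw0, rfl⟩⟩
      have hBpos : 0 < B.card :=
        Finset.card_pos.2 ⟨w1, by rw [hB, mem_filter]; exact ⟨hw1, fun h => h01 h.symm⟩⟩
      have hnpAB : np G A B = A.card * B.card := by
        refine Six_np_of_not_adj hdAB ?_
        intro s hs t ht hst
        rw [hA, mem_filter] at hs
        rw [hB, mem_filter] at ht
        have hs1 := hs.1
        have ht1 := ht.1
        rw [hG1, mem_filter] at hs1 ht1
        obtain ⟨p, hp⟩ := Finset.card_eq_one.1 hs1.2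
        obtain ⟨q, hq⟩ := Finset.card_eq_one.1 ht1.2
        have := hUU s hs1.1 t ht1.1 hst p (by rw [hp]; simp) q (by rw [hq]; simp)
        apply ht.2
        rw [← hs.2, hp, hq, this]
      have hnpU : 2 * (A.card * B.card) ≤ np G U U := by
        have h1 : np G G1 G1 ≤ np G U U := np_mono G hGU hGU
        rw [hAB, Six_np_two hdAB, hnpAB] at h1
        omega
      have hG1card : G1.card = A.card + B.card := by
        rw [hAB]; exact Finset.card_union_of_disjoint hdAB
      rw [hF, hsum, hG1card]
      obtain ⟨a, ha⟩ : ∃ a, A.card = a + 1 := ⟨A.card - 1, by omega⟩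
      obtain ⟨b, hb⟩ : ∃ b, B.card = b + 1 := ⟨B.card - 1, by omega⟩
      rw [ha, hb] at hnpU ⊢
      have h4 : (a + 1) * (b + 1) = a * b + a + b + 1 := by ring
      omega
  · -- `h ≥ 1`
    have hh : 1 ≤ H.card := Finset.card_pos.2 hH0
    set I : Finset V := Λ.filter (fun l => ∀ b ∈ Λ, ¬ G.Adj l b) with hI
    set J : Finset V := Λ.filter (fun l => ¬ ∀ b ∈ Λ, ¬ G.Adj l b) with hJ
    have hIJ : I.card + J.card = m := by
      rw [← hΛ]; exact Finset.card_filter_add_card_filter_not _
    have hE : ep G Λ Λ ≤ J.card * (J.card - 1) := by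
      unfold ep
      have h1 : ∑ s ∈ Λ, (Λ.filter fun t => G.Adj s t).card =
          ∑ s ∈ J, (Λ.filter fun t => G.Adj s t).card := by
        symm
        refine Finset.sum_subset (Finset.filter_subset _ _) ?_
        intro l hl hl'
        rw [hJ, mem_filter] at hl'
        push Not at hl'
        rw [Finset.card_eq_zero, Finset.filter_eq_empty_iff]
        intro b hb
        exact hl' hl b hb
      rw [h1, ← smul_eq_mul]
      refine Finset.sum_le_card_nsmul J _ (J.card - 1) fun s hs => ?_
      rw [← Finset.card_erase_of_mem hs]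
      refine Finset.card_le_card ?_
      intro t ht
      rw [mem_filter] at ht
      rw [mem_erase, hJ, mem_filter]
      refine ⟨fun h => ht.2.ne h.symm, ht.1, fun h => ?_⟩
      rw [hJ, mem_filter] at hs
      exact h s hs.1 ht.2.symm
    set μ := max 2 I.card with hμ
    have hNle : ∀ w ∈ H, (N w).card ≤ μ := by
      intro w hw
      by_cases h3 : (N w).card ≤ 2
      · exact h3.trans (le_max_left _ _)
      · refine le_trans (Finset.card_le_card ?_) (le_max_right _ _)
        intro l hl
        have hlN := (hmN w l).1 hl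
        rw [hI, mem_filter]
        refine ⟨hlN.1, fun b hb hlb => ?_⟩
        have h4 : 0 < (((N w).erase l).erase b).card := by
          have h5 : (N w).card - 1 ≤ ((N w).erase l).card := Finset.pred_card_le_card_erase
          have h6 : ((N w).erase l).card - 1 ≤ (((N w).erase l).erase b).card :=
            Finset.pred_card_le_card_erase
          omega
        obtain ⟨s, hs⟩ := Finset.card_pos.1 h4
        rw [mem_erase, mem_erase, hmN] at hs
        rw [hH, mem_filter, hmU] at hw
        exact hP b l w s hb hs.2.2.1 (fun h => hx (h ▸ hlN.1)) (fun h => hy (h ▸ hlN.1))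
          hw.1.2.1 hw.1.2.2 (fun h => hw.1.1 (h ▸ hb)) (fun h => hs.1 h.symm)
          (fun h => hs.2.1 h.symm) hlb.symm hlN.2.symm hs.2.2.2
    have hsumle : ∑ w ∈ H, (N w).card ≤ H.card * μ := by
      rw [← smul_eq_mul]
      exact Finset.sum_le_card_nsmul H _ μ hNle
    have hnpHH : np G H H = H.card * (H.card - 1) := by
      refine Six_np_self_of_not_adj ?_
      intro s hs t ht
      have ht' := ht
      rw [hH, mem_filter] at ht'
      exact hHadj s hs t ht'.1 (by omega)
    have hnpHG : np G H G1 = H.card * G1.card := by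
      refine Six_np_of_not_adj hdHG ?_
      intro s hs t ht
      rw [hG1, mem_filter] at ht
      exact hHadj s hs t ht.1 (by omega)
    have hnpU : H.card * (H.card - 1) + 2 * (H.card * G1.card) ≤ np G U U := by
      have h1 : np G (H ∪ G1) (H ∪ G1) ≤ np G U U :=
        np_mono G (Finset.union_subset hHU hGU) (Finset.union_subset hHU hGU)
      rw [Six_np_two hdHG, hnpHH, hnpHG] at h1
      omega
    have har := Six_arith H.card μ
    have hG1le : G1.card ≤ H.card * G1.card := Nat.le_mul_of_pos_left _ hh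
    have hlast : J.card * (J.card - 1) + μ * (μ + 1) ≤ m * (m + 1) := by
      have hJ1 : J.card * (J.card - 1) ≤ J.card * J.card := Nat.mul_le_mul_left _ (by omega)
      rcases Nat.le_total I.card 2 with h2 | h2
      · have : μ = 2 := by rw [hμ]; omega
        rw [this]
        have h3 : J.card * (J.card - 1) ≤ m * (m - 1) :=
          Nat.mul_le_mul (by omega) (by omega)
        have h4 : m * (m + 1) = m * (m - 1) + 2 * m := by
          obtain ⟨j, rfl⟩ : ∃ j, m = j + 1 := ⟨m - 1, by omega⟩
          simp only [Nat.add_sub_cancel]; ring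
        omega
      · have : μ = I.card := by rw [hμ]; omega
        rw [this, ← hIJ]
        nlinarith [Nat.zero_le (I.card * J.card)]
    rw [hF, hsum]
    omega

end Pool.MP40
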