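import Pool.Agent.Lib.MP_40d15f_co.Count

/-!
# MP_40d15f_co : paths with 2, 3, 4 vertices (upper bounds)
-/

set_option autoImplicit false

open Finset

namespace Pool.MP40

variable {V : Type} [Fintype V] {G : SimpleGraph V} {k : ℕ} {x y : V}

omit [Fintype V] in
private theorem small_two (h : G.Adj x y) : HasXY G 2 x y :=
  ⟨[x, y], ⟨by simp [h.ne], by simp [h], by simp, by simp⟩, rfl⟩

omit [Fintype V] in
private theorem small_np_pair [DecidableEq V] (hxy : x ≠ y) :
    np G {x, y} {x, y} = (by classical exact if G.Adj x y then 0 else 2) := by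
  classical
  unfold np
  rw [Finset.sum_pair hxy]
  by_cases h : G.Adj x y
  · have h1 : (({x, y} : Finset V).filter fun t => t ≠ x ∧ ¬ G.Adj x t) = ∅ := by
      ext t
      simp only [mem_filter, mem_insert, mem_singleton, notMem_empty, iff_false]
      rintro ⟨rfl | rfl, h1, h2⟩
      · exact h1 rfl
      · exact h2 h
    have h2 : (({x, y} : Finset V).filter fun t => t ≠ y ∧ ¬ G.Adj y t) = ∅ := by
      ext t
      simp only [mem_filter, mem_insert, mem_singleton, notMem_empty, iff_false]
      rintro ⟨rfl | rfl, h1, h2⟩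
      · exact h2 h.symm
      · exact h1 rfl
    rw [if_pos h]
    refine Eq.trans (congrArg₂ (· + ·) (?_ : _ = 0) (?_ : _ = 0)) rfl
    · convert Finset.card_eq_zero.2 h1
    · convert Finset.card_eq_zero.2 h2
  · have h1 : (({x, y} : Finset V).filter fun t => t ≠ x ∧ ¬ G.Adj x t) = {y} := by
      ext t
      simp only [mem_filter, mem_insert, mem_singleton]
      constructor
      · rintro ⟨rfl | rfl, h1, -⟩
        · exact absurd rfl h1
        · rfl
      · rintro rfl
        exact ⟨Or.inr rfl, hxy.symm, h⟩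
    have h2 : (({x, y} : Finset V).filter fun t => t ≠ y ∧ ¬ G.Adj y t) = {x} := by
      ext t
      simp only [mem_filter, mem_insert, mem_singleton]
      constructor
      · rintro ⟨rfl | rfl, h1, -⟩
        · rfl
        · exact absurd rfl h1
      · rintro rfl
        exact ⟨Or.inl rfl, hxy, fun h' => h h'.symm⟩
    rw [if_neg h]
    refine Eq.trans (congrArg₂ (· + ·) (?_ : _ = 1) (?_ : _ = 1)) rfl
    · convert Finset.card_eq_one.2 ⟨y, h1⟩
    · convert Finset.card_eq_one.2 ⟨x, h2⟩

theorem up_2 (hxy : x ≠ y) (he : te G < 2) : HasXY G 2 x y := by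
  classical
  by_cases h : G.Adj x y
  · exact small_two h
  exfalso
  have h1 := te_add G ({x, y} : Finset V)
  rw [small_np_pair hxy, if_neg h, Finset.sum_pair hxy] at h1
  have h2 : 0 < db G x := Finset.card_pos.2 ⟨y, mem_nonb.2 ⟨hxy.symm, h⟩⟩
  have h3 : 0 < db G y := Finset.card_pos.2 ⟨x, mem_nonb.2 ⟨hxy, fun h' => h h'.symm⟩⟩
  omega

theorem up_3 (hxy : x ≠ y) (he : te G < 2 * (Fintype.card V - 2)) : HasXY G 3 x y := by
  classical
  by_cases hw : ∃ w, G.Adj x w ∧ G.Adj w y
  · obtain ⟨w, h1, h2⟩ := hw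
    exact ⟨[x, w, y], ⟨by simp [h1.ne, h2.ne, hxy], by simp [h1, h2], by simp, by simp⟩, rfl⟩
  exfalso
  push Not at hw
  have h1 := te_add G ({x, y} : Finset V)
  rw [small_np_pair hxy, Finset.sum_pair hxy] at h1
  have h2 : (univ : Finset V) \ {x, y} ⊆ (nonb G x).erase y ∪ (nonb G y).erase x := by
    intro w hw'
    simp only [mem_sdiff, mem_univ, mem_insert, mem_singleton, not_or, true_and] at hw'
    simp only [mem_union, mem_erase, mem_nonb]
    by_cases h3 : G.Adj x w
    · right
      exact ⟨hw'.1, hw'.2, fun h4 => hw w h3 h4.symm⟩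
    · left
      exact ⟨hw'.2, hw'.1, h3⟩
  have h3 := Finset.card_le_card h2
  have h4 := Finset.card_union_le ((nonb G x).erase y) ((nonb G y).erase x)
  have h5 : ((univ : Finset V) \ {x, y}).card = Fintype.card V - 2 := by
    rw [Finset.card_sdiff_of_subset (Finset.subset_univ _), Finset.card_pair hxy, Finset.card_univ]
  by_cases h : G.Adj x y
  · rw [if_pos h] at h1
    have h6 := Finset.card_le_card (Finset.erase_subset y (nonb G x))
    have h7 := Finset.card_le_card (Finset.erase_subset x (nonb G y))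
    unfold db at h1
    omega
  · rw [if_neg h] at h1
    have h6 := Finset.card_erase_add_one (a := y) (s := nonb G x) (mem_nonb.2 ⟨hxy.symm, h⟩)
    have h7 := Finset.card_erase_add_one (a := x) (s := nonb G y)
      (mem_nonb.2 ⟨hxy, fun h' => h h'.symm⟩)
    unfold db at h1
    omega

private theorem small_arith {n k p q m t b : ℤ} (hp : 0 ≤ p) (hm : 0 ≤ m) (hpq : p ≤ q)
    (hk : 3 ≤ k) (hb : b = 0 ∨ b = 1) (ha : k - 1 + b ≤ p + m)
    (ht : 2 * (n - 2 - (p + m) + b) + 2 * (n - 2 - (q + m) + b) +
      (p * (q + m) + q * (p + m) + m * (p + q + m - 1)) ≤ t + 2 * b) :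
    4 * (n - k - 1) + (k - 1) * (k - 2) ≤ t := by
  -- reduce to q = p
  have h1 : p * (p + m) + p * (p + m) + m * (p + p + m - 1) - 2 * (p + m) ≤
      p * (q + m) + q * (p + m) + m * (p + q + m - 1) - 2 * (q + m) := by
    have : 0 ≤ (q - p) * (p + (p + m) + m - 2) := by
      apply mul_nonneg
      · linarith
      · rcases hb with rfl | rfl <;> linarith
    nlinarith
  -- now everything in terms of p, m
  have h2 : 2 * p * (p + m) + m * (2 * p + m - 1) - 4 * (p + m) ≥
      (p + m) ^ 2 - 5 * (p + m) := by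
    nlinarith [mul_nonneg hp hp, mul_nonneg hp hm]
  have h3 : (p + m) ^ 2 - 5 * (p + m) ≥ (k - 1) ^ 2 - 5 * (k - 1) := by
    have h4 : k - 1 ≤ p + m := by rcases hb with rfl | rfl <;> linarith
    rcases h4.eq_or_lt with h5 | h5
    · rw [h5]
    · have h6 : k ≤ p + m := by linarith [Int.add_one_le_iff.2 h5]
      have : 0 ≤ (p + m - (k - 1)) * (p + m + (k - 1) - 5) :=
        mul_nonneg (by linarith) (by linarith)
      nlinarith
  have hb' : 0 ≤ b := by rcases hb with rfl | rfl <;> norm_num
  nlinarith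

private theorem small_four_aux (hk : 3 ≤ k) (hn : 2 * k + 4 ≤ Fintype.card V)
    (hδ : ∀ v, k ≤ (nb G v).card) (hxy : x ≠ y)
    (he : te G < 4 * (Fintype.card V - k - 1) + (k - 1) * (k - 2))
    (hle : (nb G x).card ≤ (nb G y).card) : HasXY G 4 x y := by
  classical
  by_cases hw : ∃ a c, a ≠ y ∧ c ≠ x ∧ G.Adj x a ∧ G.Adj y c ∧ G.Adj a c
  · obtain ⟨a, c, h1, h2, h3, h4, h5⟩ := hw
    exact ⟨[x, a, c, y], ⟨by simp [h1, h3.ne, h2.symm, h5.ne, hxy, h4.ne.symm],
      by simp [h3, h5, h4.symm], by simp, by simp⟩, rfl⟩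
  exfalso
  push Not at hw
  set A := (nb G x).erase y with hA
  set C := (nb G y).erase x with hC
  have hxA : x ∉ A := by simp [hA, mem_nb]
  have hyA : y ∉ A := by simp [hA]
  have hxC : x ∉ C := by simp [hC]
  have hyC : y ∉ C := by simp [hC, mem_nb]
  have hAC : ∀ a ∈ A, ∀ c ∈ C, ¬ G.Adj a c := by
    intro a ha c hc
    rw [hA, mem_erase, mem_nb] at ha
    rw [hC, mem_erase, mem_nb] at hc
    exact hw a c ha.1 hc.1 ha.2 hc.2
  set P := A \ C with hP
  set Q := C \ A with hQ
  set M := A ∩ C with hM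
  have hAe : P.card + M.card = A.card := by
    rw [hP, hM, Finset.card_sdiff_add_card_inter]
  have hCe : Q.card + M.card = C.card := by
    rw [hQ, hM, Finset.inter_comm, Finset.card_sdiff_add_card_inter]
  have hUe : (A ∪ C).card = P.card + Q.card + M.card := by
    have := Finset.card_union_add_card_inter A C
    rw [← hM] at this
    omega
  -- non-adjacent pairs in the complement
  have hnp : P.card * (Q.card + M.card) + Q.card * (P.card + M.card) +
      M.card * (P.card + Q.card + M.card - 1) ≤ np G ({x, y} : Finset V)ᶜ ({x, y} : Finset V)ᶜ := by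
    have hsub : A ∪ C ⊆ ({x, y} : Finset V)ᶜ := by
      intro w hw'
      simp only [mem_compl, mem_insert, mem_singleton, not_or]
      rcases mem_union.1 hw' with h | h
      · exact ⟨fun h' => hxA (h' ▸ h), fun h' => hyA (h' ▸ h)⟩
      · exact ⟨fun h' => hxC (h' ▸ h), fun h' => hyC (h' ▸ h)⟩
    refine le_trans ?_ (np_mono G hsub hsub)
    have hdec : A ∪ C = P ∪ (Q ∪ M) := by
      ext w; simp only [hP, hQ, hM, mem_union, mem_sdiff, mem_inter]; tauto
    have hd1 : Disjoint P (Q ∪ M) := by
      rw [Finset.disjoint_left]; intro w h1 h2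
      simp only [hP, hQ, hM, mem_union, mem_sdiff, mem_inter] at h1 h2; tauto
    have hd2 : Disjoint Q M := by
      rw [Finset.disjoint_left]; intro w h1 h2
      simp only [hQ, hM, mem_sdiff, mem_inter] at h1 h2; tauto
    have key : np G (A ∪ C) (A ∪ C) = np G P (A ∪ C) + (np G Q (A ∪ C) + np G M (A ∪ C)) := by
      conv_lhs => rw [hdec]
      rw [np_union_left G hd1, np_union_left G hd2, ← hdec]
    rw [key]
    have hlow : ∀ (S : Finset V) (r : ℕ), (∀ s ∈ S, r ≤ ((A ∪ C).filter fun t => t ≠ s ∧
        ¬ G.Adj s t).card) → S.card * r ≤ np G S (A ∪ C) := by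
      intro S r h
      unfold np
      have := Finset.card_nsmul_le_sum S _ r h
      simpa using this
    have e1 := hlow P (Q.card + M.card) (by
      intro s hs
      rw [hCe]
      refine Finset.card_le_card fun c hc => ?_
      rw [hP, mem_sdiff] at hs
      exact mem_filter.2 ⟨mem_union_right _ hc, fun h => hs.2 (h ▸ hc), hAC s hs.1 c hc⟩)
    have e2 := hlow Q (P.card + M.card) (by
      intro s hs
      rw [hAe]
      refine Finset.card_le_card fun a ha => ?_
      rw [hQ, mem_sdiff] at hs
      exact mem_filter.2 ⟨mem_union_left _ ha, fun h => hs.2 (h ▸ ha),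
        fun h => hAC a ha s hs.1 h.symm⟩)
    have e3 := hlow M (P.card + Q.card + M.card - 1) (by
      intro s hs
      rw [← hUe]
      rw [hM, mem_inter] at hs
      rw [← Finset.card_erase_of_mem (mem_union_left C hs.1)]
      refine Finset.card_le_card fun a ha => ?_
      rw [mem_erase, mem_union] at ha
      refine mem_filter.2 ⟨mem_union.2 ha.2, ha.1, ?_⟩
      rcases ha.2 with h | h
      · exact fun h' => hAC a h s hs.2 h'.symm
      · exact hAC s hs.1 a h)
    omega
  have h1 := te_add G ({x, y} : Finset V)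
  rw [small_np_pair hxy, Finset.sum_pair hxy] at h1
  have hdx := nb_add_db (G := G) x
  have hdy := nb_add_db (G := G) y
  have hδx := hδ x
  -- the two cases for the edge xy
  obtain ⟨b, hb, hbx, hby, hb2⟩ : ∃ b : ℕ, (b = 0 ∨ b = 1) ∧ (nb G x).card + b = A.card + 1 ∧
      (nb G y).card + b = C.card + 1 ∧ (if G.Adj x y then 0 else 2) = 2 * b := by
    by_cases h : G.Adj x y
    · refine ⟨0, Or.inl rfl, ?_, ?_, by simp [h]⟩
      · rw [hA, Finset.card_erase_add_one (mem_nb.2 h)]; rfl
      · rw [hC, Finset.card_erase_add_one (mem_nb.2 h.symm)]; rfl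
    · refine ⟨1, Or.inr rfl, ?_, ?_, by simp [h]⟩
      · rw [hA, Finset.erase_eq_of_notMem (fun h' => h (mem_nb.1 h'))]
      · rw [hC, Finset.erase_eq_of_notMem (fun h' => h (mem_nb.1 h').symm)]
  rw [hb2] at h1
  have hMsub : 1 ≤ P.card + Q.card + M.card := by omega
  have harith := small_arith (n := Fintype.card V) (k := k) (p := P.card) (q := Q.card)
    (m := M.card) (t := te G) (b := b) (Int.natCast_nonneg _) (Int.natCast_nonneg _)
    (by exact_mod_cast (by omega : P.card ≤ Q.card)) (by exact_mod_cast hk)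
    (by
      rcases hb with h | h
      · left; exact_mod_cast h
      · right; exact_mod_cast h) (by omega) (by
      have h1' : ((te G : ℕ) : ℤ) + 2 * b = 2 * (db G x + db G y) +
          np G ({x, y} : Finset V)ᶜ ({x, y} : Finset V)ᶜ := by exact_mod_cast h1
      have hnp' : (P.card : ℤ) * (Q.card + M.card) + Q.card * (P.card + M.card) +
          M.card * (P.card + Q.card + M.card - 1) ≤
          np G ({x, y} : Finset V)ᶜ ({x, y} : Finset V)ᶜ := by
        have h := hnp
        zify [hMsub] at h
        exact h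
      rw [h1']
      have hx' : (db G x : ℤ) = Fintype.card V - 2 - (P.card + M.card) + b := by omega
      have hy' : (db G y : ℤ) = Fintype.card V - 2 - (Q.card + M.card) + b := by omega
      rw [hx', hy']
      linarith)
  have he' : (te G : ℤ) < 4 * ((Fintype.card V : ℤ) - k - 1) + (k - 1) * (k - 2) := by
    have h := he
    zify [(by omega : k ≤ Fintype.card V), (by omega : 1 ≤ Fintype.card V - k),
      (by omega : 1 ≤ k), (by omega : 2 ≤ k)] at h
    exact h
  linarith

theorem up_4 (hk : 3 ≤ k) (hn : 2 * k + 4 ≤ Fintype.card V)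
    (hδ : ∀ v, k ≤ (nb G v).card) (hxy : x ≠ y)
    (he : te G < 4 * (Fintype.card V - k - 1) + (k - 1) * (k - 2)) : HasXY G 4 x y := by
  rcases le_total (nb G x).card (nb G y).card with h | h
  · exact small_four_aux hk hn hδ hxy he h
  · exact (small_four_aux hk hn hδ hxy.symm he h).symm

end Pool.MP40
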