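import Pool.Agent.Lib.MP_40d15f_co.Low234
import Pool.Agent.Lib.MP_40d15f_co.Low5
import Pool.Agent.Lib.MP_40d15f_co.Low6
import Pool.Agent.Lib.MP_40d15f_co.LowCut
import Pool.Agent.Lib.MP_40d15f_co.LowTwo
import Pool.Agent.Lib.MP_40d15f_co.Close
import Pool.Agent.Lib.MP_40d15f_co.R4
import Pool.Agent.Lib.MP_40d15f_co.Six
import Pool.Agent.Lib.MP_40d15f_co.Small
import Pool.Agent.Lib.MP_40d15f_co.Five

/-!
# MP_40d15f_co : main theorem
-/

set_option autoImplicit false

open Finset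

namespace Pool.MP40

/-- twice the largest number of non-edges that does not force `P_i` -/
def thr (n k i : ℕ) : ℕ :=
  if i = 2 then 2
  else if i = 3 then 2 * (n - 2)
  else if i = 4 then 4 * (n - k - 1) + (k - 1) * (k - 2)
  else if i = 5 then 2 * k * (n - k - 1) + ((k - 1) * (k - 2) - 2 * ((k - 1) / 2))
  else if i = n then (k - 1) * (2 * n - 3 * k)
  else if n - k + 2 ≤ i then 2 * ((k - 1) * (n - k - 1))
  else if i = n - k + 1 then 2 * (k * (n - k - 2))
  else if k + 2 ≤ i then 2 * (k * (n - k - 1))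
  else if i = 6 then 2 * ((k + 1) * n - k * (k + 3))
  else 2 * ((k + 1) * (n - k - 1) - 1)

theorem two_nj (n j : ℕ) : 2 * nj n j = (n - j) * (n - j - 1) := by
  unfold nj
  exact Nat.mul_div_cancel' (even_iff_two_dvd.1 (Nat.even_mul_pred_self (n - j)))

theorem two_half (k : ℕ) : 2 * (k * (k - 1) / 2) = k * (k - 1) :=
  Nat.mul_div_cancel' (even_iff_two_dvd.1 (Nat.even_mul_pred_self k))

theorem two_half1 (k : ℕ) : 2 * (k * (k + 1) / 2) = k * (k + 1) :=
  Nat.mul_div_cancel' (even_iff_two_dvd.1 (Nat.even_mul_succ_self k))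

theorem two_half3 (k : ℕ) : 2 * (k * (k + 3) / 2) = k * (k + 3) := by
  refine Nat.mul_div_cancel' (even_iff_two_dvd.1 ?_)
  have h := Nat.even_mul_succ_self k
  have : k * (k + 3) = k * (k + 1) + 2 * k := by ring
  rw [this]
  exact h.add (even_two_mul k)

theorem table_thr_aux (κ M i : ℕ) (hM : 10 * κ + 50 ≤ M + κ + 10) :
    2 * table (M + κ + 10) (κ + 3) i + thr (M + κ + 10) (κ + 3) i =
      (M + κ + 10) * (M + κ + 9) + 2 := by
  have e0 := two_nj (M + κ + 10) 0
  have e1 := two_nj (M + κ + 10) 1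
  have e2 := two_nj (M + κ + 10) 2
  have ek := two_nj (M + κ + 10) (κ + 3)
  have ek1 := two_nj (M + κ + 10) (κ + 3 + 1)
  have ek0 := two_nj (M + κ + 10) (κ + 2)
  have d1 := two_half (κ + 3)
  have d2 := two_half1 (κ + 3)
  have d3 := two_half3 (κ + 3)
  have d4 := two_half3 (κ + 2)
  have a0 : M + κ + 10 - 0 = M + κ + 10 := by omega
  have a1 : M + κ + 10 - 1 = M + κ + 9 := by omega
  have a2 : M + κ + 10 - 2 = M + κ + 8 := by omega
  have ak : M + κ + 10 - (κ + 3) = M + 7 := by omega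
  have ak1 : M + κ + 10 - (κ + 3 + 1) = M + 6 := by omega
  have ak0 : M + κ + 10 - (κ + 2) = M + 8 := by omega
  have b2 : M + κ + 9 - 1 = M + κ + 8 := by omega
  have b3 : M + κ + 8 - 1 = M + κ + 7 := by omega
  have b4 : M + 7 - 1 = M + 6 := by omega
  have b5 : M + 6 - 1 = M + 5 := by omega
  have b6 : M + 8 - 1 = M + 7 := by omega
  have b7 : M + 7 - 2 = M + 5 := by omega
  have b8 : κ + 3 - 1 = κ + 2 := by omega
  have b9 : κ + 3 - 2 = κ + 1 := by omega
  rw [a0, a1] at e0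
  rw [a1, b2] at e1
  rw [a2, b3] at e2
  rw [ak, b4] at ek
  rw [ak1, b5] at ek1
  rw [ak0, b6] at ek0
  rw [b8] at d1
  have c1 : (κ + 2) * (κ + 3 + 2) / 2 = (κ + 2) * (κ + 2 + 3) / 2 := by
    have : (κ + 2) * (κ + 3 + 2) = (κ + 2) * (κ + 2 + 3) := by ring
    rw [this]
  unfold table thr
  simp only [ak, b4, b7, b8, b9, a2, c1]
  generalize nj (M + κ + 10) 0 = n0 at *
  generalize nj (M + κ + 10) 1 = n1 at *
  generalize nj (M + κ + 10) 2 = n2 at *
  generalize nj (M + κ + 10) (κ + 3) = nk at *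
  generalize nj (M + κ + 10) (κ + 3 + 1) = nk1 at *
  generalize nj (M + κ + 10) (κ + 2) = nk0 at *
  generalize (κ + 3) * (κ + 2) / 2 = h1 at *
  generalize (κ + 3) * (κ + 3 + 1) / 2 = h2 at *
  generalize (κ + 3) * (κ + 3 + 3) / 2 = h3 at *
  generalize (κ + 2) * (κ + 2 + 3) / 2 = h4 at *
  clear a0 a1 a2 ak ak1 ak0 b2 b3 b4 b5 b6 b7 b8 b9 c1
  split_ifs
  · omega
  · have : (M + κ + 10) * (M + κ + 9) = (M + κ + 9) * (M + κ + 8) + 2 * (M + κ + 9) := by ring
    omega
  · have h10 : (κ + 3) * (κ + 2) ≤ (M + κ + 8) * (M + κ + 7) :=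
      Nat.mul_le_mul (by omega) (by omega)
    have h11 : (M + κ + 10) * (M + κ + 9) + 2 + (κ + 3) * (κ + 2) =
      (M + κ + 8) * (M + κ + 7) + 2 * (3 * κ + 8) + (4 * (M + 6) + (κ + 2) * (κ + 1)) := by ring
    omega
  · have h10 : 2 * ((κ + 2) / 2) ≤ (κ + 2) * (κ + 1) := by
      have h1 : 2 * ((κ + 2) / 2) ≤ κ + 2 := Nat.mul_div_le _ _
      have h2 : κ + 2 ≤ (κ + 2) * (κ + 1) := Nat.le_mul_of_pos_right _ (by omega)
      omega
    have h11 : (M + κ + 10) * (M + κ + 9) + 2 =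
      (M + 7) * (M + 6) + 4 * (κ + 3) + 2 * (κ + 3) * (M + 6) + (κ + 2) * (κ + 1) := by ring
    omega
  · obtain ⟨Q, hQ⟩ : ∃ Q, 2 * M = Q + κ := ⟨2 * M - κ, by omega⟩
    have h12 : 2 * (M + κ + 10) - 3 * (κ + 3) = Q + 11 := by omega
    rw [h12]
    have h11 : (M + κ + 10) * (M + κ + 9) =
      (M + 8) * (M + 7) + 2 * ((κ + 3) * (κ + 2)) + (κ + 2) * (Q + 11) := by
      zify at hQ ⊢
      have : (Q : ℤ) = 2 * M - κ := by linarith
      rw [this]; ring
    omega
  · have h11 : (M + κ + 10) * (M + κ + 9) =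
      (M + 8) * (M + 7) + (κ + 2) * (κ + 2 + 3) + 2 * ((κ + 2) * (M + 6)) := by ring
    omega
  · have h11 : (M + κ + 10) * (M + κ + 9) =
      (M + 7) * (M + 6) + (κ + 3) * (κ + 3 + 3) + 2 * ((κ + 3) * (M + 5)) := by ring
    omega
  · have h11 : (M + κ + 10) * (M + κ + 9) =
      (M + 7) * (M + 6) + (κ + 3) * (κ + 3 + 1) + 2 * ((κ + 3) * (M + 6)) := by ring
    omega
  · have h10 : (κ + 3) * (κ + 3 + 3) ≤ (κ + 3 + 1) * (M + κ + 10) :=
      Nat.mul_le_mul (by omega) (by omega)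
    have h11 : (M + κ + 10) * (M + κ + 9) + 2 + 2 * ((κ + 3) * (κ + 3 + 3)) =
      (M + 6) * (M + 5) + (κ + 3) * (κ + 3 + 3) + 2 * ((κ + 3 + 1) * (M + κ + 10)) := by ring
    omega
  · have h10 : 1 ≤ (κ + 3 + 1) * (M + 6) := Nat.mul_pos (by omega) (by omega)
    have h11 : (M + κ + 10) * (M + κ + 9) =
      (M + 6) * (M + 5) + (κ + 3) * (κ + 3 + 1) + 2 * ((κ + 3 + 1) * (M + 6)) := by ring
    omega

theorem num_n {n k : ℕ} (hn : 100 * (k + 2) ^ 3 ≤ n) :
    3 * (k + 2) * (k + 2) + 10 * (k + 2) ≤ n := by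
  have h1 : (k + 2) ^ 3 = (k + 2) * (k + 2) * (k + 2) := by ring
  have h2 : (k + 2) * (k + 2) ≤ (k + 2) * (k + 2) * (k + 2) :=
    Nat.le_mul_of_pos_right _ (by omega)
  have h3 : (k + 2) ≤ (k + 2) * (k + 2) := Nat.le_mul_of_pos_right _ (by omega)
  have h4 : 3 * (k + 2) * (k + 2) = 3 * ((k + 2) * (k + 2)) := by ring
  omega

theorem table_thr {n k : ℕ} (hk : 3 ≤ k) (hn : 100 * (k + 2) ^ 3 ≤ n) (i : ℕ) :
    2 * table n k i + thr n k i = n * (n - 1) + 2 := by
  have hbig := num_n hn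
  obtain ⟨κ, rfl⟩ : ∃ κ, k = κ + 3 := ⟨k - 3, by omega⟩
  obtain ⟨M, rfl⟩ : ∃ M, n = M + κ + 10 := ⟨n - κ - 10, by omega⟩
  exact table_thr_aux κ M i (by omega)

/-- upper bounds -/
theorem up_all {V : Type} [Fintype V] {G : SimpleGraph V} {k i : ℕ} {x y : V} (hk : 3 ≤ k)
    (hn : 100 * (k + 2) ^ 3 ≤ Fintype.card V) (hi : 2 ≤ i) (hin : i ≤ Fintype.card V)
    (hδ : ∀ v, k ≤ (nb G v).card) (hxy : x ≠ y) (he : te G < thr (Fintype.card V) k i) :
    HasXY G i x y := by
  have hbig := num_n hn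
  unfold thr at he
  split_ifs at he with h1 h2 h3 h4 h5 h6 h7 h8 h9
  · subst h1; exact up_2 hxy he
  · subst h2; exact up_3 hxy he
  · subst h3; exact up_4 hk (by omega) hδ hxy he
  · subst h4; exact up_5 hk hn hδ hxy he
  · rw [h5]; exact up_n hk hn hδ hxy he
  · exact up_R4 hk hn hδ hxy (by omega) (by omega) he
  · rw [h7]; exact up_R3 hk hn hδ hxy he
  · exact up_R2 hk hn hδ hxy (by omega) h8 (by omega) he
  · subst h9
    rcases up_R1 (i := 6) (by omega) hn hδ hxy le_rfl (by omega) (lt_of_lt_of_le he (by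
      have h10 : (k + 1) * (Fintype.card V - k - 1) + (k + 1) * (k + 1) =
          (k + 1) * Fintype.card V := by
        rw [← mul_add]; congr 1; omega
      have h11 : (k + 1) * (k + 1) + 1 ≤ k * (k + 3) := by nlinarith
      omega)) with h | ⟨-, h, Λ, h11, h12, h13, h14, h15⟩
    · exact h
    · exact six (by omega) hδ h h11 h12 h13 h14 h15 he
  · rcases up_R1 (i := i) (by omega) hn hδ hxy (by omega) (by omega) he with h | ⟨h, -⟩
    · exact h
    · exact absurd h h9

/-- lower bounds -/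
theorem low_all {n k i : ℕ} (hk : 3 ≤ k) (hn : 100 * (k + 2) ^ 3 ≤ n) (hi : 2 ≤ i)
    (hin : i ≤ n) : Low n k i (thr n k i) := by
  have hbig := num_n hn
  unfold thr
  split_ifs with h1 h2 h3 h4 h5 h6 h7 h8 h9
  · subst h1; exact low_2 (by omega)
  · subst h2; exact low_3 hk (by omega)
  · subst h3; exact low_4 hk (by omega)
  · subst h4; exact low_5 hk (by nlinarith)
  · subst h5; exact low_n hk (by omega)
  · have e : n - k - 1 = n - (k - 1) - 2 := by omega
    rw [e]
    exact low_two hk (by omega) (by omega) (by omega) (by omega)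
  · exact low_two hk (by omega) (by omega) (by omega) (by omega)
  · exact low_cut hk (by omega) h8
  · subst h9; exact low_6 (by omega) (by omega)
  · exact low_bridge hk (by omega) (by omega)

/-! ### transfer to `Fin n` -/

theorem nb_comap {V W : Type} [Fintype V] [Fintype W] (f : V ≃ W) (G : SimpleGraph W) (v : V) :
    (nb (G.comap f) v).card = (nb G (f v)).card := by
  refine Finset.card_bij (fun w _ => f w) ?_ ?_ ?_
  · intro w hw; rw [mem_nb] at hw ⊢; exact hw
  · intro a _ b _ h; exact f.injective h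
  · intro w hw
    refine ⟨f.symm w, ?_, f.apply_symm_apply w⟩
    rw [mem_nb] at hw ⊢
    show G.Adj (f v) (f (f.symm w))
    rw [f.apply_symm_apply]; exact hw

theorem te_comap {V W : Type} [Fintype V] [Fintype W] (f : V ≃ W) (G : SimpleGraph W) :
    te (G.comap f) = te G := by
  unfold te
  rw [← Equiv.sum_comp f]
  refine Finset.sum_congr rfl fun v _ => ?_
  have h1 := nb_add_db (G := G.comap f) v
  have h2 := nb_add_db (G := G) (f v)
  have h3 := nb_comap f G v
  have h4 := Fintype.card_congr f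
  omega

theorem hasXY_comap {V W : Type} (f : V ≃ W) {G : SimpleGraph W} {i : ℕ} {x y : V}
    (h : HasXY (G.comap f) i x y) : HasXY G i (f x) (f y) := by
  obtain ⟨l, ⟨nd, ch, hd, lt⟩, hli⟩ := h
  refine ⟨l.map f, ⟨nd.map f.injective, ?_, ?_, ?_⟩, by simpa using hli⟩
  · rw [List.isChain_map]
    exact ch
  · simp [hd]
  · simp [lt]

theorem main {n k i : ℕ} (hk : 3 ≤ k) (hn : 100 * (k + 2) ^ 3 ≤ n) (hi : 2 ≤ i) (hin : i ≤ n) :
    IsLeast (Adm n k i) (table n k i) := by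
  classical
  have ht := table_thr hk hn i
  constructor
  · intro G hδ he
    rw [hasP_iff]
    intro x y hxy
    have hc : Fintype.card (Fin n) = n := Fintype.card_fin n
    have h1 := te_add_edges (G := G)
    rw [hc] at h1
    refine up_all hk (by rw [hc]; exact hn) hi (by rw [hc]; exact hin) (fun v => ?_) hxy ?_
    · rw [nb_eq_neighborFinset]; exact hδ v
    · rw [hc]
      omega
  · intro m hm
    by_contra hlt
    push Not at hlt
    obtain ⟨V, _, H, hV, hδ, hte, x, y, hxy, hno⟩ := low_all hk hn hi hin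
    have f : Fin n ≃ V := (Fintype.equivFinOfCardEq hV).symm
    have h1 := te_add_edges (G := H.comap f)
    rw [te_comap, Fintype.card_fin] at h1
    have h2 : HasP (H.comap f) i := by
      refine hm (H.comap f) (fun v => ?_) ?_
      · rw [← nb_eq_neighborFinset, nb_comap]; exact hδ _
      · omega
    rw [hasP_iff] at h2
    have h3 := hasXY_comap f (h2 (f.symm x) (f.symm y) (fun h => hxy (f.symm.injective h)))
    rw [f.apply_symm_apply, f.apply_symm_apply] at h3
    exact hno h3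

end Pool.MP40
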