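import Pool.Agent.Lib.MP_40d15f_co.Exits

/-!
# MP_40d15f_co : the range `6 ≤ i ≤ k+1`
-/

set_option autoImplicit false
set_option linter.unusedSectionVars false

open Finset

namespace Pool.MP40

variable {V : Type} [Fintype V] {G : SimpleGraph V} {k : ℕ} {x y : V}

/-- paths inside an almost complete set -/
theorem internal [DecidableEq V] {K : Finset V} (hx : x ∈ K) (hy : y ∈ K) (hxy : x ≠ y)
    (hm : ∀ v ∈ K, (K ∩ nonb G v).card ≤ 1)
    (hK : 6 ≤ K.card ∨ (5 ≤ K.card ∧ K ∩ nonb G x = ∅)) {j : ℕ} (h4 : 4 ≤ j)
    (hj : j ≤ K.card) : ∃ l, PathL G x y l ∧ l.length = j ∧ ∀ v ∈ l, v ∈ K := by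
  have hadj : ∀ u v, u ∈ K → v ∈ K → u ≠ v → v ∉ K ∩ nonb G u → G.Adj u v := by
    intro u v hu hv huv h
    rw [mem_inter, mem_nonb] at h
    by_contra hcon
    exact h ⟨hv, huv.symm, hcon⟩
  induction j, h4 using Nat.le_induction with
  | base =>
    obtain ⟨q, hq⟩ : ∃ q, q ∈ K \ ({x, y} ∪ (K ∩ nonb G y)) := by
      rw [← Finset.Nonempty, ← Finset.card_pos]
      have h1 := Finset.le_card_sdiff ({x, y} ∪ (K ∩ nonb G y)) K
      have h2 := Finset.card_union_le {x, y} (K ∩ nonb G y)
      have h3 := Finset.card_le_two (a := x) (b := y)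
      have h4 := hm y hy
      omega
    simp only [mem_sdiff, mem_union, mem_insert, mem_singleton, not_or] at hq
    obtain ⟨hqK, ⟨hqx, hqy⟩, hqn⟩ := hq
    obtain ⟨p, hp⟩ : ∃ p, p ∈ K \ ({x, y, q} ∪ ((K ∩ nonb G x) ∪ (K ∩ nonb G q))) := by
      rw [← Finset.Nonempty, ← Finset.card_pos]
      have h1 := Finset.le_card_sdiff ({x, y, q} ∪ ((K ∩ nonb G x) ∪ (K ∩ nonb G q))) K
      have h2 := Finset.card_union_le {x, y, q} ((K ∩ nonb G x) ∪ (K ∩ nonb G q))
      have h2' := Finset.card_union_le (K ∩ nonb G x) (K ∩ nonb G q)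
      have h3 := Finset.card_le_three (a := x) (b := y) (c := q)
      have h4 := hm x hx
      have h5 := hm q hqK
      rcases hK with hK | ⟨hK, hK'⟩
      · omega
      · rw [hK', Finset.card_empty] at h2'
        rw [hK'] at h2 h1 ⊢
        omega
    simp only [mem_sdiff, mem_union, mem_insert, mem_singleton, not_or] at hp
    obtain ⟨hpK, ⟨hpx, hpy, hpq⟩, hpn, hpn'⟩ := hp
    refine ⟨[x, p, q, y], pathL4 (hadj x p hx hpK (Ne.symm hpx) hpn)
      (hadj q p hqK hpK (Ne.symm hpq) hpn').symm (hadj y q hy hqK (Ne.symm hqy) hqn).symm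
      (Ne.symm hqx) hxy hpy, rfl, ?_⟩
    simp [hx, hy, hpK, hqK]
  | succ j h4 ih =>
    obtain ⟨l, hl, hlj, hlK⟩ := ih (by omega)
    obtain ⟨w, hwK, hwl⟩ : ∃ w ∈ K, w ∉ l := by
      by_contra hcon
      push Not at hcon
      have h1 : K ⊆ l.toFinset := fun v hv => List.mem_toFinset.2 (hcon v hv)
      have h2 := Finset.card_le_card h1
      rw [List.toFinset_card_of_nodup hl.nd] at h2
      omega
    obtain ⟨α, p, q, β, hdec, hp, hq⟩ : ∃ α p q β, l = α ++ p :: q :: β ∧ G.Adj w p ∧
        G.Adj w q := by
      classical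
      refine exists_consec (fun v => G.Adj w v) l ?_
      have h1 : l.countP (fun v => ¬ G.Adj w v) ≤ (K ∩ nonb G w).card := by
        rw [List.countP_eq_length_filter]
        have h1 : (l.filter fun v => ¬ G.Adj w v).Nodup := hl.nd.filter _
        rw [← List.toFinset_card_of_nodup h1]
        refine Finset.card_le_card fun v hv => ?_
        rw [List.mem_toFinset, List.mem_filter] at hv
        rw [mem_inter, mem_nonb]
        refine ⟨hlK v hv.1, ?_, by simpa using hv.2⟩
        rintro rfl; exact hwl hv.1
      have h2 := hm w hwK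
      omega
    subst hdec
    refine ⟨_, hl.insert hwl hp.symm hq, ?_, ?_⟩
    · simp only [List.length_append, List.length_cons] at hlj ⊢; omega
    · intro v hv
      simp only [List.mem_append, List.mem_cons] at hv
      rcases hv with hv | hv | hv | hv | hv
      · exact hlK v (by simp [hv])
      · exact hlK v (by simp [hv])
      · rw [hv]; exact hwK
      · exact hlK v (by simp [hv])
      · exact hlK v (by simp [hv])

theorem internal' [DecidableEq V] {K : Finset V} (hx : x ∈ K) (hy : y ∈ K) (hxy : x ≠ y)
    (hm : ∀ v ∈ K, (K ∩ nonb G v).card ≤ 1)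
    (hK : 6 ≤ K.card ∨ (5 ≤ K.card ∧ K ∩ nonb G x = ∅)) {j : ℕ} (h4 : 4 ≤ j)
    (hj : j ≤ K.card) : HasXY G j x y := by
  obtain ⟨l, hl, hlj, -⟩ := internal hx hy hxy hm hK h4 hj
  exact ⟨l, hl, hlj⟩

/-- internal path followed by one more vertex -/
theorem internal_snoc [DecidableEq V] {K : Finset V} {l : V} (hx : x ∈ K) (hl : l ∈ K)
    (hxl : x ≠ l) (hy : y ∉ K) (hly : G.Adj l y) (hm : ∀ v ∈ K, (K ∩ nonb G v).card ≤ 1)
    (hK : 6 ≤ K.card ∨ (5 ≤ K.card ∧ K ∩ nonb G x = ∅)) {j : ℕ} (h4 : 5 ≤ j)
    (hj : j ≤ K.card + 1) : HasXY G j x y := by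
  obtain ⟨m, hm', hmj, hmK⟩ := internal hx hl hxl hm hK (show 4 ≤ j - 1 by omega) (by omega)
  refine ⟨m ++ [y], hm'.append (PathL.single y) hly ?_, by simp; omega⟩
  intro v hv hv'
  simp at hv'
  subst hv'
  exact hy (hmK v hv)

theorem miss_le [DecidableEq V] (hδ : ∀ v, k ≤ (nb G v).card) (hL : (Lo G k).card = k + 1) {v : V}
    (hv : v ∈ Lo G k) : (Lo G k ∩ nonb G v).card ≤ (nb G v ∩ Wi G k).card := by
  have h1 : (nb G v).card = (nb G v ∩ Lo G k).card + (nb G v ∩ Wi G k).card := by
    rw [← Finset.card_union_of_disjoint, ← Finset.inter_union_distrib_left, Wi_eq_compl,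
      Finset.union_compl, Finset.inter_univ]
    rw [Finset.disjoint_left]
    intro w h1 h2
    rw [mem_inter] at h1 h2
    exact Lo_ne_Wi h1.2 h2.2 rfl
  have h2 : (nb G v ∩ Lo G k).card + (Lo G k ∩ nonb G v).card ≤ k := by
    rw [← Finset.card_union_of_disjoint]
    · have : ((Lo G k).erase v).card = k := by rw [Finset.card_erase_of_mem hv, hL]; rfl
      refine le_of_le_of_eq (Finset.card_le_card fun w hw => ?_) this
      rw [mem_union, mem_inter, mem_inter, mem_nb, mem_nonb] at hw
      rw [mem_erase]
      rcases hw with hw | hw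
      · exact ⟨hw.1.ne', hw.2⟩
      · exact ⟨hw.2.1, hw.1⟩
    · rw [Finset.disjoint_left]
      intro w h1 h2
      rw [mem_inter, mem_nb] at h1
      rw [mem_inter, mem_nonb] at h2
      exact h2.2.2 h1.1
  -- equality
  have h3 : k ≤ (nb G v ∩ Lo G k).card + (Lo G k ∩ nonb G v).card := by
    rw [← Finset.card_union_of_disjoint]
    · have : ((Lo G k).erase v).card = k := by rw [Finset.card_erase_of_mem hv, hL]; rfl
      refine le_of_eq_of_le this.symm (Finset.card_le_card fun w hw => ?_)
      rw [mem_erase] at hw
      rw [mem_union, mem_inter, mem_inter, mem_nb, mem_nonb]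
      tauto
    · rw [Finset.disjoint_left]
      intro w h1 h2
      rw [mem_inter, mem_nb] at h1
      rw [mem_inter, mem_nonb] at h2
      exact h2.2.2 h1.1
  have h4 := hδ v
  omega

/-- a low vertex without exits is adjacent to all low vertices -/
theorem adj_of_noexit [DecidableEq V] (hδ : ∀ v, k ≤ (nb G v).card)
    (hL : (Lo G k).card = k + 1) {v : V}
    (hv : v ∈ Lo G k) (h : ∀ a ∈ Wi G k, ¬ G.Adj v a) {w : V} (hw : w ∈ Lo G k) (hwv : w ≠ v) :
    G.Adj v w := by
  have h1 := miss_le hδ hL hv
  have h2 : nb G v ∩ Wi G k = ∅ := by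
    ext a; simp only [mem_inter, mem_nb, notMem_empty, iff_false, not_and]
    intro h1 h2; exact h a h2 h1
  rw [h2, Finset.card_empty, Nat.le_zero, Finset.card_eq_zero] at h1
  by_contra hcon
  have : w ∈ Lo G k ∩ nonb G v := by rw [mem_inter, mem_nonb]; exact ⟨hw, hwv, hcon⟩
  rw [h1] at this
  simp at this

theorem card_exits_le_one [DecidableEq V] {v z : V} (h : ∀ a ∈ Wi G k, a ≠ z → ¬ G.Adj v a) :
    (nb G v ∩ Wi G k).card ≤ 1 := by
  rw [Finset.card_le_one]
  intro a ha b hb
  rw [mem_inter, mem_nb] at ha hb
  have h1 : a = z := by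
    by_contra hne; exact h a ha.2 hne ha.1
  have h2 : b = z := by
    by_contra hne; exact h b hb.2 hne hb.1
  rw [h1, h2]

/-- exits give paths when there are `k+1` low vertices -/
theorem exit_k1 (hk : 5 ≤ k) (hn : 100 * (k + 2) ^ 3 ≤ Fintype.card V)
    (he : te G < 2 * ((k + 1) * (Fintype.card V - k - 1) - 1)) (hL : (Lo G k).card = k + 1)
    {A C : List V} (h : ExitP G k x y A C) (h6 : A.length + C.length ≤ 6) {i : ℕ}
    (hi : A.length + C.length + 1 ≤ i) (hi' : i ≤ k + 1) : HasXY G i x y := by
  classical
  obtain ⟨f1, f2, f3, f4⟩ := num_facts (V := V) hn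
  have he2 : te G < 2 * ((k + 1) * Fintype.card V) := by
    have : (k + 1) * (Fintype.card V - k - 1) ≤ (k + 1) * Fintype.card V :=
      Nat.mul_le_mul_left _ (by omega)
    omega
  rcases hi.eq_or_lt with h7 | h7
  · rw [← h7]
    refine exit_hasXY' h ?_
    have := np_Wi_small (G := G) (c := 12) hn le_rfl hL le_rfl (by omega)
    omega
  · refine exit_hasXY hn he2 h (by omega) (by omega) ?_
    have h1 : (Wi G k).card ≤ (Wi G k ∪ (A ++ C).toFinset).card :=
      Finset.card_le_card subset_union_left
    have h2 := card_Wi (G := G) (k := k)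
    omega

/-- the exceptional structure for `i = 6` -/
def Six (G : SimpleGraph V) (k : ℕ) (x y : V) : Prop :=
  G.Adj x y ∧ ∃ Λ : Finset V, Λ.card = k - 1 ∧ x ∉ Λ ∧ y ∉ Λ ∧
    (∀ v, G.Adj x v ↔ v = y ∨ v ∈ Λ) ∧ (∀ v, G.Adj y v ↔ v = x ∨ v ∈ Λ)

theorem Six.symm (h : Six G k x y) : Six G k y x := by
  obtain ⟨h1, Λ, h2, h3, h4, h5, h6⟩ := h
  exact ⟨h1.symm, Λ, h2, h4, h3, h6, h5⟩

/-- `x` low, `y` not low, `k+1` low vertices -/
theorem R1_LW [DecidableEq V] (hk : 5 ≤ k) (hn : 100 * (k + 2) ^ 3 ≤ Fintype.card V)
    (hδ : ∀ v, k ≤ (nb G v).card) (hxy : x ≠ y) {i : ℕ} (h6 : 6 ≤ i) (hi : i ≤ k + 1)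
    (he : te G < 2 * ((k + 1) * (Fintype.card V - k - 1) - 1)) (hL : (Lo G k).card = k + 1)
    (hx : x ∈ Lo G k) (hy : y ∈ Wi G k) : HasXY G i x y := by
  by_cases h1 : ∃ a ∈ Wi G k, a ≠ y ∧ G.Adj x a
  · obtain ⟨a, ha, hay, hxa⟩ := h1
    exact exit_k1 hk hn he hL (exit3 hxy hy ha hay hxa) (by simp) (by simp; omega) hi
  push Not at h1
  by_cases h2 : ∃ l ∈ Lo G k, G.Adj x l ∧ ∃ a ∈ Wi G k, a ≠ y ∧ G.Adj l a
  · obtain ⟨l, hl, hxl, a, ha, hay, hla⟩ := h2
    exact exit_k1 hk hn he hL (exit4' hxy hx hy hl ha hay hxl hla) (by simp) (by simp; omega) hi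
  push Not at h2
  have hyL : y ∉ Lo G k := fun h => Lo_ne_Wi h hy rfl
  have hmx : (Lo G k ∩ nonb G x).card ≤ 1 :=
    (miss_le hδ hL hx).trans (card_exits_le_one h1)
  have hml : ∀ l ∈ Lo G k, G.Adj x l → (Lo G k ∩ nonb G l).card ≤ 1 := fun l hl hxl =>
    (miss_le hδ hL hl).trans (card_exits_le_one (h2 l hl hxl))
  by_cases h3 : ∀ l ∈ Lo G k, l ≠ x → G.Adj x l
  · have hm : ∀ v ∈ Lo G k, (Lo G k ∩ nonb G v).card ≤ 1 := by
      intro v hv
      by_cases hvx : v = x
      · rw [hvx]; exact hmx
      · exact hml v hv (h3 v hv hvx)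
    by_cases h4 : ∃ l ∈ Lo G k, l ≠ x ∧ G.Adj l y
    · obtain ⟨l, hl, hlx, hly⟩ := h4
      exact internal_snoc hx hl (Ne.symm hlx) hyL hly hm (Or.inl (by omega)) (by omega) (by omega)
    · push Not at h4
      exfalso
      have h5 : ∀ l ∈ Lo G k, l ≠ x → ∀ a ∈ Wi G k, ¬ G.Adj l a := by
        intro l hl hlx a ha hla
        by_cases hay : a = y
        · rw [hay] at hla; exact h4 l hl hlx hla
        · exact h2 l hl (h3 l hl hlx) a ha hay hla
      have h7 : np G (Lo G k) (Lo G k) = 0 := by
        rw [np_eq_card]
        refine Finset.card_eq_zero.2 ?_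
        ext ⟨s, t⟩
        simp only [mem_filter, mem_product, notMem_empty, iff_false, not_and, not_not]
        intro hst h8
        by_cases hsx : s = x
        · rw [hsx] at h8 ⊢; exact h3 t hst.2 h8
        · exact adj_of_noexit hδ hL hst.1 (h5 s hst.1 hsx) hst.2 h8
      have h8 := te_add G (Lo G k)
      rw [h7] at h8
      have h9 : ∀ l ∈ (Lo G k).erase x, Fintype.card V - k - 1 ≤ db G l := by
        intro l hl
        rw [mem_erase] at hl
        have h10 : (nb G l).card ≤ k := by
          have : nb G l ⊆ (Lo G k).erase l := by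
            intro w hw
            rw [mem_nb] at hw
            rw [mem_erase]
            refine ⟨hw.ne', ?_⟩
            by_contra hwL
            exact h5 l hl.2 hl.1 w (not_Lo.1 hwL) hw
          have h11 := Finset.card_le_card this
          rw [Finset.card_erase_of_mem hl.2, hL] at h11
          exact h11
        have h12 := nb_add_db (G := G) l
        omega
      have h10 : Fintype.card V - k - 2 ≤ db G x := by
        have h10 : (nb G x).card ≤ k + 1 := by
          have : nb G x ⊆ insert y ((Lo G k).erase x) := by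
            intro w hw
            rw [mem_nb] at hw
            rw [mem_insert, mem_erase]
            by_cases hwL : w ∈ Lo G k
            · exact Or.inr ⟨hw.ne', hwL⟩
            · left
              by_contra hwy
              exact h1 w (not_Lo.1 hwL) hwy hw
          have h11 := (Finset.card_le_card this).trans (Finset.card_insert_le _ _)
          rw [Finset.card_erase_of_mem hx, hL] at h11
          exact h11
        have h12 := nb_add_db (G := G) x
        omega
      have h11 : k * (Fintype.card V - k - 1) ≤ ∑ v ∈ (Lo G k).erase x, db G v := by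
        have h11 := Finset.card_nsmul_le_sum _ _ _ h9
        rw [Finset.card_erase_of_mem hx, hL, smul_eq_mul] at h11
        exact h11
      have h12 : db G x + ∑ v ∈ (Lo G k).erase x, db G v = ∑ v ∈ Lo G k, db G v :=
        Finset.add_sum_erase (Lo G k) (fun v => db G v) hx
      obtain ⟨f1, f2, f3, f4⟩ := num_facts (V := V) hn
      have h13 : (k + 1) * (Fintype.card V - k - 1) =
        k * (Fintype.card V - k - 1) + (Fintype.card V - k - 1) := by ring
      omega
  · push Not at h3
    obtain ⟨l', hl', hl'x, hxl'⟩ := h3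
    -- `x` misses exactly `l'`
    have hxadj : ∀ l ∈ Lo G k, l ≠ x → l ≠ l' → G.Adj x l := by
      intro l hl hlx hll
      by_contra hcon
      have h4 := Finset.card_le_one.1 hmx l' (by rw [mem_inter, mem_nonb]; exact ⟨hl', hl'x, hxl'⟩)
        l (by rw [mem_inter, mem_nonb]; exact ⟨hl, hlx, hcon⟩)
      exact hll h4.symm
    have hmK : ∀ v ∈ (Lo G k).erase l', ((Lo G k).erase l' ∩ nonb G v).card ≤ 1 := by
      intro v hv
      rw [mem_erase] at hv
      refine (Finset.card_le_card (Finset.inter_subset_inter_right (Finset.erase_subset _ _))).trans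
        ?_
      by_cases hvx : v = x
      · rw [hvx]; exact hmx
      · exact hml v hv.2 (hxadj v hv.2 hvx hv.1)
    have hKc : ((Lo G k).erase l').card = k := by rw [Finset.card_erase_of_mem hl', hL]; rfl
    by_cases h5 : ∃ l ∈ Lo G k, l ≠ x ∧ l ≠ l' ∧ G.Adj l y
    · obtain ⟨l, hl, hlx, hll', hly⟩ := h5
      refine internal_snoc (K := (Lo G k).erase l') (mem_erase.2 ⟨Ne.symm hl'x, hx⟩)
        (mem_erase.2 ⟨hll', hl⟩) (Ne.symm hlx) (fun h => hyL (mem_of_mem_erase h)) hly hmK
        (Or.inr ⟨by omega, ?_⟩) (by omega) (by omega)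
      ext v
      simp only [mem_inter, mem_erase, mem_nonb, notMem_empty, iff_false, not_and, not_not]
      intro h8 h9
      exact hxadj v h8.2 h9 h8.1
    · push Not at h5
      have hfull : ∀ l ∈ Lo G k, l ≠ x → l ≠ l' → ∀ w ∈ Lo G k, w ≠ l → G.Adj l w := by
        intro l hl hlx hll' w hw hwl
        refine adj_of_noexit hδ hL hl ?_ hw hwl
        intro a ha hla
        by_cases hay : a = y
        · rw [hay] at hla; exact h5 l hl hlx hll' hla
        · exact h2 l hl (hxadj l hl hlx hll') a ha hay hla
      obtain ⟨l0, hl0⟩ : ∃ l0, l0 ∈ Lo G k \ {x, l'} := by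
        rw [← Finset.Nonempty, ← Finset.card_pos]
        have h1 := Finset.le_card_sdiff {x, l'} (Lo G k)
        have h2 := Finset.card_le_two (a := x) (b := l')
        omega
      simp only [mem_sdiff, mem_insert, mem_singleton, not_or] at hl0
      by_cases h7 : ∃ a ∈ Wi G k, a ≠ y ∧ G.Adj l' a
      · obtain ⟨a, ha, hay, hl'a⟩ := h7
        have hE : ExitP G k x y [x, l0, l', a] [y] := ⟨a, ha, y, hy,
          pathL4 (hxadj l0 hl0.1 hl0.2.1 hl0.2.2)
            (hfull l0 hl0.1 hl0.2.1 hl0.2.2 l' hl' (Ne.symm hl0.2.2)) hl'a (Ne.symm hl'x)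
            (Lo_ne_Wi hx ha) (Lo_ne_Wi hl0.1 ha), PathL.single y, by
              simp [hxy, hay, Lo_ne_Wi hl0.1 hy, Lo_ne_Wi hl' hy]⟩
        exact exit_k1 hk hn he hL hE (by simp) (by simp; omega) hi
      · push Not at h7
        by_cases h8 : G.Adj l' y
        · refine internal_snoc (K := Lo G k) hx hl' (Ne.symm hl'x) hyL h8 ?_
            (Or.inl (by omega)) (by omega) (by omega)
          intro v hv
          exact (miss_le hδ hL hv).trans (by
            by_cases hvx : v = x
            · rw [hvx]; exact card_exits_le_one h1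
            · by_cases hvl : v = l'
              · rw [hvl]; exact card_exits_le_one h7
              · exact card_exits_le_one (h2 v hv (hxadj v hv hvx hvl)))
        · exfalso
          have h9 := adj_of_noexit hδ hL hl' (by
            intro a ha hla
            by_cases hay : a = y
            · rw [hay] at hla; exact h8 hla
            · exact h7 a ha hay hla) hx (Ne.symm hl'x)
          exact hxl' h9.symm

/-- `x` and `y` low, `k+1` low vertices -/
theorem R1_LL [DecidableEq V] (hk : 5 ≤ k) (hn : 100 * (k + 2) ^ 3 ≤ Fintype.card V)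
    (hδ : ∀ v, k ≤ (nb G v).card) (hxy : x ≠ y) {i : ℕ} (h6 : 6 ≤ i) (hi : i ≤ k + 1)
    (he : te G < 2 * ((k + 1) * (Fintype.card V - k - 1) - 1)) (hL : (Lo G k).card = k + 1)
    (hx : x ∈ Lo G k) (hy : y ∈ Lo G k) : HasXY G i x y ∨ (i = 6 ∧ Six G k x y) := by
  by_cases h1 : ∃ a ∈ Wi G k, ∃ c ∈ Wi G k, a ≠ c ∧ G.Adj x a ∧ G.Adj y c
  · obtain ⟨a, ha, c, hc, hac, hxa, hyc⟩ := h1
    exact Or.inl (exit_k1 hk hn he hL (exit4 hxy hx hy ha hc hac hxa hyc) (by simp)
      (by simp; omega) hi)
  push Not at h1
  -- internal paths when every low vertex misses at most one low vertex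
  have hint : (∀ v ∈ Lo G k, (Lo G k ∩ nonb G v).card ≤ 1) →
      HasXY G i x y ∨ (i = 6 ∧ Six G k x y) := fun hm =>
    Or.inl (internal' hx hy hxy hm (Or.inl (by omega)) (by omega) (by omega))
  by_cases hx0 : ∀ a ∈ Wi G k, ¬ G.Adj x a
  · by_cases hy0 : ∀ a ∈ Wi G k, ¬ G.Adj y a
    · -- case (4)
      have hxL : ∀ v, G.Adj x v ↔ v ∈ Lo G k ∧ v ≠ x := by
        intro v
        constructor
        · intro h
          refine ⟨?_, h.ne'⟩
          by_contra hv
          exact hx0 v (not_Lo.1 hv) h
        · rintro ⟨h, h'⟩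
          exact adj_of_noexit hδ hL hx hx0 h h'
      have hyL : ∀ v, G.Adj y v ↔ v ∈ Lo G k ∧ v ≠ y := by
        intro v
        constructor
        · intro h
          refine ⟨?_, h.ne'⟩
          by_contra hv
          exact hy0 v (not_Lo.1 hv) h
        · rintro ⟨h, h'⟩
          exact adj_of_noexit hδ hL hy hy0 h h'
      by_cases hi6 : i = 6
      · refine Or.inr ⟨hi6, (hxL y).2 ⟨hy, hxy.symm⟩, (Lo G k) \ {x, y}, ?_, by simp, by simp,
          ?_, ?_⟩
        · rw [Finset.card_sdiff_of_subset, hL, Finset.card_pair hxy]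
          · omega
          · intro v hv
            simp only [mem_insert, mem_singleton] at hv
            rcases hv with rfl | rfl <;> assumption
        · intro v
          rw [hxL]
          simp only [mem_sdiff, mem_insert, mem_singleton, not_or]
          constructor
          · rintro ⟨h, h'⟩
            by_cases hvy : v = y
            · exact Or.inl hvy
            · exact Or.inr ⟨h, h', hvy⟩
          · rintro (rfl | h)
            · exact ⟨hy, hxy.symm⟩
            · exact ⟨h.1, h.2.1⟩
        · intro v
          rw [hyL]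
          simp only [mem_sdiff, mem_insert, mem_singleton, not_or]
          constructor
          · rintro ⟨h, h'⟩
            by_cases hvx : v = x
            · exact Or.inl hvx
            · exact Or.inr ⟨h, hvx, h'⟩
          · rintro (rfl | h)
            · exact ⟨hx, hxy⟩
            · exact ⟨h.1, h.2.2⟩
      · by_cases h2 : ∃ l ∈ Lo G k, ∃ l' ∈ Lo G k, l ≠ l' ∧ ∃ a ∈ Wi G k, ∃ c ∈ Wi G k, a ≠ c ∧
          G.Adj l a ∧ G.Adj l' c
        · obtain ⟨l, hl, l', hl', hll, a, ha, c, hc, hac, hla, hlc⟩ := h2
          have hlx : l ≠ x := by rintro rfl; exact hx0 a ha hla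
          have hly : l ≠ y := by rintro rfl; exact hy0 a ha hla
          have hlx' : l' ≠ x := by rintro rfl; exact hx0 c hc hlc
          have hly' : l' ≠ y := by rintro rfl; exact hy0 c hc hlc
          have hE : ExitP G k x y [x, l, a] [y, l', c] := ⟨a, ha, c, hc,
            pathL3 ((hxL l).2 ⟨hl, hlx⟩) hla (Lo_ne_Wi hx ha),
            pathL3 ((hyL l').2 ⟨hl', hly'⟩) hlc (Lo_ne_Wi hy hc), by
              simp [hxy, hlx'.symm, hly, hll, hac, Lo_ne_Wi hx hc, Lo_ne_Wi hl hc,
                (Lo_ne_Wi hy ha).symm, (Lo_ne_Wi hl' ha).symm]⟩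
          exact Or.inl (exit_k1 hk hn he hL hE (by simp) (by simp; omega) hi)
        · push Not at h2
          refine hint fun v hv => ?_
          by_cases hv1 : (nb G v ∩ Wi G k).card ≤ 1
          · exact (miss_le hδ hL hv).trans hv1
          · -- all others have no exit
            push Not at hv1
            obtain ⟨a, ha, b, hb, hab⟩ := Finset.one_lt_card.1 hv1
            rw [mem_inter, mem_nb] at ha hb
            have h3 : ∀ l ∈ Lo G k, l ≠ v → ∀ c ∈ Wi G k, ¬ G.Adj l c := by
              intro l hl hlv c hc hlc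
              by_cases hac : a = c
              · exact h2 v hv l hl (Ne.symm hlv) b hb.2 c hc (hac ▸ Ne.symm hab) hb.1 hlc
              · exact h2 v hv l hl (Ne.symm hlv) a ha.2 c hc hac ha.1 hlc
            have h4 : Lo G k ∩ nonb G v = ∅ := by
              ext l
              simp only [mem_inter, mem_nonb, notMem_empty, iff_false, not_and, not_not]
              intro hl hlv
              exact (adj_of_noexit hδ hL hl (h3 l hl hlv) hv (Ne.symm hlv)).symm
            rw [h4]; simp
    · -- case (5), `y` has an exit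
      push Not at hy0
      obtain ⟨a0, ha0, hya0⟩ := hy0
      have hxL : ∀ v, G.Adj x v ↔ v ∈ Lo G k ∧ v ≠ x := by
        intro v
        constructor
        · intro h
          refine ⟨?_, h.ne'⟩
          by_contra hv
          exact hx0 v (not_Lo.1 hv) h
        · rintro ⟨h, h'⟩
          exact adj_of_noexit hδ hL hx hx0 h h'
      by_cases h2 : ∃ l ∈ Lo G k, l ≠ y ∧ ∃ a ∈ Wi G k, ∃ c ∈ Wi G k, a ≠ c ∧ G.Adj y a ∧
          G.Adj l c
      · obtain ⟨l, hl, hly, a, ha, c, hc, hac, hya, hlc⟩ := h2
        have hlx : l ≠ x := by rintro rfl; exact hx0 c hc hlc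
        exact Or.inl (exit_k1 hk hn he hL (exit5 hxy.symm hy hx hl hly ha hc hac hya
          ((hxL l).2 ⟨hl, hlx⟩) hlc).symm (by simp) (by simp; omega) hi)
      · push Not at h2
        refine hint fun v hv => ?_
        by_cases hv1 : (nb G v ∩ Wi G k).card ≤ 1
        · exact (miss_le hδ hL hv).trans hv1
        · push Not at hv1
          obtain ⟨a, ha, b, hb, hab⟩ := Finset.one_lt_card.1 hv1
          rw [mem_inter, mem_nb] at ha hb
          by_cases hvy : v = y
          · subst hvy
            have h3 : ∀ l ∈ Lo G k, l ≠ v → ∀ c ∈ Wi G k, ¬ G.Adj l c := by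
              intro l hl hlv c hc hlc
              by_cases hac : a = c
              · exact h2 l hl hlv b hb.2 c hc (hac ▸ Ne.symm hab) hb.1 hlc
              · exact h2 l hl hlv a ha.2 c hc hac ha.1 hlc
            have h4 : Lo G k ∩ nonb G v = ∅ := by
              ext l
              simp only [mem_inter, mem_nonb, notMem_empty, iff_false, not_and, not_not]
              intro hl hlv
              exact (adj_of_noexit hδ hL hl (h3 l hl hlv) hv (Ne.symm hlv)).symm
            rw [h4]; simp
          · exfalso
            by_cases hac : a0 = a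
            · exact h2 v hv hvy a0 ha0 b hb.2 (hac ▸ hab) hya0 hb.1
            · exact h2 v hv hvy a0 ha0 a ha.2 hac hya0 ha.1
  · push Not at hx0
    obtain ⟨a0, ha0, hxa0⟩ := hx0
    by_cases hy0 : ∀ a ∈ Wi G k, ¬ G.Adj y a
    · -- case (5), `x` has an exit
      have hyL : ∀ v, G.Adj y v ↔ v ∈ Lo G k ∧ v ≠ y := by
        intro v
        constructor
        · intro h
          refine ⟨?_, h.ne'⟩
          by_contra hv
          exact hy0 v (not_Lo.1 hv) h
        · rintro ⟨h, h'⟩
          exact adj_of_noexit hδ hL hy hy0 h h'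
      by_cases h2 : ∃ l ∈ Lo G k, l ≠ x ∧ ∃ a ∈ Wi G k, ∃ c ∈ Wi G k, a ≠ c ∧ G.Adj x a ∧
          G.Adj l c
      · obtain ⟨l, hl, hlx, a, ha, c, hc, hac, hxa, hlc⟩ := h2
        have hly : l ≠ y := by rintro rfl; exact hy0 c hc hlc
        exact Or.inl (exit_k1 hk hn he hL (exit5 hxy hx hy hl hlx ha hc hac hxa
          ((hyL l).2 ⟨hl, hly⟩) hlc) (by simp) (by simp; omega) hi)
      · push Not at h2
        refine hint fun v hv => ?_
        by_cases hv1 : (nb G v ∩ Wi G k).card ≤ 1
        · exact (miss_le hδ hL hv).trans hv1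
        · push Not at hv1
          obtain ⟨a, ha, b, hb, hab⟩ := Finset.one_lt_card.1 hv1
          rw [mem_inter, mem_nb] at ha hb
          by_cases hvx : v = x
          · subst hvx
            have h3 : ∀ l ∈ Lo G k, l ≠ v → ∀ c ∈ Wi G k, ¬ G.Adj l c := by
              intro l hl hlv c hc hlc
              by_cases hac : a = c
              · exact h2 l hl hlv b hb.2 c hc (hac ▸ Ne.symm hab) hb.1 hlc
              · exact h2 l hl hlv a ha.2 c hc hac ha.1 hlc
            have h4 : Lo G k ∩ nonb G v = ∅ := by
              ext l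
              simp only [mem_inter, mem_nonb, notMem_empty, iff_false, not_and, not_not]
              intro hl hlv
              exact (adj_of_noexit hδ hL hl (h3 l hl hlv) hv (Ne.symm hlv)).symm
            rw [h4]; simp
          · exfalso
            by_cases hac : a0 = a
            · exact h2 v hv hvx a0 ha0 b hb.2 (hac ▸ hab) hxa0 hb.1
            · exact h2 v hv hvx a0 ha0 a ha.2 hac hxa0 ha.1
    · -- case (6)
      push Not at hy0
      obtain ⟨a1, ha1, hya1⟩ := hy0
      have ha01 : a0 = a1 := by
        by_contra hne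
        exact h1 a0 ha0 a1 ha1 hne hxa0 hya1
      subst ha01
      have hxe : ∀ a ∈ Wi G k, a ≠ a0 → ¬ G.Adj x a := fun a ha hne h =>
        h1 a ha a0 ha0 hne h hya1
      have hye : ∀ a ∈ Wi G k, a ≠ a0 → ¬ G.Adj y a := fun a ha hne h =>
        h1 a0 ha0 a ha (Ne.symm hne) hxa0 h
      by_cases h2 : ∃ l ∈ Lo G k, ∃ c ∈ Wi G k, c ≠ a0 ∧ G.Adj l c ∧ (G.Adj l x ∨ G.Adj l y)
      · obtain ⟨l, hl, c, hc, hca, hlc, hl2⟩ := h2
        have hlx : l ≠ x := by rintro rfl; exact hxe c hc hca hlc
        have hly : l ≠ y := by rintro rfl; exact hye c hc hca hlc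
        rcases hl2 with hl2 | hl2
        · exact Or.inl (exit_k1 hk hn he hL (exit5 hxy.symm hy hx hl hly ha0 hc (Ne.symm hca) hya1
            hl2.symm hlc).symm (by simp) (by simp; omega) hi)
        · exact Or.inl (exit_k1 hk hn he hL (exit5 hxy hx hy hl hlx ha0 hc (Ne.symm hca) hxa0
            hl2.symm hlc) (by simp) (by simp; omega) hi)
      · push Not at h2
        have hmx : (Lo G k ∩ nonb G x).card ≤ 1 :=
          (miss_le hδ hL hx).trans (card_exits_le_one hxe)
        have hmy : (Lo G k ∩ nonb G y).card ≤ 1 :=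
          (miss_le hδ hL hy).trans (card_exits_le_one hye)
        by_cases h3 : ∃ l ∈ Lo G k, ∃ c ∈ Wi G k, c ≠ a0 ∧ G.Adj l c
        · obtain ⟨l', hl', c, hc, hca, hlc⟩ := h3
          have hl'x : l' ≠ x := by rintro rfl; exact hxe c hc hca hlc
          have hl'y : l' ≠ y := by rintro rfl; exact hye c hc hca hlc
          obtain ⟨h4, h5⟩ := h2 l' hl' c hc hca hlc
          have hxadj : ∀ l ∈ Lo G k, l ≠ x → l ≠ l' → G.Adj x l := by
            intro l hl hlx hll
            by_contra hcon
            have h4 := Finset.card_le_one.1 hmx l'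
              (by rw [mem_inter, mem_nonb]; exact ⟨hl', hl'x, fun h => h4 h.symm⟩)
              l (by rw [mem_inter, mem_nonb]; exact ⟨hl, hlx, hcon⟩)
            exact hll h4.symm
          have hyadj : ∀ l ∈ Lo G k, l ≠ y → l ≠ l' → G.Adj y l := by
            intro l hl hly hll
            by_contra hcon
            have h4 := Finset.card_le_one.1 hmy l'
              (by rw [mem_inter, mem_nonb]; exact ⟨hl', hl'y, fun h => h5 h.symm⟩)
              l (by rw [mem_inter, mem_nonb]; exact ⟨hl, hly, hcon⟩)
            exact hll h4.symm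
          by_cases hi6 : i = 6
          · refine Or.inr ⟨hi6, hxadj y hy hxy.symm (Ne.symm hl'y),
              insert a0 ((Lo G k) \ {x, y, l'}), ?_, ?_, ?_, ?_, ?_⟩
            · rw [Finset.card_insert_of_notMem, Finset.card_sdiff_of_subset, hL,
                Finset.card_insert_of_notMem, Finset.card_pair]
              · omega
              · exact Ne.symm hl'y
              · simp [hxy, Ne.symm hl'x]
              · intro v hv
                simp only [mem_insert, mem_singleton] at hv
                rcases hv with rfl | rfl | rfl <;> assumption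
              · intro h
                rw [mem_sdiff] at h
                exact Lo_ne_Wi h.1 ha0 rfl
            · simp [Lo_ne_Wi hx ha0]
            · simp [Lo_ne_Wi hy ha0]
            · intro v
              simp only [mem_insert, mem_sdiff, mem_singleton, not_or]
              constructor
              · intro h
                by_cases hvL : v ∈ Lo G k
                · by_cases hvy : v = y
                  · exact Or.inl hvy
                  · refine Or.inr (Or.inr ⟨hvL, h.ne', hvy, ?_⟩)
                    rintro rfl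
                    exact h4 h.symm
                · right; left
                  by_contra hne
                  exact hxe v (not_Lo.1 hvL) hne h
              · rintro (rfl | rfl | h)
                · exact hxadj v hy hxy.symm (Ne.symm hl'y)
                · exact hxa0
                · exact hxadj v h.1 h.2.1 h.2.2.2
            · intro v
              simp only [mem_insert, mem_sdiff, mem_singleton, not_or]
              constructor
              · intro h
                by_cases hvL : v ∈ Lo G k
                · by_cases hvx : v = x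
                  · exact Or.inl hvx
                  · refine Or.inr (Or.inr ⟨hvL, hvx, h.ne', ?_⟩)
                    rintro rfl
                    exact h5 h.symm
                · right; left
                  by_contra hne
                  exact hye v (not_Lo.1 hvL) hne h
              · rintro (rfl | rfl | h)
                · exact hyadj v hx hxy (Ne.symm hl'x)
                · exact hya1
                · exact hyadj v h.1 h.2.2.1 h.2.2.2
          · by_cases h7 : ∃ v ∈ Lo G k, v ≠ x ∧ v ≠ y ∧ v ≠ l' ∧ G.Adj v l'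
            · obtain ⟨v, hv, hvx, hvy, hvl', hvadj⟩ := h7
              have hE : ExitP G k x y [x, a0] [y, v, l', c] := ⟨a0, ha0, c, hc, pathL2 hxa0,
                pathL4 (hyadj v hv hvy hvl') hvadj hlc (Ne.symm hl'y) (Lo_ne_Wi hy hc)
                  (Lo_ne_Wi hv hc), by
                  simp [hxy, Ne.symm hvx, Ne.symm hl'x, Ne.symm hca, Lo_ne_Wi hx hc,
                    (Lo_ne_Wi hy ha0).symm, (Lo_ne_Wi hv ha0).symm, (Lo_ne_Wi hl' ha0).symm]⟩
              exact Or.inl (exit_k1 hk hn he hL hE (by simp) (by simp; omega) hi)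
            · push Not at h7
              -- `Lo \ {l'} ∪ {a0}` is a clique
              have hnb : ∀ v ∈ Lo G k, v ≠ l' → nb G v = insert a0 ((Lo G k) \ {v, l'}) := by
                intro v hv hvl'
                refine Finset.eq_of_subset_of_card_le ?_ ?_
                · intro w hw
                  rw [mem_nb] at hw
                  rw [mem_insert, mem_sdiff, mem_insert, mem_singleton, not_or]
                  by_cases hwL : w ∈ Lo G k
                  · right
                    refine ⟨hwL, hw.ne', ?_⟩
                    rintro rfl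
                    by_cases hvx : v = x
                    · rw [hvx] at hw; exact h4 hw.symm
                    · by_cases hvy : v = y
                      · rw [hvy] at hw; exact h5 hw.symm
                      · exact h7 v hv hvx hvy hvl' hw
                  · left
                    by_contra hne
                    by_cases hvx : v = x
                    · rw [hvx] at hw; exact hxe w (not_Lo.1 hwL) hne hw
                    · exact (h2 v hv w (not_Lo.1 hwL) hne hw).1 (hxadj v hv hvx hvl').symm
                · rw [Finset.card_insert_of_notMem, Finset.card_sdiff_of_subset, hL,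
                    Finset.card_pair hvl']
                  · have := hδ v; omega
                  · intro w hw
                    simp only [mem_insert, mem_singleton] at hw
                    rcases hw with rfl | rfl <;> assumption
                  · intro h
                    rw [mem_sdiff] at h
                    exact Lo_ne_Wi h.1 ha0 rfl
              have ha0L : a0 ∉ (Lo G k).erase l' := fun h => Lo_ne_Wi (mem_of_mem_erase h) ha0 rfl
              have hKcard : (insert a0 ((Lo G k).erase l')).card = k + 1 := by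
                rw [Finset.card_insert_of_notMem ha0L, Finset.card_erase_of_mem hl', hL]; rfl
              refine Or.inl (internal' (K := insert a0 ((Lo G k).erase l'))
                (mem_insert_of_mem (mem_erase.2 ⟨Ne.symm hl'x, hx⟩))
                (mem_insert_of_mem (mem_erase.2 ⟨Ne.symm hl'y, hy⟩)) hxy ?_
                (Or.inl (by omega)) (by omega) (by omega))
              intro v hv
              have : insert a0 ((Lo G k).erase l') ∩ nonb G v = ∅ := by
                ext w
                simp only [mem_inter, mem_nonb, notMem_empty, iff_false, not_and, not_not]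
                intro hw hwv
                rw [mem_insert, mem_erase] at hv hw
                rcases hv with rfl | hv
                · rcases hw with rfl | hw
                  · exact absurd rfl hwv
                  · have : v ∈ nb G w := by rw [hnb w hw.2 hw.1]; simp
                    exact (mem_nb.1 this).symm
                · rw [← mem_nb, hnb v hv.2 hv.1, mem_insert, mem_sdiff, mem_insert,
                    mem_singleton, not_or]
                  rcases hw with rfl | hw
                  · exact Or.inl rfl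
                  · exact Or.inr ⟨hw.2, hwv, hw.1⟩
              rw [this]; simp
        · push Not at h3
          exact hint fun v hv => (miss_le hδ hL hv).trans (card_exits_le_one (h3 v hv))

theorem up_R1 (hk : 5 ≤ k) (hn : 100 * (k + 2) ^ 3 ≤ Fintype.card V)
    (hδ : ∀ v, k ≤ (nb G v).card) (hxy : x ≠ y) {i : ℕ} (h6 : 6 ≤ i) (hi : i ≤ k + 1)
    (he : te G < 2 * ((k + 1) * (Fintype.card V - k - 1) - 1)) :
    HasXY G i x y ∨ (i = 6 ∧ Six G k x y) := by
  classical
  obtain ⟨f1, f2, f3, f4⟩ := num_facts (V := V) hn
  have he2 : te G < 2 * ((k + 1) * Fintype.card V) := by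
    have : (k + 1) * (Fintype.card V - k - 1) ≤ (k + 1) * Fintype.card V :=
      Nat.mul_le_mul_left _ (by omega)
    omega
  have hL := card_Lo_le (G := G) hn (le_refl (k + 1)) he2
  have hW := card_Wi (G := G) (k := k)
  rcases hL.eq_or_lt with hL | hL
  · by_cases hx : x ∈ Lo G k
    · by_cases hy : y ∈ Lo G k
      · exact R1_LL hk hn hδ hxy h6 hi he hL hx hy
      · exact Or.inl (R1_LW hk hn hδ hxy h6 hi he hL hx (not_Lo.1 hy))
    · by_cases hy : y ∈ Lo G k
      · exact Or.inl (R1_LW hk hn hδ hxy.symm h6 hi he hL hy (not_Lo.1 hx)).symm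
      · exact Or.inl (exit_k1 hk hn he hL (exit2 (not_Lo.1 hx) (not_Lo.1 hy) hxy) (by simp)
          (by simp; omega) hi)
  · have hsub : ∀ A C : List V, (Wi G k).card ≤ (Wi G k ∪ (A ++ C).toFinset).card := fun A C =>
      Finset.card_le_card subset_union_left
    rcases out_of_le (by omega) hδ (by omega) hxy with ⟨A, C, h, hl⟩ | ⟨A, C, h, hl, -⟩ |
      ⟨h1, z, hz, h2, h3, h4⟩ | ⟨h1, h2, h3, a, ha, h4, h5, A, C, h, hl⟩
    · exact Or.inl (exit_hasXY hn he2 h (by omega) (by omega) (by have := hsub A C; omega))
    · exact Or.inl (exit_hasXY hn he2 h (by omega) (by omega) (by have := hsub A C; omega))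
    · have hzL : z ∉ Lo G k := fun h => Lo_ne_Wi h hz rfl
      refine Or.inl (internal' (K := insert z (Lo G k)) ?_ ?_ hxy ?_ (Or.inl ?_) (by omega) ?_)
      · rw [mem_insert]; tauto
      · rw [mem_insert]; tauto
      · intro v hv
        have : insert z (Lo G k) ∩ nonb G v = ∅ := by
          ext w
          simp only [mem_inter, mem_nonb, notMem_empty, iff_false, not_and, not_not]
          intro hw hwv
          exact complete_adj hδ h1 hz h2 hv hw (Ne.symm hwv)
        rw [this]; simp
      · rw [Finset.card_insert_of_notMem hzL]; omega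
      · rw [Finset.card_insert_of_notMem hzL]; omega
    · by_cases hi6 : i = 6
      · refine Or.inr ⟨hi6, (h4 y).2 (Or.inr ⟨h3, hxy.symm⟩), insert a ((Lo G k) \ {x, y}),
          ?_, ?_, ?_, ?_, ?_⟩
        · rw [Finset.card_insert_of_notMem, Finset.card_sdiff_of_subset, h1, Finset.card_pair hxy]
          · omega
          · intro v hv
            simp only [mem_insert, mem_singleton] at hv
            rcases hv with rfl | rfl <;> assumption
          · intro h
            rw [mem_sdiff] at h
            exact Lo_ne_Wi h.1 ha rfl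
        · simp [Lo_ne_Wi h2 ha]
        · simp [Lo_ne_Wi h3 ha]
        · intro v
          rw [h4]
          simp only [mem_insert, mem_sdiff, mem_singleton, not_or]
          constructor
          · rintro (h | h)
            · exact Or.inr (Or.inl h)
            · by_cases hvy : v = y
              · exact Or.inl hvy
              · exact Or.inr (Or.inr ⟨h.1, h.2, hvy⟩)
          · rintro (rfl | rfl | h)
            · exact Or.inr ⟨h3, hxy.symm⟩
            · exact Or.inl rfl
            · exact Or.inr ⟨h.1, h.2.1⟩
        · intro v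
          rw [h5]
          simp only [mem_insert, mem_sdiff, mem_singleton, not_or]
          constructor
          · rintro (h | h)
            · exact Or.inr (Or.inl h)
            · by_cases hvx : v = x
              · exact Or.inl hvx
              · exact Or.inr (Or.inr ⟨h.1, hvx, h.2⟩)
          · rintro (rfl | rfl | h)
            · exact Or.inr ⟨h2, hxy⟩
            · exact Or.inl rfl
            · exact Or.inr ⟨h.1, h.2.2⟩
      · exact Or.inl (exit_hasXY hn he2 h (by omega) (by omega) (by have := hsub A C; omega))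

end Pool.MP40
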